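import Pool.Agent.helper4.RaagTwo

/-!
The explicit data: squares in the complete bipartite graph on five and six vertices, the dual
basis certificate, and the table of permutations.
-/

namespace Pool.Agent.helper4

/-- The pairs of vertices of the first kind. -/
def dA : Fin 20 → Fin 2 → Fin 5 :=
  ![![0, 2], ![0, 2], ![0, 3], ![0, 3], ![0, 4], ![0, 4], ![0, 4], ![1, 3], ![1, 3], ![1, 3], ![1, 4], ![1, 4], ![1, 4], ![1, 4], ![2, 3], ![2, 3], ![2, 3], ![2, 4], ![2, 4], ![3, 4]]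

/-- The pairs of vertices of the second kind. -/
def dB : Fin 20 → Fin 2 → Fin 6 :=
  ![![0, 5], ![1, 3], ![0, 2], ![3, 4], ![0, 1], ![2, 4], ![3, 5], ![0, 3], ![1, 5], ![2, 4], ![0, 2], ![1, 2], ![3, 4], ![4, 5], ![0, 4], ![1, 2], ![3, 5], ![1, 4], ![2, 3], ![0, 5]]

/-- The dual basis. -/
def dL : Fin 20 → Fin 5 → Fin 6 → ℤ :=
  ![![![0, 0, 0, 0, 0, 0], ![0, 0, -1, -1, -2, -1], ![0, 0, -1, 0, -1, 1], ![0, 1, 0, -1, -1, 0], ![0, 0, -1, 0, -1, 0]],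
    ![![0, 0, 0, 0, 0, 0], ![0, 0, 1, 2, 3, 2], ![0, 1, 3, 2, 2, 0], ![0, -2, 0, 2, 2, 0], ![0, 0, 1, 0, 1, 0]],
    ![![0, 0, 0, 0, 0, 0], ![0, 0, 1, 0, 0, 0], ![0, -1, -1, -1, 0, 0], ![0, 1, 1, 0, 0, 1], ![0, 0, 1, 1, 1, 1]],
    ![![0, 0, 0, 0, 0, 0], ![0, 0, 0, 0, 1, 0], ![0, 1, 2, 1, 1, 0], ![0, -1, 0, 0, 1, -1], ![0, 0, 0, -1, 0, -1]],
    ![![0, 0, 0, 0, 0, 0], ![0, 1, 1, 2, 3, 2], ![0, 2, 3, 2, 2, 0], ![0, -1, 0, 2, 2, 0], ![0, 1, 1, 0, 1, 0]],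
    ![![0, 0, 0, 0, 0, 0], ![0, 0, 0, 0, 0, 0], ![0, -1, -2, -1, 0, 0], ![0, 1, 0, 0, 0, 1], ![0, 0, 0, 1, 1, 1]],
    ![![0, 0, 0, 0, 0, 0], ![0, 0, 1, 1, 2, 2], ![0, 0, 1, 0, 1, 0], ![0, -1, 0, 1, 1, 1], ![0, 0, 1, 0, 1, 1]],
    ![![0, 0, 0, 0, 0, 0], ![0, 0, -1, -1, -1, -1], ![0, 1, 1, 1, 0, 0], ![0, 0, 0, 0, 0, -1], ![0, 0, -1, -1, -1, -1]],
    ![![0, 0, 0, 0, 0, 0], ![0, 0, 0, -1, -1, -1], ![0, -1, -1, -1, -1, 0], ![0, 0, 0, -1, -1, 0], ![0, 0, 0, 0, 0, 0]],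
    ![![0, 0, 0, 0, 0, 0], ![0, 0, 1, 1, 1, 1], ![0, 0, 0, 0, 1, 0], ![0, 0, 0, 1, 1, 1], ![0, 0, 1, 1, 1, 1]],
    ![![0, 0, 0, 0, 0, 0], ![0, -1, 0, 0, 0, 0], ![0, -1, -1, -1, 0, 0], ![0, 0, 0, 0, 0, 1], ![0, 0, 1, 1, 1, 1]],
    ![![0, 0, 0, 0, 0, 0], ![0, 1, 0, 1, 1, 1], ![0, 1, 1, 1, 1, 0], ![0, 0, 0, 1, 1, 0], ![0, 0, 0, 0, 0, 0]],
    ![![0, 0, 0, 0, 0, 0], ![0, 0, -1, 0, -1, -1], ![0, 1, 1, 1, 0, 0], ![0, 0, 0, 0, 0, -1], ![0, 0, -1, -1, -1, -1]],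
    ![![0, 0, 0, 0, 0, 0], ![0, 0, 0, 1, 1, 0], ![0, 1, 1, 1, 1, 0], ![0, 0, 0, 1, 1, 0], ![0, 0, 0, 0, 0, 0]],
    ![![0, 0, 0, 0, 0, 0], ![0, 0, -1, -1, -2, -1], ![0, -1, -2, -1, -2, 0], ![0, 1, 0, -1, -1, 0], ![0, 0, -1, 0, -1, 0]],
    ![![0, 0, 0, 0, 0, 0], ![0, 0, 0, 1, 1, 1], ![0, 1, 1, 1, 1, 0], ![0, -1, 0, 1, 1, 0], ![0, 0, 0, 0, 0, 0]],
    ![![0, 0, 0, 0, 0, 0], ![0, 0, -1, -1, -2, -1], ![0, 0, -1, 0, -1, 0], ![0, 1, 0, -1, -1, 0], ![0, 0, -1, 0, -1, 0]],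
    ![![0, 0, 0, 0, 0, 0], ![0, 0, 1, 1, 2, 1], ![0, 1, 2, 1, 1, 0], ![0, -1, 0, 1, 1, 0], ![0, 0, 1, 0, 1, 0]],
    ![![0, 0, 0, 0, 0, 0], ![0, 0, 0, 1, 1, 1], ![0, 1, 2, 1, 1, 0], ![0, -1, 0, 1, 1, 0], ![0, 0, 0, 0, 0, 0]],
    ![![0, 0, 0, 0, 0, 0], ![0, 0, -1, -2, -3, -2], ![0, -1, -2, -1, -2, 0], ![0, 1, 0, -2, -2, -1], ![0, 0, -1, 0, -1, 0]]]

set_option maxRecDepth 100000 in
theorem dcert_left : ∀ i j : Fin 20, ∑ a : Fin 5, ∑ b : Fin 6, dL i a b * bet dA dB j a b =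
    dl i j := by
  decide +kernel

set_option maxRecDepth 100000 in
theorem dcert_right : ∀ (a' : Fin 5) (b' : Fin 6) (a : Fin 5) (b : Fin 6),
    ∑ i : Fin 20, dL i a' b' * bet dA dB i a b = (dl a' a - dl 0 a) * (dl b' b - dl 0 b) := by
  decide +kernel

theorem dcert : Cert dA dB 0 0 dL := ⟨dcert_left, dcert_right⟩

end Pool.Agent.helper4
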