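import Pool.Agent.helper4.Fibre

/-!
Reduction of the disproof to the existence of a group of type `FP_3` which is not finitely
presented.
-/

namespace Pool.Agent.helper4

open CategoryTheory

theorem reduction (Q₀ : Type) [Group Q₀] (hFP : FPn (ZG Q₀) 3 (Triv Q₀)) (X : Type) [Finite X]
    (φ : FreeGroup X →* Q₀) (hφ : Function.Surjective φ)
    (hnot : ¬ ∃ S : Set (FreeGroup X), S.Finite ∧ Subgroup.normalClosure S = φ.ker) :
    ¬ (∀ (G₁ G₂ Q : Type) [Group G₁] [Group G₂] [Group Q] (π₁ : G₁ →* Q) (π₂ : G₂ →* Q),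
      Function.Surjective π₁ → Function.Surjective π₂ → Group.FG π₁.ker →
      (∃ R : ProjectiveResolution (Rep.trivial ℤ G₁ ℤ), ∀ k ≤ 2,
        ∃ s : Finset (R.complex.X k).V, ∀ x : (R.complex.X k).V,
          x ∈ Submodule.span ℤ
            (Set.range (fun p : G₁ × s => (R.complex.X k).ρ p.1 (p.2 : (R.complex.X k).V)))) →
      (∃ R : ProjectiveResolution (Rep.trivial ℤ G₂ ℤ), ∀ k ≤ 2,
        ∃ s : Finset (R.complex.X k).V, ∀ x : (R.complex.X k).V,
          x ∈ Submodule.span ℤ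
            (Set.range (fun p : G₂ × s => (R.complex.X k).ρ p.1 (p.2 : (R.complex.X k).V)))) →
      (∃ R : ProjectiveResolution (Rep.trivial ℤ Q ℤ), ∀ k ≤ 3,
        ∃ s : Finset (R.complex.X k).V, ∀ x : (R.complex.X k).V,
          x ∈ Submodule.span ℤ
            (Set.range (fun p : Q × s => (R.complex.X k).ρ p.1 (p.2 : (R.complex.X k).V)))) →
      (∃ R : ProjectiveResolution (Rep.trivial ℤ
          ↥((π₁.comp (MonoidHom.fst G₁ G₂)).eqLocus (π₂.comp (MonoidHom.snd G₁ G₂))) ℤ),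
        ∀ k ≤ 2,
        ∃ s : Finset (R.complex.X k).V, ∀ x : (R.complex.X k).V,
          x ∈ Submodule.span ℤ
            (Set.range (fun p : ↥((π₁.comp (MonoidHom.fst G₁ G₂)).eqLocus
                (π₂.comp (MonoidHom.snd G₁ G₂))) × s =>
              (R.complex.X k).ρ p.1 (p.2 : (R.complex.X k).V))))) := by
  intro H
  have h3 := exists_rep_resolution_of_FPn 3 hFP
  have hQfp : Module.FinitePresentation (ZG Q₀) (IG Q₀) := by
    apply IG_fp_of_rep_resolution
    obtain ⟨R, hR⟩ := h3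
    exact ⟨R, fun k hk => hR k (by omega)⟩
  have h1 := exists_rep_resolution_of_FPn 2 (FPn_two_of_IG_fp (IG_GG_fp φ hQfp))
  have h2 := exists_rep_resolution_of_FPn 2 (FPn_two_of_IG_fp (IG_free_fp X))
  have h4 := H (GG φ) (FreeGroup X) Q₀ (piOne φ) φ (piOne_surjective φ) hφ (ker_piOne_fg φ hφ)
    h1 h2 h3
  exact hnot (normal_fg_of_FP φ hφ (IG_fp_of_rep_resolution h4))

end Pool.Agent.helper4
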