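import Pool.Agent.helper4.NotFP
import Pool.Agent.helper4.Data
import Pool.Agent.helper4.Reduction

/-!
The final assembly.
-/

namespace Pool.Agent.helper4

/-- A permutation from a function and its inverse. -/
def mkP (v w : Fin 5 → Fin 5) (h1 : ∀ x, w (v x) = x) (h2 : ∀ x, v (w x) = x) :
    Equiv.Perm (Fin 5) := ⟨v, w, h1, h2⟩

/-- Permutations used in the table. -/
def p1 : Equiv.Perm (Fin 5) := mkP ![1, 3, 0, 4, 2] ![2, 0, 4, 1, 3] (by decide) (by decide)
/-- Permutations used in the table. -/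
def p2 : Equiv.Perm (Fin 5) := mkP ![2, 4, 3, 1, 0] ![4, 3, 0, 2, 1] (by decide) (by decide)
/-- Permutations used in the table. -/
def p3 : Equiv.Perm (Fin 5) := mkP ![0, 2, 4, 3, 1] ![0, 4, 1, 3, 2] (by decide) (by decide)
/-- Permutations used in the table. -/
def p4 : Equiv.Perm (Fin 5) := mkP ![3, 2, 0, 4, 1] ![2, 4, 1, 0, 3] (by decide) (by decide)
/-- Permutations used in the table. -/
def p5 : Equiv.Perm (Fin 5) := mkP ![1, 3, 2, 0, 4] ![3, 0, 2, 1, 4] (by decide) (by decide)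
/-- Permutations used in the table. -/
def p6 : Equiv.Perm (Fin 5) := mkP ![1, 2, 3, 4, 0] ![4, 0, 1, 2, 3] (by decide) (by decide)
/-- Permutations used in the table. -/
def p7 : Equiv.Perm (Fin 5) := mkP ![3, 0, 4, 2, 1] ![1, 4, 3, 0, 2] (by decide) (by decide)

/-- The table of permutations. -/
def dT : Fin 5 → Fin 6 → Equiv.Perm (Fin 5) :=
  ![![1, 1, 1, 1, 1, 1],
    ![1, 1, p1, p2, p3, p2],
    ![1, p4, p5, p4, p2, 1],
    ![1, p6, 1, p2, p2, p7],
    ![1, 1, p1, p7, p1, p7]]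

/-- Left factors on the squares. -/
def dlam (i : Fin 20) (a : Fin 5) : Equiv.Perm (Fin 5) :=
  dT a (dB i 0) * (dT (dA i 0) (dB i 0))⁻¹

/-- Right factors on the squares. -/
def dmu (i : Fin 20) (b : Fin 6) : Equiv.Perm (Fin 5) := dT (dA i 0) b

set_option maxRecDepth 100000 in
theorem drank : ∀ (i : Fin 20) (s s' : Fin 2), dT (dA i s) (dB i s') =
    dlam i (dA i s) * dmu i (dB i s') := by
  decide +kernel

set_option maxRecDepth 100000 in
theorem dne : dT 0 2 * ((dT 1 2)⁻¹ * (dT 1 0 * (dT 0 0)⁻¹)) ≠ 1 := by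
  decide +kernel

/-- The group of type `FP_3` which is not finitely presented. -/
abbrev QQ : Type := (chi dA dB).ker

theorem QQ_FP3 : FPn (ZG QQ) 3 (Triv QQ) := ker_chi_FP3 dA dB dcert

theorem QQ_not_fp (S : Type) (φ : FreeGroup S →* QQ) (hφ : Function.Surjective φ) :
    ¬ ∃ R : Set (FreeGroup S), R.Finite ∧ Subgroup.normalClosure R = φ.ker :=
  not_normally_fg (t := dT) (lam := dlam) (mu := dmu) drank 0 0 0 1 0 2 dne S φ hφ

theorem QQ_fg : Group.FG QQ := by
  have h := exists_rep_resolution_of_FPn 3 QQ_FP3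
  have h2 : Module.FinitePresentation (ZG QQ) (IG QQ) := by
    apply IG_fp_of_rep_resolution
    obtain ⟨R, hR⟩ := h
    exact ⟨R, fun k hk => hR k (by omega)⟩
  exact group_fg_of_IG_fg (Module.Finite.iff_fg.1 inferInstance)

end Pool.Agent.helper4
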