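import Pool.Agent.helper23.HB.Stmts

/-! HB-GAU: Gaussian increments, maximal inequality for Brownian motion on `[0,h]`. -/

set_option linter.all false

open MeasureTheory ProbabilityTheory Set Filter Topology
open scoped ENNReal NNReal

namespace Pool.Agent.helper4.HB

open Pool.Agent.helper23.HB

variable {Ω : Type} [MeasurableSpace Ω] {P : Measure Ω} [IsProbabilityMeasure P]

/-- exponential moment of a centred Gaussian -/
theorem lint_exp_gauss {Y : Ω → ℝ} {v : ℝ≥0} (hY : HasLaw Y (gaussianReal 0 v) P) (a : ℝ) :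
    ∫⁻ ω, ENNReal.ofReal (Real.exp (a * Y ω)) ∂P = ENNReal.ofReal (Real.exp (v * a ^ 2 / 2)) := by
  have h1 := mgf_gaussianReal (μ := 0) (v := v) hY.map_eq a
  have h2 : Integrable (fun ω => Real.exp (a * Y ω)) P := by
    have h3 := integrable_exp_mul_gaussianReal (μ := 0) (v := v) a
    rw [← hY.map_eq] at h3
    exact (integrable_map_measure (by fun_prop) hY.aemeasurable).1 h3
  rw [← ofReal_integral_eq_lintegral_ofReal h2 (ae_of_all _ fun ω => (Real.exp_pos _).le)]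
  have h4 : ∫ ω, Real.exp (a * Y ω) ∂P = mgf Y P a := rfl
  rw [h4, h1]
  congr 2
  ring

/-- maximal inequality for a finite set of times -/
theorem max_finset {X : ℝ≥0 → Ω → ℝ} (hX : IsPreBrownianReal X P) (hm : ∀ t, Measurable (X t))
    (h : ℝ≥0) (s : Finset ℝ≥0) (hs : ∀ t ∈ s, t ≤ h) {a : ℝ} (ha : 0 ≤ a) (x : ℝ) :
    P {ω | ∃ t ∈ s, x ≤ X t ω} ≤ ENNReal.ofReal (Real.exp (-(a * x) + h * a ^ 2 / 2)) := by
  classical
  let A : ℝ≥0 → Set Ω := fun t => {ω | x ≤ X t ω ∧ ∀ r ∈ s, r < t → X r ω < x}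
  have hA : ∀ t, MeasurableSet (A t) := by
    intro t
    have h1 : A t = {ω | x ≤ X t ω} ∩ ⋂ r ∈ s, {ω | r < t → X r ω < x} := by
      ext ω; simp [A]
    rw [h1]
    refine (measurableSet_le measurable_const (hm t)).inter ?_
    refine Finset.measurableSet_biInter s fun r _ => ?_
    by_cases hr : r < t
    · have : {ω | r < t → X r ω < x} = {ω | X r ω < x} := by ext ω; simp [hr]
      rw [this]
      exact measurableSet_lt (hm r) measurable_const
    · have : {ω | r < t → X r ω < x} = univ := by ext ω; simp [hr]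
      rw [this]
      exact MeasurableSet.univ
  have hcov : {ω | ∃ t ∈ s, x ≤ X t ω} ⊆ ⋃ t ∈ s, A t := by
    rintro ω ⟨t, ht, hx⟩
    have hne : (s.filter fun t => x ≤ X t ω).Nonempty := ⟨t, Finset.mem_filter.2 ⟨ht, hx⟩⟩
    obtain ⟨m, hm1, hm2⟩ := Finset.exists_min_image _ id hne
    have hm3 := Finset.mem_filter.1 hm1
    refine mem_iUnion₂.2 ⟨m, hm3.1, hm3.2, fun r hr hlt => ?_⟩
    by_contra hc
    exact absurd (hm2 r (Finset.mem_filter.2 ⟨hr, not_lt.1 hc⟩)) (not_le.2 hlt)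
  have hdisj : Set.PairwiseDisjoint (↑s : Set ℝ≥0) A := by
    intro t ht r hr hne
    rw [Function.onFun, Set.disjoint_left]
    intro ω h1 h2
    rcases lt_or_gt_of_ne hne with h3 | h3
    · exact absurd (h2.2 t ht h3) (not_lt.2 h1.1)
    · exact absurd (h1.2 r hr h3) (not_lt.2 h2.1)
  -- the main estimate
  have key : ∀ t ∈ s, ENNReal.ofReal (Real.exp (a * x)) * P (A t) ≤
      ∫⁻ ω in A t, ENNReal.ofReal (Real.exp (a * X h ω)) ∂P := by
    intro t ht
    have hth := hs t ht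
    let F : (Set.Iic t → ℝ) → ℝ≥0∞ := fun y =>
      {y : Set.Iic t → ℝ | x ≤ y ⟨t, Set.mem_Iic.2 le_rfl⟩ ∧ ∀ r ∈ s, ∀ hr : r < t, y ⟨r, Set.mem_Iic.2 hr.le⟩ < x}.indicator
        (fun y => ENNReal.ofReal (Real.exp (a * y ⟨t, Set.mem_Iic.2 le_rfl⟩))) y
    let G : (ℝ≥0 → ℝ) → ℝ≥0∞ := fun z => ENNReal.ofReal (Real.exp (a * z (h - t)))
    have hF : Measurable F := by
      apply Measurable.indicator (by fun_prop)
      have h1 : {y : Set.Iic t → ℝ | x ≤ y ⟨t, Set.mem_Iic.2 le_rfl⟩ ∧ ∀ r ∈ s, ∀ hr : r < t, y ⟨r, Set.mem_Iic.2 hr.le⟩ < x} =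
          {y | x ≤ y ⟨t, Set.mem_Iic.2 le_rfl⟩} ∩ ⋂ r ∈ s, {y | ∀ hr : r < t, y ⟨r, Set.mem_Iic.2 hr.le⟩ < x} := by
        ext y; simp
      rw [h1]
      refine (measurableSet_le measurable_const (by fun_prop)).inter ?_
      refine Finset.measurableSet_biInter s fun r _ => ?_
      by_cases hr : r < t
      · have : {y : Set.Iic t → ℝ | ∀ hr : r < t, y ⟨r, Set.mem_Iic.2 hr.le⟩ < x} = {y | y ⟨r, Set.mem_Iic.2 hr.le⟩ < x} := by
          ext y; simp [hr]
        rw [this]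
        exact measurableSet_lt (by fun_prop) measurable_const
      · have : {y : Set.Iic t → ℝ | ∀ hr : r < t, y ⟨r, Set.mem_Iic.2 hr.le⟩ < x} = univ := by ext y; simp [hr]
        rw [this]
        exact MeasurableSet.univ
    have hG : Measurable G := by fun_prop
    have hind := (hX.indepFun_shift t).symm.comp hF hG
    have hmul := lintegral_mul_eq_lintegral_mul_lintegral_of_indepFun
      (hF.comp (measurable_pi_lambda _ fun r => hm r))
      (hG.comp (measurable_pi_lambda _ fun r => (hm (t + r)).sub (hm t))) hind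
    have e1 : ∫⁻ ω in A t, ENNReal.ofReal (Real.exp (a * X h ω)) ∂P =
        ∫⁻ ω, (F ∘ fun ω (r : Set.Iic t) => X r ω) ω * (G ∘ fun ω r => X (t + r) ω - X t ω) ω ∂P := by
      rw [← lintegral_indicator (hA t)]
      apply lintegral_congr
      intro ω
      simp only [Function.comp, F, G]
      by_cases hω : ω ∈ A t
      · rw [indicator_of_mem hω, indicator_of_mem (by exact ⟨hω.1, fun r hr hlt => hω.2 r hr hlt⟩),
          ← ENNReal.ofReal_mul (Real.exp_pos _).le, ← Real.exp_add]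
        rw [add_tsub_cancel_of_le hth]
        congr 2
        ring
      · rw [indicator_of_notMem hω, indicator_of_notMem, zero_mul]
        intro hc
        exact hω ⟨hc.1, fun r hr hlt => hc.2 r hr hlt⟩
    rw [e1]
    refine le_trans ?_ hmul.ge
    have e2 : ENNReal.ofReal (Real.exp (a * x)) * P (A t) ≤
        ∫⁻ ω, (F ∘ fun ω (r : Set.Iic t) => X r ω) ω ∂P := by
      rw [← lintegral_indicator_const (hA t)]
      apply lintegral_mono
      intro ω
      simp only [Function.comp, F]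
      by_cases hω : ω ∈ A t
      · rw [indicator_of_mem hω, indicator_of_mem (by exact ⟨hω.1, fun r hr hlt => hω.2 r hr hlt⟩)]
        apply ENNReal.ofReal_le_ofReal
        apply Real.exp_le_exp.2
        exact mul_le_mul_of_nonneg_left hω.1 ha
      · rw [indicator_of_notMem hω]
        exact zero_le
    have e3 : 1 ≤ ∫⁻ ω, (G ∘ fun ω r => X (t + r) ω - X t ω) ω ∂P := by
      have hl : HasLaw (fun ω => X (t + (h - t)) ω - X t ω) (gaussianReal 0 (h - t)) P :=
        (hX.shift t).hasLaw_eval (h - t)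
      have := lint_exp_gauss hl a
      simp only [Function.comp, G]
      rw [this, ← ENNReal.ofReal_one]
      apply ENNReal.ofReal_le_ofReal
      apply Real.one_le_exp
      positivity
    calc ENNReal.ofReal (Real.exp (a * x)) * P (A t) =
        ENNReal.ofReal (Real.exp (a * x)) * P (A t) * 1 := by rw [mul_one]
      _ ≤ _ := mul_le_mul' e2 e3
  have hsum : ENNReal.ofReal (Real.exp (a * x)) * P (⋃ t ∈ s, A t) ≤
      ENNReal.ofReal (Real.exp (h * a ^ 2 / 2)) := by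
    calc ENNReal.ofReal (Real.exp (a * x)) * P (⋃ t ∈ s, A t)
        ≤ ENNReal.ofReal (Real.exp (a * x)) * ∑ t ∈ s, P (A t) := by
          gcongr
          exact measure_biUnion_finset_le s A
      _ = ∑ t ∈ s, ENNReal.ofReal (Real.exp (a * x)) * P (A t) := Finset.mul_sum _ _ _
      _ ≤ ∑ t ∈ s, ∫⁻ ω in A t, ENNReal.ofReal (Real.exp (a * X h ω)) ∂P :=
          Finset.sum_le_sum key
      _ = ∫⁻ ω in ⋃ t ∈ s, A t, ENNReal.ofReal (Real.exp (a * X h ω)) ∂P :=
          (lintegral_biUnion_finset hdisj (fun t _ => hA t) _).symm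
      _ ≤ ∫⁻ ω, ENNReal.ofReal (Real.exp (a * X h ω)) ∂P := setLIntegral_le_lintegral _ _
      _ = _ := lint_exp_gauss (hX.hasLaw_eval h) a
  calc P {ω | ∃ t ∈ s, x ≤ X t ω} ≤ P (⋃ t ∈ s, A t) := measure_mono hcov
    _ = ENNReal.ofReal (Real.exp (-(a * x))) * (ENNReal.ofReal (Real.exp (a * x)) *
        P (⋃ t ∈ s, A t)) := by
        rw [← mul_assoc, ← ENNReal.ofReal_mul (Real.exp_pos _).le, ← Real.exp_add]
        simp
    _ ≤ ENNReal.ofReal (Real.exp (-(a * x))) * ENNReal.ofReal (Real.exp (h * a ^ 2 / 2)) := by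
        gcongr
    _ = _ := by
        rw [← ENNReal.ofReal_mul (Real.exp_pos _).le, ← Real.exp_add]

theorem max_finset_abs {X : ℝ≥0 → Ω → ℝ} (hX : IsPreBrownianReal X P) (hm : ∀ t, Measurable (X t))
    {h : ℝ≥0} (hh : 0 < h) (s : Finset ℝ≥0) (hs : ∀ t ∈ s, t ≤ h) {x : ℝ} (hx : 0 ≤ x) :
    P {ω | ∃ t ∈ s, x ≤ |X t ω|} ≤ ENNReal.ofReal (2 * Real.exp (-x ^ 2 / (2 * h))) := by
  have hh' : (0 : ℝ) < h := hh
  have h1 := max_finset hX hm h s hs (a := x / h) (by positivity) x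
  have h2 := max_finset hX.neg (fun t => (hm t).neg) h s hs (a := x / h) (by positivity) x
  have e : -(x / h * x) + h * (x / h) ^ 2 / 2 = -x ^ 2 / (2 * h) := by
    field_simp
    ring
  rw [e] at h1 h2
  calc P {ω | ∃ t ∈ s, x ≤ |X t ω|}
      ≤ P ({ω | ∃ t ∈ s, x ≤ X t ω} ∪ {ω | ∃ t ∈ s, x ≤ (-X) t ω}) := by
        apply measure_mono
        rintro ω ⟨t, ht, hxt⟩
        rcases le_abs.1 hxt with h3 | h3
        · exact Or.inl ⟨t, ht, h3⟩
        · exact Or.inr ⟨t, ht, h3⟩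
    _ ≤ _ := measure_union_le _ _
    _ ≤ _ := add_le_add h1 h2
    _ = _ := by
        rw [← ENNReal.ofReal_add (Real.exp_pos _).le (Real.exp_pos _).le, ← two_mul]

theorem blk_zero (h : ℝ) (f : ℝ → ℝ) :
    blk h f 0 = (f h - f 0, ⨆ r : Icc (0 : ℝ) h, |f r - f 0|) := by
  simp [blk]

theorem tail_lt {X : Ω → ℝ → ℝ} (hX : BMp P X) {h : ℝ} (hh : 0 < h) {x : ℝ} (hx : 0 ≤ x) :
    P {ω | x < (blk h (X ω) 0).2} ≤ ENNReal.ofReal (2 * Real.exp (-x ^ 2 / (2 * h))) := by
  have hne : Nonempty (Icc (0 : ℝ) h) := ⟨⟨0, le_rfl, hh.le⟩⟩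
  let d : ℕ → Icc (0 : ℝ) h := TopologicalSpace.denseSeq (Icc (0 : ℝ) h)
  let d' : ℕ → ℝ≥0 := fun n => ⟨d n, (d n).2.1⟩
  let E : ℕ → Set Ω := fun N => {ω | ∃ t ∈ (Finset.range N).image d', x ≤ |X ω (t : ℝ)|}
  have hE : ∀ N, P (E N) ≤ ENNReal.ofReal (2 * Real.exp (-x ^ 2 / (2 * h))) := by
    intro N
    have := max_finset_abs hX.bm (fun t => hX.meas _) (h := ⟨h, hh.le⟩) hh ((Finset.range N).image d')
      (by
        intro t ht
        obtain ⟨n, -, rfl⟩ := Finset.mem_image.1 ht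
        exact (d n).2.2) hx
    exact this
  have hmono : Monotone E := by
    intro N M hNM ω hω
    obtain ⟨t, ht, h1⟩ := hω
    obtain ⟨n, hn, rfl⟩ := Finset.mem_image.1 ht
    refine ⟨d' n, Finset.mem_image.2 ⟨n, ?_, rfl⟩, h1⟩
    exact Finset.mem_range.2 (lt_of_lt_of_le (Finset.mem_range.1 hn) hNM)
  have hsub : {ω | x < (blk h (X ω) 0).2} ⊆ {ω | X ω 0 ≠ 0} ∪ ⋃ N, E N := by
    intro ω hω
    by_cases h0 : X ω 0 = 0
    · right
      rw [Set.mem_ofPred_eq, blk_zero] at hω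
      have hc : Continuous fun r : Icc (0 : ℝ) h => |X ω r - X ω 0| :=
        (((hX.cont ω).comp continuous_subtype_val).sub continuous_const).abs
      have h1 := iSup_eq_iSup_dense hc (isCompact_range hc).bddAbove
      simp only at hω
      rw [h1] at hω
      obtain ⟨n, hn⟩ := exists_lt_of_lt_ciSup hω
      rw [mem_iUnion]
      refine ⟨n + 1, d' n, Finset.mem_image.2 ⟨n, Finset.mem_range.2 (Nat.lt_succ_self n), rfl⟩, ?_⟩
      rw [h0, sub_zero] at hn
      exact hn.le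
    · left; exact h0
  have h0 : P {ω | X ω 0 ≠ 0} = 0 := by
    have := hX.bm.eval_zero_ae_eq_zero
    simpa [ae_iff] using this
  calc P {ω | x < (blk h (X ω) 0).2} ≤ P ({ω | X ω 0 ≠ 0} ∪ ⋃ N, E N) := measure_mono hsub
    _ ≤ P {ω | X ω 0 ≠ 0} + P (⋃ N, E N) := measure_union_le _ _
    _ = P (⋃ N, E N) := by rw [h0, zero_add]
    _ = ⨆ N, P (E N) := hmono.measure_iUnion
    _ ≤ _ := iSup_le hE

theorem tail_le {X : Ω → ℝ → ℝ} (hX : BMp P X) {h : ℝ} (hh : 0 < h) {x : ℝ} (hx : 0 ≤ x) :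
    P {ω | x ≤ (blk h (X ω) 0).2} ≤ ENNReal.ofReal (2 * Real.exp (-x ^ 2 / (2 * h))) := by
  rcases hx.eq_or_lt with rfl | hx
  · refine prob_le_one.trans ?_
    rw [← ENNReal.ofReal_one]
    apply ENNReal.ofReal_le_ofReal
    norm_num
  · have hlim : Tendsto (fun y : ℝ => ENNReal.ofReal (2 * Real.exp (-y ^ 2 / (2 * h)))) (𝓝[<] x)
        (𝓝 (ENNReal.ofReal (2 * Real.exp (-x ^ 2 / (2 * h))))) := by
      apply Tendsto.mono_left _ nhdsWithin_le_nhds
      apply Continuous.tendsto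
      exact ENNReal.continuous_ofReal.comp (by fun_prop)
    apply ge_of_tendsto hlim
    have : ∀ᶠ y in 𝓝[<] x, y ∈ Ioo 0 x := Ioo_mem_nhdsLT hx
    filter_upwards [this] with y hy
    refine le_trans (measure_mono ?_) (tail_lt hX hh hy.1.le)
    intro ω hω
    exact lt_of_lt_of_le hy.2 hω

theorem measurable_S {X : Ω → ℝ → ℝ} (hX : BMp P X) (h : ℝ) :
    Measurable (fun ω => (blk h (X ω) 0).2) :=
  ((measurable_pi_apply 0).comp (measurable_blk h hX.cont hX.meas)).snd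

theorem exp_moment {X : Ω → ℝ → ℝ} (hX : BMp P X) {h : ℝ} (hh : 0 < h) (a : ℝ) :
    ∫⁻ ω, ENNReal.ofReal (Real.exp (a * (blk h (X ω) 0).2)) ∂P ≠ ∞ := by
  have hS0 : ∀ ω, 0 ≤ (blk h (X ω) 0).2 := fun ω => blk_snd_nonneg h (X ω) 0
  have hmS := measurable_S hX h
  set b := |a| with hb
  have hb0 : 0 ≤ b := abs_nonneg a
  have hp : ∀ ω, ENNReal.ofReal (Real.exp (a * (blk h (X ω) 0).2)) ≤
      ∑' n : ℕ, {ω | (n : ℝ) ≤ (blk h (X ω) 0).2}.indicator
        (fun _ => ENNReal.ofReal (Real.exp (b * (n + 1)))) ω := by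
    intro ω
    refine le_trans ?_ (ENNReal.le_tsum ⌊(blk h (X ω) 0).2⌋₊)
    rw [indicator_of_mem (by exact Nat.floor_le (hS0 ω))]
    apply ENNReal.ofReal_le_ofReal
    apply Real.exp_le_exp.2
    have h1 := (Nat.lt_floor_add_one (blk h (X ω) 0).2).le
    calc a * (blk h (X ω) 0).2 ≤ b * (blk h (X ω) 0).2 :=
          mul_le_mul_of_nonneg_right (le_abs_self a) (hS0 ω)
      _ ≤ _ := mul_le_mul_of_nonneg_left h1 hb0
  have hms : ∀ n : ℕ, MeasurableSet {ω | (n : ℝ) ≤ (blk h (X ω) 0).2} := fun n =>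
    measurableSet_le measurable_const hmS
  have h1 : ∫⁻ ω, ENNReal.ofReal (Real.exp (a * (blk h (X ω) 0).2)) ∂P ≤
      ∑' n : ℕ, ENNReal.ofReal (Real.exp (b * (n + 1))) *
        ENNReal.ofReal (2 * Real.exp (-(n : ℝ) ^ 2 / (2 * h))) := by
    refine (lintegral_mono hp).trans ?_
    rw [lintegral_tsum fun n => (measurable_const.indicator (hms n)).aemeasurable]
    apply ENNReal.tsum_le_tsum
    intro n
    rw [lintegral_indicator_const (hms n)]
    gcongr
    exact tail_le hX hh (Nat.cast_nonneg n)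
  refine ne_top_of_le_ne_top ?_ h1
  have h2 : ∀ n : ℕ, ENNReal.ofReal (Real.exp (b * (n + 1))) *
        ENNReal.ofReal (2 * Real.exp (-(n : ℝ) ^ 2 / (2 * h))) ≤
      ENNReal.ofReal (2 * Real.exp (b + (b + 1) ^ 2 * h / 2) * (Real.exp (-1)) ^ n) := by
    intro n
    rw [← ENNReal.ofReal_mul (Real.exp_pos _).le]
    apply ENNReal.ofReal_le_ofReal
    rw [← Real.exp_nat_mul]
    have : Real.exp (b * (n + 1)) * (2 * Real.exp (-(n : ℝ) ^ 2 / (2 * h))) =
        2 * Real.exp (b * (n + 1) + -(n : ℝ) ^ 2 / (2 * h)) := by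
      rw [Real.exp_add]; ring
    rw [this, mul_assoc, ← Real.exp_add]
    apply mul_le_mul_of_nonneg_left _ (by norm_num)
    apply Real.exp_le_exp.2
    have h3 : b + (b + 1) ^ 2 * h / 2 + n * -1 - (b * (n + 1) + -(n : ℝ) ^ 2 / (2 * h)) =
        ((n : ℝ) - (b + 1) * h) ^ 2 / (2 * h) := by
      field_simp
      ring
    have h4 : 0 ≤ ((n : ℝ) - (b + 1) * h) ^ 2 / (2 * h) := by positivity
    linarith
  refine ne_top_of_le_ne_top ?_ (ENNReal.tsum_le_tsum h2)
  have hsum : Summable fun n : ℕ => 2 * Real.exp (b + (b + 1) ^ 2 * h / 2) * (Real.exp (-1)) ^ n := by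
    apply Summable.mul_left
    apply summable_geometric_of_lt_one (Real.exp_pos _).le
    rw [Real.exp_lt_one_iff]
    norm_num
  rw [← ENNReal.ofReal_tsum_of_nonneg (fun n => by positivity) hsum]
  exact ENNReal.ofReal_ne_top

theorem int_half (h : ℝ) (hh : 0 < h) :
    ∫⁻ t in Ioi (0 : ℝ), ENNReal.ofReal (t * Real.exp (-(1 / (2 * h)) * t ^ 2)) =
      ENNReal.ofReal h := by
  have hb : 0 < 1 / (2 * h) := by positivity
  have hi : IntegrableOn (fun t : ℝ => t * Real.exp (-(1 / (2 * h)) * t ^ 2)) (Ioi 0) volume :=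
    (integrable_mul_exp_neg_mul_sq hb).integrableOn
  rw [← ofReal_integral_eq_lintegral_ofReal hi]
  · congr 1
    have h1 := integral_mul_cexp_neg_mul_sq (b := ((1 / (2 * h) : ℝ) : ℂ)) (by simpa using hb)
    have h2 : ∫ r : ℝ in Ioi 0, (r : ℂ) * Complex.exp (-((1 / (2 * h) : ℝ) : ℂ) * (r : ℂ) ^ 2) =
        ((∫ t in Ioi (0 : ℝ), t * Real.exp (-(1 / (2 * h)) * t ^ 2) : ℝ) : ℂ) := by
      rw [← integral_complex_ofReal]
      apply integral_congr_ae
      filter_upwards with t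
      push_cast
      rfl
    rw [h2] at h1
    have h3 : (2 * ((1 / (2 * h) : ℝ) : ℂ))⁻¹ = ((h : ℝ) : ℂ) := by
      rw [← Complex.ofReal_ofNat, ← Complex.ofReal_mul, ← Complex.ofReal_inv]
      congr 1
      field_simp
    rw [h3] at h1
    exact_mod_cast h1
  · filter_upwards [self_mem_ae_restrict (measurableSet_Ioi : MeasurableSet (Ioi (0 : ℝ)))] with t ht
    have : (0 : ℝ) < t := ht
    positivity

theorem second_moment {X : Ω → ℝ → ℝ} (hX : BMp P X) {h : ℝ} (hh : 0 < h) :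
    ∫⁻ ω, ENNReal.ofReal ((blk h (X ω) 0).2 ^ (2 : ℝ)) ∂P ≤ ENNReal.ofReal (4 * h) := by
  have hS0 : ∀ ω, 0 ≤ (blk h (X ω) 0).2 := fun ω => blk_snd_nonneg h (X ω) 0
  rw [lintegral_rpow_eq_lintegral_meas_le_mul P (ae_of_all _ hS0) (measurable_S hX h).aemeasurable
    (by norm_num : (0 : ℝ) < 2)]
  have h1 : ∫⁻ t in Ioi (0 : ℝ), P {ω | t ≤ (blk h (X ω) 0).2} * ENNReal.ofReal (t ^ ((2 : ℝ) - 1)) ≤
      ∫⁻ t in Ioi (0 : ℝ), 2 * ENNReal.ofReal (t * Real.exp (-(1 / (2 * h)) * t ^ 2)) := by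
    apply lintegral_mono_ae
    filter_upwards [self_mem_ae_restrict (measurableSet_Ioi : MeasurableSet (Ioi (0 : ℝ)))] with t ht
    have ht' : (0 : ℝ) < t := ht
    calc P {ω | t ≤ (blk h (X ω) 0).2} * ENNReal.ofReal (t ^ ((2 : ℝ) - 1))
        ≤ ENNReal.ofReal (2 * Real.exp (-t ^ 2 / (2 * h))) * ENNReal.ofReal (t ^ ((2 : ℝ) - 1)) := by
          gcongr
          exact tail_le hX hh ht'.le
      _ = 2 * ENNReal.ofReal (t * Real.exp (-(1 / (2 * h)) * t ^ 2)) := by
          rw [← ENNReal.ofReal_mul (by positivity), show (2 : ℝ≥0∞) = ENNReal.ofReal 2 by simp,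
            ← ENNReal.ofReal_mul (by norm_num)]
          congr 1
          have : (2 : ℝ) - 1 = 1 := by norm_num
          rw [this, Real.rpow_one]
          have : -t ^ 2 / (2 * h) = -(1 / (2 * h)) * t ^ 2 := by ring
          rw [this]
          ring
  calc _ ≤ ENNReal.ofReal 2 *
        ∫⁻ t in Ioi (0 : ℝ), 2 * ENNReal.ofReal (t * Real.exp (-(1 / (2 * h)) * t ^ 2)) := by
        gcongr
    _ = ENNReal.ofReal 2 * (2 * ENNReal.ofReal h) := by
        rw [lintegral_const_mul _ (by fun_prop), int_half h hh]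
    _ = _ := by
        rw [show (2 : ℝ≥0∞) = ENNReal.ofReal 2 by simp, ← ENNReal.ofReal_mul (by norm_num),
          ← ENNReal.ofReal_mul (by norm_num)]
        congr 1
        ring

theorem frac_moment {X : Ω → ℝ → ℝ} (hX : BMp P X) {h : ℝ} (hh : 0 < h) {s : ℝ} (hs0 : 0 < s)
    (hs1 : s ≤ 1) :
    ∫⁻ ω, ENNReal.ofReal ((blk h (X ω) 0).2) ^ s ∂P ≤ ENNReal.ofReal (2 * h ^ (s / 2)) := by
  have hS0 : ∀ ω, 0 ≤ (blk h (X ω) 0).2 := fun ω => blk_snd_nonneg h (X ω) 0
  set M : ℝ := (4 * h) ^ (s / 2) with hM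
  have hM0 : 0 ≤ M := by positivity
  have hp : ∀ ω, ENNReal.ofReal ((blk h (X ω) 0).2) ^ s ≤
      ENNReal.ofReal (M * (1 - s / 2)) + ENNReal.ofReal (M * (s / 2) / (4 * h)) *
        ENNReal.ofReal ((blk h (X ω) 0).2 ^ (2 : ℝ)) := by
    intro ω
    set S := (blk h (X ω) 0).2 with hS
    have hSn : 0 ≤ S := hS0 ω
    rw [ENNReal.ofReal_rpow_of_nonneg hSn hs0.le, ← ENNReal.ofReal_mul (by positivity),
      ← ENNReal.ofReal_add (by apply mul_nonneg hM0; linarith) (by positivity)]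
    apply ENNReal.ofReal_le_ofReal
    have h1 := _root_.rpow_one_add_le_one_add_mul_self (s := S ^ 2 / (4 * h) - 1) (by
      have : 0 ≤ S ^ 2 / (4 * h) := by positivity
      linarith) (p := s / 2) (by linarith) (by linarith)
    have h2 : S ^ s = M * (1 + (S ^ 2 / (4 * h) - 1)) ^ (s / 2) := by
      rw [hM, ← Real.mul_rpow (by positivity) (by
        have : 0 ≤ S ^ 2 / (4 * h) := by positivity
        linarith)]
      have : 4 * h * (1 + (S ^ 2 / (4 * h) - 1)) = S ^ (2 : ℝ) := by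
        rw [Real.rpow_two]
        field_simp
        ring
      rw [this, ← Real.rpow_mul hSn]
      congr 1
      ring
    rw [h2]
    calc M * (1 + (S ^ 2 / (4 * h) - 1)) ^ (s / 2) ≤ M * (1 + s / 2 * (S ^ 2 / (4 * h) - 1)) :=
          mul_le_mul_of_nonneg_left h1 hM0
      _ = _ := by
          rw [Real.rpow_two]
          field_simp
          ring
  calc ∫⁻ ω, ENNReal.ofReal ((blk h (X ω) 0).2) ^ s ∂P
      ≤ ∫⁻ ω, (ENNReal.ofReal (M * (1 - s / 2)) + ENNReal.ofReal (M * (s / 2) / (4 * h)) *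
        ENNReal.ofReal ((blk h (X ω) 0).2 ^ (2 : ℝ))) ∂P := lintegral_mono hp
    _ = ENNReal.ofReal (M * (1 - s / 2)) + ENNReal.ofReal (M * (s / 2) / (4 * h)) *
        ∫⁻ ω, ENNReal.ofReal ((blk h (X ω) 0).2 ^ (2 : ℝ)) ∂P := by
        have hmS := measurable_S hX h
        rw [lintegral_add_left measurable_const, lintegral_const, measure_univ, mul_one,
          lintegral_const_mul _ (by fun_prop)]
    _ ≤ ENNReal.ofReal (M * (1 - s / 2)) + ENNReal.ofReal (M * (s / 2) / (4 * h)) *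
        ENNReal.ofReal (4 * h) := by
        gcongr
        exact second_moment hX hh
    _ = ENNReal.ofReal M := by
        rw [← ENNReal.ofReal_mul (by positivity),
          ← ENNReal.ofReal_add (by apply mul_nonneg hM0; linarith) (by positivity)]
        congr 1
        field_simp
        ring
    _ ≤ _ := by
        apply ENNReal.ofReal_le_ofReal
        rw [hM, Real.mul_rpow (by norm_num) hh.le]
        apply mul_le_mul_of_nonneg_right _ (by positivity)
        have : (4 : ℝ) ^ (s / 2) = 2 ^ s := by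
          rw [show (4 : ℝ) = 2 ^ (2 : ℝ) by norm_num, ← Real.rpow_mul (by norm_num)]
          congr 1
          ring
        rw [this]
        calc (2 : ℝ) ^ s ≤ 2 ^ (1 : ℝ) := Real.rpow_le_rpow_of_exponent_le (by norm_num) hs1
          _ = 2 := Real.rpow_one 2

theorem mGAU : St_GAU := by
  intro Ω _ P _ X hX h hh
  refine ⟨?_, fun x hx => tail_le hX hh hx, fun a => exp_moment hX hh a,
    fun s hs0 hs1 => frac_moment hX hh hs0 hs1⟩
  have h1 := (hX.bm.hasLaw_sub h.toNNReal 0).map_eq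
  have h2 : (fun ω => (blk h (X ω) 0).1) =
      (fun ω => X ω ((h.toNNReal : ℝ≥0) : ℝ)) - (fun ω => X ω ((0 : ℝ≥0) : ℝ)) := by
    ext ω
    rw [blk_zero]
    simp [Real.coe_toNNReal _ hh.le]
  rw [h2]
  refine h1.trans ?_
  congr 1
  ext
  rw [coe_nndist]
  simp [Real.dist_eq, Real.coe_toNNReal _ hh.le, abs_of_pos hh]

end Pool.Agent.helper4.HB
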