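import Pool.Agent.helper4.Twist

/-!
The action of the free group, and the subgroup of elements acting trivially on low levels.
-/

namespace Pool.Agent.helper4

set_option linter.unusedSectionVars false
set_option linter.unusedSimpArgs false
set_option linter.unusedVariables false

lemma perm_apply_inv {S : Type} (σ : Equiv.Perm S) (p : S) : σ (σ⁻¹ p) = p :=
  Equiv.apply_symm_apply σ p

/-- Left multiplication on the first factor. -/
def lX {X Y : Type} (a : X) : Equiv.Perm (Bs X Y) where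
  toFun g := (FreeGroup.of a * g.1, g.2)
  invFun g := ((FreeGroup.of a)⁻¹ * g.1, g.2)
  left_inv g := by simp
  right_inv g := by simp

/-- Left multiplication on the second factor. -/
def lY {X Y : Type} (b : Y) : Equiv.Perm (Bs X Y) where
  toFun g := (g.1, FreeGroup.of b * g.2)
  invFun g := (g.1, (FreeGroup.of b)⁻¹ * g.2)
  left_inv g := by simp
  right_inv g := by simp

/-- Right multiplication on the first factor. -/
def rX {X Y : Type} (a : X) : Equiv.Perm (Bs X Y) where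
  toFun g := (g.1 * FreeGroup.of a, g.2)
  invFun g := (g.1 * (FreeGroup.of a)⁻¹, g.2)
  left_inv g := by simp
  right_inv g := by simp

@[simp] lemma lX_apply {X Y : Type} (a : X) (g : Bs X Y) : lX a g = (FreeGroup.of a * g.1, g.2) := rfl
@[simp] lemma lY_apply {X Y : Type} (b : Y) (g : Bs X Y) : lY b g = (g.1, FreeGroup.of b * g.2) := rfl
@[simp] lemma rX_apply {X Y : Type} (a : X) (g : Bs X Y) : rX a g = (g.1 * FreeGroup.of a, g.2) := rfl

@[simp] lemma lX_inv_apply {X Y : Type} (a : X) (g : Bs X Y) :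
    (lX a)⁻¹ g = ((FreeGroup.of a)⁻¹ * g.1, g.2) := rfl
@[simp] lemma lY_inv_apply {X Y : Type} (b : Y) (g : Bs X Y) :
    (lY b)⁻¹ g = (g.1, (FreeGroup.of b)⁻¹ * g.2) := rfl

lemma lev_lX {X Y : Type} (a : X) (g : Bs X Y) : lev (lX a g) = lev g + 1 := by
  simp [lev]; ring
lemma lev_lY {X Y : Type} (a : Y) (g : Bs X Y) : lev (lY a g) = lev g + 1 := by
  simp [lev]; ring
lemma lev_rX {X Y : Type} (a : X) (g : Bs X Y) : lev (rX a g) = lev g + 1 := by
  simp [lev]; ring

section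

variable {X Y Z H : Type} [DecidableEq X] [DecidableEq Y] [Group H] (A : Z → Fin 2 → X)
  (B : Z → Fin 2 → Y) (x0 : X) (y0 : Y) (t : X → Y → H) (lam : Z → X → H) (mu : Z → Y → H)

/-- The operators attached to the generators. -/
noncomputable def op : W1 X Y Z → Equiv.Perm (H × Bs X Y)
  | Sum.inl a => tw (lX a) (cc y0 t a)
  | Sum.inr (Sum.inl b) => tw (lY b) (fun _ => 1)
  | Sum.inr (Sum.inr i) => tw (rX (A i 0)) (fun g =>
      pot A B x0 y0 t lam mu i (rX (A i 0) g) * (pot A B x0 y0 t lam mu i g)⁻¹)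

lemma lev_op (v : W1 X Y Z) (p : H × Bs X Y) :
    lev (op A B x0 y0 t lam mu v p).2 = lev p.2 + 1 := by
  rcases v with a | b | i
  · exact lev_lX a p.2
  · exact lev_lY b p.2
  · exact lev_rX _ p.2

variable {A B x0 y0 t lam mu}

lemma ht_eq_zero_of_eq_one {X : Type} {g : FreeGroup X} (h : g = 1) : ht (hF X) g = 0 := by
  rw [h]; simp

lemma ht_eq_of_mul_eq_one {X : Type} {a : X} {g : FreeGroup X} (h : FreeGroup.of a * g = 1) :
    ht (hF X) g = -1 := by
  have := ht_eq_zero_of_eq_one h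
  rw [ht_mul, hF_of] at this
  omega

lemma pot_x' (hrank : ∀ i s s', t (A i s) (B i s') = lam i (A i s) * mu i (B i s')) (i : Z)
    (s : Fin 2) (g : Bs X Y) (hg : lev g ≤ -2) :
    cc y0 t (A i s) g = pot A B x0 y0 t lam mu i (lX (A i s) g) *
      (pot A B x0 y0 t lam mu i g)⁻¹ := by
  refine pot_x hrank i s g fun h => ⟨fun h1 => ?_, fun h1 => ?_⟩
  · have e1 := ht_eq_zero_of_eq_one h
    have e2 := ht_eq_zero_of_eq_one h1
    unfold lev at hg
    omega
  · have e1 := ht_eq_zero_of_eq_one h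
    have e2 := ht_eq_of_mul_eq_one h1
    unfold lev at hg
    omega

lemma pot_y' (i : Z) (s : Fin 2) (g : Bs X Y) (hg : lev g ≤ -2) :
    pot A B x0 y0 t lam mu i (lY (B i s) g) = pot A B x0 y0 t lam mu i g := by
  refine pot_y i s g fun h => ⟨fun h1 => ?_, fun h1 => ?_⟩
  · have e1 := ht_eq_zero_of_eq_one h
    have e2 := ht_eq_zero_of_eq_one h1
    unfold lev at hg
    omega
  · have e1 := ht_eq_zero_of_eq_one h
    have e2 := ht_eq_of_mul_eq_one h1
    unfold lev at hg
    omega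

lemma cc_y' (a : X) (b : Y) (g : Bs X Y) (hg : lev g ≤ -3) :
    cc y0 t a (lY b g) = cc y0 t a g := by
  refine cc_y a b g fun h => ?_
  have e0 : -1 ≤ ht (hF X) g.1 := by
    rcases h with h | h
    · have := ht_eq_zero_of_eq_one h; omega
    · have := ht_eq_of_mul_eq_one h; omega
  refine ⟨fun h1 => ?_, fun h1 => ?_⟩
  · have e2 := ht_eq_zero_of_eq_one h1
    unfold lev at hg
    omega
  · have e2 := ht_eq_of_mul_eq_one h1
    unfold lev at hg
    omega

lemma op_comm (hrank : ∀ i s s', t (A i s) (B i s') = lam i (A i s) * mu i (B i s'))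
    {v w : W1 X Y Z} (h : Adj A B v w) (p : H × Bs X Y) (hp : lev p.2 ≤ -3) :
    op A B x0 y0 t lam mu v (op A B x0 y0 t lam mu w p) =
      op A B x0 y0 t lam mu w (op A B x0 y0 t lam mu v p) := by
  obtain ⟨k, g⟩ := p
  simp only at hp
  rcases h with ⟨a, b⟩ | ⟨i, s⟩ | ⟨i, s⟩
  · refine Prod.ext ?_ rfl
    show cc y0 t a (lY b g) * (1 * k) = 1 * (cc y0 t a g * k)
    rw [cc_y' a b g hp, one_mul, one_mul]
  · refine Prod.ext ?_ ?_
    · show cc y0 t (A i s) (rX (A i 0) g) * (pot A B x0 y0 t lam mu i (rX (A i 0) g) *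
        (pot A B x0 y0 t lam mu i g)⁻¹ * k) =
        pot A B x0 y0 t lam mu i (rX (A i 0) (lX (A i s) g)) *
        (pot A B x0 y0 t lam mu i (lX (A i s) g))⁻¹ * (cc y0 t (A i s) g * k)
      rw [pot_x' (x0 := x0) hrank i s g (by omega),
        pot_x' (x0 := x0) hrank i s (rX (A i 0) g) (by rw [lev_rX]; omega)]
      have e : lX (A i s) (rX (A i 0) g) = rX (A i 0) (lX (A i s) g) := by
        simp [mul_assoc]
      rw [e]
      group
    · show lX (A i s) (rX (A i 0) g) = rX (A i 0) (lX (A i s) g)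
      simp [mul_assoc]
  · refine Prod.ext ?_ rfl
    show 1 * (pot A B x0 y0 t lam mu i (rX (A i 0) g) *
        (pot A B x0 y0 t lam mu i g)⁻¹ * k) =
        pot A B x0 y0 t lam mu i (rX (A i 0) (lY (B i s) g)) *
        (pot A B x0 y0 t lam mu i (lY (B i s) g))⁻¹ * (1 * k)
    have e : rX (A i 0) (lY (B i s) g) = lY (B i s) (rX (A i 0) g) := rfl
    rw [pot_y' i s g (by omega), e, pot_y' i s (rX (A i 0) g) (by rw [lev_rX]; omega),
      one_mul, one_mul]

variable (A B x0 y0 t lam mu)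

/-- The action of the free group. -/
noncomputable def Th : FreeGroup (W1 X Y Z) →* Equiv.Perm (H × Bs X Y) :=
  FreeGroup.lift (op A B x0 y0 t lam mu)

lemma Th_of (v : W1 X Y Z) : Th A B x0 y0 t lam mu (FreeGroup.of v) = op A B x0 y0 t lam mu v :=
  FreeGroup.lift_apply_of

lemma lev_Th (w : FreeGroup (W1 X Y Z)) (p : H × Bs X Y) :
    lev (Th A B x0 y0 t lam mu w p).2 = lev p.2 + ht (hF (W1 X Y Z)) w := by
  refine FreeGroup.induction_on (C := fun w => ∀ p, lev (Th A B x0 y0 t lam mu w p).2 =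
    lev p.2 + ht (hF (W1 X Y Z)) w) w ?_ ?_ ?_ ?_ p
  · intro p; simp
  · intro v p
    rw [Th_of, lev_op, hF_of]
  · intro v ih p
    have := ih ((Th A B x0 y0 t lam mu (FreeGroup.of v)⁻¹) p)
    rw [map_inv, perm_apply_inv, hF_of] at this
    rw [map_inv, ht_inv, hF_of]
    omega
  · intro u v hu hv p
    rw [map_mul, Equiv.Perm.mul_apply, hu, hv, ht_mul]
    ring

/-- The elements acting trivially on sufficiently low levels. -/
def TT : Subgroup (FreeGroup (W1 X Y Z)) where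
  carrier := {w | ∃ M : ℤ, ∀ p, lev p.2 ≤ M → Th A B x0 y0 t lam mu w p = p}
  one_mem' := ⟨0, fun p _ => by simp⟩
  mul_mem' := by
    rintro u v ⟨M, hM⟩ ⟨N, hN⟩
    refine ⟨min M N, fun p hp => ?_⟩
    rw [map_mul, Equiv.Perm.mul_apply, hN p (le_trans hp (min_le_right _ _)),
      hM p (le_trans hp (min_le_left _ _))]
  inv_mem' := by
    rintro u ⟨M, hM⟩
    refine ⟨M, fun p hp => ?_⟩
    rw [map_inv, Equiv.Perm.inv_eq_iff_eq, hM p hp]

lemma mem_TT (w : FreeGroup (W1 X Y Z)) : w ∈ TT A B x0 y0 t lam mu ↔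
    ∃ M : ℤ, ∀ p, lev p.2 ≤ M → Th A B x0 y0 t lam mu w p = p := Iff.rfl

lemma TT_normal : (TT A B x0 y0 t lam mu).Normal := by
  refine ⟨?_⟩
  rintro w ⟨M, hM⟩ v
  refine ⟨M + ht (hF (W1 X Y Z)) v, fun p hp => ?_⟩
  rw [map_mul, map_mul, Equiv.Perm.mul_apply, Equiv.Perm.mul_apply]
  have h1 := lev_Th A B x0 y0 t lam mu v⁻¹ p
  rw [ht_inv] at h1
  rw [hM _ (by rw [h1]; omega), map_inv, perm_apply_inv]

lemma normalClosure_le_TT
    (hrank : ∀ i s s', t (A i s) (B i s') = lam i (A i s) * mu i (B i s')) :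
    Subgroup.normalClosure (relators A B) ≤ TT A B x0 y0 t lam mu := by
  have := TT_normal A B x0 y0 t lam mu
  refine Subgroup.normalClosure_le_normal ?_
  rintro _ ⟨v, w, hvw, rfl⟩
  refine ⟨-1, fun p hp => ?_⟩
  rw [map_mul, Equiv.Perm.mul_apply]
  set p' := Th A B x0 y0 t lam mu (FreeGroup.of w * FreeGroup.of v)⁻¹ p with hp'
  have h1 : lev p'.2 ≤ -3 := by
    rw [hp', lev_Th, ht_inv, ht_mul, hF_of, hF_of]; omega
  have h2 := op_comm (x0 := x0) (y0 := y0) hrank hvw p' h1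
  rw [map_mul, Equiv.Perm.mul_apply, Th_of, Th_of, h2, ← Th_of, ← Th_of, ← Equiv.Perm.mul_apply,
    ← map_mul, hp', map_inv, perm_apply_inv]

end

end Pool.Agent.helper4
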