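import Pool.Agent.helper4.Cx

/-!
Acyclicity of the augmented complex of the two-dimensional complex with unit coefficients.
-/

namespace Pool.Agent.helper4

set_option linter.unusedSectionVars false
set_option linter.unusedSimpArgs false

section

variable {X Y Z R : Type} [Fintype X] [Fintype Y] [Fintype Z] [DecidableEq X] [DecidableEq Y]
  [DecidableEq Z] [Ring R]

/-- The integer Kronecker delta. -/
def dl {X : Type} [DecidableEq X] (a b : X) : ℤ := if a = b then 1 else 0

lemma dl_smul {X M : Type} [DecidableEq X] [AddCommGroup M] (a b : X) (m : M) :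
    dl a b • m = if a = b then m else 0 := by
  unfold dl
  split_ifs <;> simp

/-- The sign attached to an index. -/
def sg (s : Fin 2) : ℤ := if s = 0 then 1 else -1

/-- The cycle of the square `i`. -/
def bet (A : Z → Fin 2 → X) (B : Z → Fin 2 → Y) (i : Z) (a : X) (b : Y) : ℤ :=
  (dl (A i 0) a - dl (A i 1) a) * (dl (B i 0) b - dl (B i 1) b)

/-- The dual basis certificate. -/
structure Cert (A : Z → Fin 2 → X) (B : Z → Fin 2 → Y) (x0 : X) (y0 : Y)
    (Λ : Z → X → Y → ℤ) : Prop where
  left : ∀ i j, ∑ a, ∑ b, Λ i a b * bet A B j a b = dl i j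
  right : ∀ a' b' a b, ∑ i, Λ i a' b' * bet A B i a b =
    (dl a' a - dl x0 a) * (dl b' b - dl y0 b)

variable {A : Z → Fin 2 → X} {B : Z → Fin 2 → Y} {x0 : X} {y0 : Y} {Λ : Z → X → Y → ℤ}

lemma sum_rot {α β γ M : Type} [Fintype α] [Fintype β] [Fintype γ] [AddCommMonoid M]
    (f : α → β → γ → M) : ∑ a, ∑ b, ∑ i, f a b i = ∑ i, ∑ a, ∑ b, f a b i := by
  rw [Finset.sum_congr rfl (fun a _ => Finset.sum_comm), Finset.sum_comm]

lemma sum_bet (lam : Z → R) (a : X) (b : Y) :
    ∑ i, ∑ s, ∑ t, (if A i s = a ∧ B i t = b then (sg s * sg t) • lam i else 0) =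
      ∑ i, bet A B i a b • lam i := by
  refine Finset.sum_congr rfl fun i _ => ?_
  simp only [Fin.sum_univ_two, sg, bet, dl]
  by_cases h1 : A i 0 = a <;> by_cases h2 : A i 1 = a <;> by_cases h3 : B i 0 = b <;>
    by_cases h4 : B i 1 = b <;> simp [h1, h2, h3, h4]

lemma T3_one_inj (hc : Cert A B x0 y0 Λ) (η : W3 Z → R)
    (h : T3 A B (fun _ => 1) (fun _ => 1) (fun _ => 1) η = 0) : η = 0 := by
  have hq : ∀ i s, η (i, s, 0) + η (i, s, 1) = 0 := by
    intro i s
    have := congrFun h (Sum.inr (Sum.inl (i, s)))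
    rw [T3_q, Pi.zero_apply, neg_eq_zero] at this
    simpa [Fin.sum_univ_two] using this
  have hr : ∀ i t, η (i, 0, t) + η (i, 1, t) = 0 := by
    intro i t
    have := congrFun h (Sum.inr (Sum.inr (i, t)))
    rw [T3_r] at this
    simpa [Fin.sum_univ_two] using this
  have hη : ∀ i s t, η (i, s, t) = (sg s * sg t) • η (i, 0, 0) := by
    intro i s t
    have e01 : η (i, 0, 1) = -η (i, 0, 0) := (neg_eq_of_add_eq_zero_right (hq i 0)).symm
    have e10 : η (i, 1, 0) = -η (i, 0, 0) := (neg_eq_of_add_eq_zero_right (hr i 0)).symm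
    have e11 : η (i, 1, 1) = η (i, 0, 0) := by
      have := (neg_eq_of_add_eq_zero_right (hq i 1)).symm
      rw [this, e10, neg_neg]
    fin_cases s <;> fin_cases t <;> simp [sg, e01, e10, e11]
  have hab : ∀ a b, ∑ i, bet A B i a b • η (i, 0, 0) = 0 := by
    intro a b
    have h1 := congrFun h (Sum.inl (a, b))
    rw [T3_ab, Pi.zero_apply] at h1
    rw [← sum_bet (fun i => η (i, 0, 0))]
    refine Eq.trans ?_ h1
    refine Finset.sum_congr rfl fun i _ => Finset.sum_congr rfl fun s _ =>
      Finset.sum_congr rfl fun t _ => ?_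
    rw [mul_one, ← hη]
  have h0 : ∀ j, η (j, 0, 0) = 0 := by
    intro j
    have h1 : ∑ a, ∑ b, Λ j a b • ∑ i, bet A B i a b • η (i, 0, 0) = 0 := by
      simp only [hab, smul_zero, Finset.sum_const_zero]
    have h2 : ∑ a, ∑ b, Λ j a b • ∑ i, bet A B i a b • η (i, 0, 0) =
        ∑ i, (∑ a, ∑ b, Λ j a b * bet A B i a b) • η (i, 0, 0) := by
      simp only [Finset.smul_sum, Finset.sum_smul, smul_smul]
      exact sum_rot _
    rw [h2] at h1
    simp only [hc.left, dl, ite_smul, one_smul, zero_smul, Finset.sum_ite_eq, Finset.mem_univ,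
      if_true] at h1
    exact h1
  funext σ
  obtain ⟨i, s, t⟩ := σ
  rw [hη, h0, smul_zero]; rfl

lemma sum_cond_b (g : Z → Fin 2 → Fin 2 → R) (a : X) :
    ∑ b, ∑ i, ∑ s, ∑ t, (if A i s = a ∧ B i t = b then g i s t else 0) =
      ∑ i, ∑ s, if A i s = a then ∑ t, g i s t else 0 := by
  rw [Finset.sum_comm]
  refine Finset.sum_congr rfl fun i _ => ?_
  rw [Finset.sum_comm]
  refine Finset.sum_congr rfl fun s _ => ?_
  rw [Finset.sum_comm]
  split_ifs with h
  · refine Finset.sum_congr rfl fun t _ => ?_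
    simp [h]
  · simp [h]

lemma sum_cond_a (g : Z → Fin 2 → Fin 2 → R) (b : Y) :
    ∑ a, ∑ i, ∑ s, ∑ t, (if A i s = a ∧ B i t = b then g i s t else 0) =
      ∑ i, ∑ t, if B i t = b then ∑ s, g i s t else 0 := by
  rw [Finset.sum_comm]
  refine Finset.sum_congr rfl fun i _ => ?_
  rw [Finset.sum_comm, Finset.sum_congr rfl (fun s _ => Finset.sum_comm), Finset.sum_comm]
  refine Finset.sum_congr rfl fun t _ => ?_
  split_ifs with h
  · refine Finset.sum_congr rfl fun s _ => ?_
    simp [h]
  · simp [h]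

lemma T2_one_exact (hc : Cert A B x0 y0 Λ) (ξ : W2 X Y Z → R)
    (h : T2 A B (fun _ => 1) (fun _ => 1) (fun _ => 1) ξ = 0) :
    ∃ η : W3 Z → R, T3 A B (fun _ => 1) (fun _ => 1) (fun _ => 1) η = ξ := by
  set p : X → Y → R := fun a b => ξ (Sum.inl (a, b)) with hp
  set q : Z → Fin 2 → R := fun i s => ξ (Sum.inr (Sum.inl (i, s))) with hq
  set r : Z → Fin 2 → R := fun i t => ξ (Sum.inr (Sum.inr (i, t))) with hr
  have hi : ∀ i, q i 0 + q i 1 + (r i 0 + r i 1) = 0 := by
    intro i
    have h1 := congrFun h (Sum.inr (Sum.inr i))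
    rw [T2_i, Pi.zero_apply] at h1
    simpa [Fin.sum_univ_two] using h1
  have ha : ∀ a, ∑ b, p a b + ∑ i, ∑ s, (if A i s = a then q i s else 0) = 0 := by
    intro a
    have h1 := congrFun h (Sum.inl a)
    rw [T2_a, Pi.zero_apply, sub_eq_add_neg, ← neg_add, neg_eq_zero] at h1
    simpa using h1
  have hb : ∀ b, ∑ a, p a b = ∑ i, ∑ t, (if B i t = b then r i t else 0) := by
    intro b
    have h1 := congrFun h (Sum.inr (Sum.inl b))
    rw [T2_b, Pi.zero_apply, sub_eq_zero] at h1
    simpa using h1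
  let η0 : Z → Fin 2 → Fin 2 → R := fun i s t =>
    if s = 0 then (if t = 0 then r i 0 + q i 1 else r i 1) else (if t = 0 then -q i 1 else 0)
  have hη0t : ∀ i s, ∑ t, η0 i s t = -q i s := by
    intro i s
    rw [Fin.sum_univ_two]
    fin_cases s
    · simp only [η0]
      have := hi i
      simp only [Fin.zero_eta, if_true, Fin.isValue, one_ne_zero, if_false]
      rw [eq_neg_iff_add_eq_zero, ← this]; abel
    · simp [η0]
  have hη0s : ∀ i t, ∑ s, η0 i s t = r i t := by
    intro i t
    rw [Fin.sum_univ_two]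
    fin_cases t
    · simp [η0]
    · simp [η0]
  let p' : X → Y → R := fun a b => p a b -
    ∑ i, ∑ s, ∑ t, (if A i s = a ∧ B i t = b then η0 i s t else 0)
  have hrow : ∀ a, ∑ b, p' a b = 0 := by
    intro a
    simp only [p', Finset.sum_sub_distrib]
    have e : ∑ i, ∑ s, (if A i s = a then ∑ t, η0 i s t else 0) =
        -∑ i, ∑ s, (if A i s = a then q i s else 0) := by
      rw [← Finset.sum_neg_distrib]
      refine Finset.sum_congr rfl fun i _ => ?_
      rw [← Finset.sum_neg_distrib]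
      refine Finset.sum_congr rfl fun s _ => ?_
      split_ifs
      · rw [hη0t]
      · simp
    rw [sum_cond_b, e, sub_neg_eq_add]
    exact ha a
  have hcol : ∀ b, ∑ a, p' a b = 0 := by
    intro b
    simp only [p', Finset.sum_sub_distrib]
    rw [sum_cond_a, hb b, sub_eq_zero]
    refine Finset.sum_congr rfl fun i _ => Finset.sum_congr rfl fun s _ => ?_
    rw [hη0s]
  let lam : Z → R := fun i => ∑ a, ∑ b, Λ i a b • p' a b
  have hlam : ∀ a b, ∑ i, bet A B i a b • lam i = p' a b := by
    intro a b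
    have h1 : ∑ i, bet A B i a b • lam i =
        ∑ a', ∑ b', (∑ i, Λ i a' b' * bet A B i a b) • p' a' b' := by
      simp only [lam, Finset.smul_sum, Finset.sum_smul, smul_smul]
      refine Eq.trans ?_ (sum_rot _).symm
      refine Finset.sum_congr rfl fun i _ => Finset.sum_congr rfl fun a' _ =>
        Finset.sum_congr rfl fun b' _ => ?_
      rw [mul_comm]
    rw [h1]
    simp only [hc.right]
    have h2 : ∀ a', ∑ b', ((dl a' a - dl x0 a) * (dl b' b - dl y0 b)) • p' a' b' =
        (dl a' a - dl x0 a) • p' a' b := by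
      intro a'
      have h3 : ∀ b', ((dl a' a - dl x0 a) * (dl b' b - dl y0 b)) • p' a' b' =
          (dl a' a - dl x0 a) • ((if b' = b then p' a' b' else 0) - dl y0 b • p' a' b') := by
        intro b'
        rw [mul_smul, sub_smul (dl b' b) (dl y0 b), dl_smul]
      simp only [h3]
      rw [← Finset.smul_sum, Finset.sum_sub_distrib, ← Finset.smul_sum, hrow, smul_zero, sub_zero]
      simp
    simp only [h2]
    have h4 : ∀ a', (dl a' a - dl x0 a) • p' a' b =
        (if a' = a then p' a' b else 0) - dl x0 a • p' a' b := by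
      intro a'
      rw [sub_smul, dl_smul]
    simp only [h4]
    rw [Finset.sum_sub_distrib, ← Finset.smul_sum, hcol, smul_zero, sub_zero]
    simp
  refine ⟨fun σ => η0 σ.1 σ.2.1 σ.2.2 + (sg σ.2.1 * sg σ.2.2) • lam σ.1, ?_⟩
  funext w
  rcases w with ⟨a, b⟩ | ⟨i, s⟩ | ⟨i, t⟩
  · rw [T3_ab]
    have h1 : ∀ i s t, (if A i s = a ∧ B i t = b then
        (η0 i s t + (sg s * sg t) • lam i) * 1 else 0) =
        (if A i s = a ∧ B i t = b then η0 i s t else 0) +
        (if A i s = a ∧ B i t = b then (sg s * sg t) • lam i else 0) := by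
      intro i s t
      split_ifs <;> simp
    simp only [h1, Finset.sum_add_distrib]
    rw [sum_bet, hlam]
    simp [p', p]
  · rw [T3_q]
    simp only [mul_one, Finset.sum_add_distrib, hη0t]
    simp [Fin.sum_univ_two, sg, q]
  · rw [T3_r]
    simp only [mul_one, Finset.sum_add_distrib, hη0s]
    simp [Fin.sum_univ_two, sg, r]

lemma T1_one_exact (A : Z → Fin 2 → X) (B : Z → Fin 2 → Y) (x0 : X) (y0 : Y) (ζ : W1 X Y Z → R)
    (h : T1 (fun _ => 1) (fun _ => 1) (fun _ => 1) ζ = 0) :
    ∃ ξ : W2 X Y Z → R, T2 A B (fun _ => 1) (fun _ => 1) (fun _ => 1) ξ = ζ := by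
  rw [T1_apply] at h
  simp only [mul_one] at h
  let u : X → R := fun a => ζ (Sum.inl a) +
    ∑ i, (if A i 0 = a then ζ (Sum.inr (Sum.inr i)) else 0)
  let v : Y → R := fun b => ζ (Sum.inr (Sum.inl b))
  let w : Z → R := fun i => ζ (Sum.inr (Sum.inr i))
  have htot : ∑ a, u a + ∑ b, v b = 0 := by
    rw [← h]
    simp only [u, v, Finset.sum_add_distrib]
    rw [Finset.sum_comm]
    simp only [Finset.sum_ite_eq, Finset.mem_univ, if_true]
    abel
  let p : X → Y → R := fun a b => (if b = y0 then -u a else 0) + (if a = x0 then v b else 0) +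
    (if a = x0 then (if b = y0 then -∑ b, v b else 0) else 0)
  let ξ : W2 X Y Z → R := Sum.elim (fun z => p z.1 z.2)
    (Sum.elim (fun z => if z.2 = 0 then w z.1 else 0) (fun _ => 0))
  refine ⟨ξ, ?_⟩
  funext z
  rcases z with a | b | i
  · rw [T2_a]
    simp only [ξ, Sum.elim_inl, Sum.elim_inr, mul_one]
    have h1 : ∑ b, p a b = -u a := by
      simp only [p, Finset.sum_add_distrib, Finset.sum_ite_eq', Finset.mem_univ, if_true]
      by_cases ha : a = x0 <;> simp [ha]
    rw [h1, neg_neg]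
    have h2 : ∀ i, ∑ s : Fin 2, (if A i s = a then (if s = 0 then w i else 0) else 0) =
        if A i 0 = a then w i else 0 := by
      intro i; rw [Fin.sum_univ_two]; simp
    simp only [h2]
    simp [u, w]
  · rw [T2_b]
    simp only [ξ, Sum.elim_inl, Sum.elim_inr, mul_one]
    have h1 : ∑ a, p a b = v b := by
      simp only [p, Finset.sum_add_distrib, Finset.sum_ite_eq', Finset.mem_univ, if_true]
      by_cases hb : b = y0
      · simp only [hb, if_true, Finset.sum_neg_distrib]
        have := htot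
        rw [add_comm (-∑ i, u i), add_assoc, ← neg_add, htot]; simp
      · simp [hb]
    rw [h1]
    simp [v]
  · rw [T2_i]
    simp [ξ, w]

end

end Pool.Agent.helper4
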