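import Pool.Agent.helper4.Acyc

/-!
Acyclicity with commuting unit coefficients.
-/

namespace Pool.Agent.helper4

set_option linter.unusedSectionVars false
set_option linter.unusedSimpArgs false

section

variable {X Y Z R : Type} [Fintype X] [Fintype Y] [Fintype Z] [DecidableEq X] [DecidableEq Y]
  [DecidableEq Z] [Ring R] {A : Z → Fin 2 → X} {B : Z → Fin 2 → Y} {x0 : X} {y0 : Y}
  {Λ : Z → X → Y → ℤ} {fx : X → R} {fy : Y → R} {fc : Z → R}

/-- Weight of a triangle. -/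
def wt3 (A : Z → Fin 2 → X) (B : Z → Fin 2 → Y) (fx : X → R) (fy : Y → R) (fc : Z → R)
    (σ : W3 Z) : R := fx (A σ.1 σ.2.1) * fy (B σ.1 σ.2.2) * fc σ.1

/-- Weight of an edge. -/
def wt2 (A : Z → Fin 2 → X) (B : Z → Fin 2 → Y) (fx : X → R) (fy : Y → R) (fc : Z → R) :
    W2 X Y Z → R
  | Sum.inl (a, b) => fx a * fy b
  | Sum.inr (Sum.inl (i, s)) => fx (A i s) * fc i
  | Sum.inr (Sum.inr (i, t)) => fy (B i t) * fc i

lemma weight3 (h : Comm A B fx fy fc) (η : W3 Z → R) :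
    T3 A B (fun _ => 1) (fun _ => 1) (fun _ => 1) (fun σ => η σ * wt3 A B fx fy fc σ) =
      fun w => T3 A B fx fy fc η w * wt2 A B fx fy fc w := by
  funext w
  rcases w with ⟨a, b⟩ | ⟨i, s⟩ | ⟨i, t⟩
  · rw [T3_ab, T3_ab]
    simp only [wt2, mul_one, Finset.sum_mul]
    refine Finset.sum_congr rfl fun i _ => Finset.sum_congr rfl fun s _ =>
      Finset.sum_congr rfl fun t _ => ?_
    by_cases hc : A i s = a ∧ B i t = b
    · obtain ⟨rfl, rfl⟩ := hc
      simp only [and_self, if_true, wt3]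
      rw [mul_assoc (η _) (fc i), ← mul_assoc (fc i), ← h.xc, mul_assoc (fx _) (fc i), ← h.yc,
        mul_assoc (fx _) (fy _)]
    · simp [hc]
  · rw [T3_q, T3_q]
    simp only [wt2, wt3, mul_one, neg_mul, Finset.sum_mul]
    congr 1
    refine Finset.sum_congr rfl fun t _ => ?_
    rw [h.xy, mul_assoc, mul_assoc]
  · rw [T3_r, T3_r]
    simp only [wt2, wt3, mul_one, Finset.sum_mul, mul_assoc]

lemma weight2 (h : Comm A B fx fy fc) (ξ : W2 X Y Z → R) :
    T2 A B (fun _ => 1) (fun _ => 1) (fun _ => 1) (fun σ => ξ σ * wt2 A B fx fy fc σ) =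
      fun w => T2 A B fx fy fc ξ w * bd1 fx fy fc w := by
  funext w
  rcases w with a | b | i
  · rw [T2_a, T2_a]
    simp only [wt2, bd1, mul_one, sub_mul, neg_mul, Finset.sum_mul]
    congr 1
    · congr 1
      refine Finset.sum_congr rfl fun b _ => ?_
      rw [h.xy, mul_assoc]
    · refine Finset.sum_congr rfl fun i _ => Finset.sum_congr rfl fun s _ => ?_
      by_cases hc : A i s = a
      · subst hc
        simp only [if_true]
        rw [h.xc, mul_assoc]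
      · simp [hc]
  · rw [T2_b, T2_b]
    simp only [wt2, bd1, mul_one, sub_mul, Finset.sum_mul]
    congr 1
    · refine Finset.sum_congr rfl fun b _ => ?_
      rw [mul_assoc]
    · refine Finset.sum_congr rfl fun i _ => Finset.sum_congr rfl fun s _ => ?_
      by_cases hc : B i s = b
      · subst hc
        simp only [if_true]
        rw [h.yc, mul_assoc]
      · simp [hc]
  · rw [T2_i, T2_i]
    simp only [wt2, bd1, mul_one, add_mul, Finset.sum_mul, mul_assoc]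

lemma weight1 (ζ : W1 X Y Z → R) :
    T1 (fun _ => 1) (fun _ => 1) (fun _ => 1) (fun σ => ζ σ * bd1 fx fy fc σ) =
      T1 fx fy fc ζ := by
  rw [T1_apply, T1_apply]
  simp only [bd1, mul_one]

/-- Unit hypotheses. -/
structure Unts (fx : X → R) (fy : Y → R) (fc : Z → R) : Prop where
  x : ∀ a, IsUnit (fx a)
  y : ∀ b, IsUnit (fy b)
  c : ∀ i, IsUnit (fc i)

lemma Unts.wt3 (u : Unts fx fy fc) (σ : W3 Z) : IsUnit (wt3 A B fx fy fc σ) :=
  ((u.x _).mul (u.y _)).mul (u.c _)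

lemma Unts.wt2 (u : Unts fx fy fc) (σ : W2 X Y Z) : IsUnit (wt2 A B fx fy fc σ) := by
  rcases σ with ⟨a, b⟩ | ⟨i, s⟩ | ⟨i, t⟩
  · exact (u.x _).mul (u.y _)
  · exact (u.x _).mul (u.c _)
  · exact (u.y _).mul (u.c _)

lemma Unts.bd1 (u : Unts fx fy fc) (σ : W1 X Y Z) : IsUnit (bd1 fx fy fc σ) := by
  rcases σ with a | b | i
  · exact u.x _
  · exact u.y _
  · exact u.c _

lemma exists_div {W : Type} (w : W → R) (hw : ∀ σ, IsUnit (w σ)) (η : W → R) :
    ∃ η' : W → R, (fun σ => η' σ * w σ) = η := by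
  choose u hu using hw
  refine ⟨fun σ => η σ * ((u σ)⁻¹ : Rˣ), ?_⟩
  funext σ
  rw [← hu, mul_assoc, Units.inv_mul, mul_one]

lemma mul_wt_inj {W : Type} (w : W → R) (hw : ∀ σ, IsUnit (w σ)) {η η' : W → R}
    (h : (fun σ => η σ * w σ) = (fun σ => η' σ * w σ)) : η = η' := by
  funext σ
  exact (hw σ).mul_right_cancel (congrFun h σ)

lemma T3_inj (hc : Cert A B x0 y0 Λ) (h : Comm A B fx fy fc) (u : Unts fx fy fc)
    (η : W3 Z → R) (h0 : T3 A B fx fy fc η = 0) : η = 0 := by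
  have h1 := weight3 h η
  rw [h0] at h1
  have h2 : (fun w : W2 X Y Z => (0 : W2 X Y Z → R) w * wt2 A B fx fy fc w) = 0 := by
    funext w; simp
  rw [h2] at h1
  have h3 := T3_one_inj hc _ h1
  refine mul_wt_inj (wt3 A B fx fy fc) (u.wt3) ?_
  rw [h3]; funext σ; simp

lemma T2_exact (hc : Cert A B x0 y0 Λ) (h : Comm A B fx fy fc) (u : Unts fx fy fc)
    (ξ : W2 X Y Z → R) (h0 : T2 A B fx fy fc ξ = 0) : ∃ η, T3 A B fx fy fc η = ξ := by
  have h1 := weight2 h ξ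
  rw [h0] at h1
  have h2 : (fun w : W1 X Y Z => (0 : W1 X Y Z → R) w * bd1 fx fy fc w) = 0 := by
    funext w; simp
  rw [h2] at h1
  obtain ⟨η', hη'⟩ := T2_one_exact hc _ h1
  obtain ⟨η, rfl⟩ := exists_div (wt3 A B fx fy fc) u.wt3 η'
  refine ⟨η, mul_wt_inj (wt2 A B fx fy fc) u.wt2 ?_⟩
  rw [← hη', weight3 h]

lemma T1_exact (A : Z → Fin 2 → X) (B : Z → Fin 2 → Y) (x0 : X) (y0 : Y)
    (h : Comm A B fx fy fc) (u : Unts fx fy fc)
    (ζ : W1 X Y Z → R) (h0 : T1 fx fy fc ζ = 0) : ∃ ξ, T2 A B fx fy fc ξ = ζ := by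
  have h1 := weight1 (fx := fx) (fy := fy) (fc := fc) ζ
  rw [h0] at h1
  obtain ⟨η', hη'⟩ := T1_one_exact A B x0 y0 _ h1
  obtain ⟨η, rfl⟩ := exists_div (wt2 A B fx fy fc) u.wt2 η'
  refine ⟨η, mul_wt_inj (bd1 fx fy fc) u.bd1 ?_⟩
  rw [← hη', weight2 h]

end

end Pool.Agent.helper4
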