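import Pool.Agent.helper4.Decomp

/-!
Induction of modules along an inclusion with a retraction.
-/

namespace Pool.Agent.helper4

open CategoryTheory

section

variable {H G : Type} [Group H] [Group G]

/-- The ring homomorphism of group rings induced by a group homomorphism. -/
noncomputable def zmap (ι : H →* G) : ZG H →+* ZG G := MonoidAlgebra.mapDomainRingHom ℤ ι

@[simp] lemma zmap_el (ι : H →* G) (h : H) : zmap ι (el h) = el (ι h) := by
  simp [zmap, el]

lemma zmap_mem_J (ι : H →* G) {x : ZG H} (hx : x ∈ IG H) : zmap ι x ∈ J (Set.range ι) := by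
  refine Submodule.span_induction (p := fun x _ => zmap ι x ∈ J (Set.range ι)) ?_ ?_ ?_ ?_ hx
  · rintro _ ⟨k, hk, rfl⟩
    simp only [map_sub, zmap_el, map_one]
    exact sub_one_mem_J ⟨k, rfl⟩
  · rw [map_zero]; exact zero_mem _
  · intro a b _ _ ha hb; rw [map_add]; exact add_mem ha hb
  · intro r a _ ha
    rw [smul_eq_mul, map_mul]
    exact Submodule.smul_mem _ _ ha

/-- Coset decomposition of the group ring. -/
noncomputable def cosetMap (ι : H →* G) (r : G →* H) : ZG G →+ (G →₀ ZG H) :=
  addLift (fun g => Finsupp.single (g * (ι (r g))⁻¹) (el (r g)))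

lemma cosetMap_mul (ι : H →* G) (r : G →* H) (hr : ∀ h, r (ι h) = h) (s : ZG G) (a : ZG H)
    (x : G) : cosetMap ι r (s * zmap ι a) x = cosetMap ι r s x * a := by
  classical
  induction s using zg_induction with
  | zero => simp
  | el g =>
    induction a using zg_induction with
    | zero => simp
    | el h =>
      rw [zmap_el, ← el_mul, cosetMap, addLift_el, addLift_el]
      have h1 : g * ι h * (ι (r (g * ι h)))⁻¹ = g * (ι (r g))⁻¹ := by
        rw [map_mul r, hr, map_mul ι]; group
      rw [h1, map_mul r, hr, el_mul, Finsupp.single_apply, Finsupp.single_apply]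
      split_ifs <;> simp
    | add a b ha hb => rw [map_add, mul_add, map_add, Finsupp.add_apply, ha, hb, mul_add]
    | neg a ha => rw [map_neg, mul_neg, map_neg, Finsupp.neg_apply, ha, mul_neg]
  | add a b ha hb =>
    rw [add_mul, map_add, map_add, Finsupp.add_apply, Finsupp.add_apply, ha, hb, add_mul]
  | neg a ha => rw [neg_mul, map_neg, map_neg, Finsupp.neg_apply, Finsupp.neg_apply, ha, neg_mul]

lemma cosetMap_sum (ι : H →* G) (r : G →* H) (s : ZG G) :
    (cosetMap ι r s).sum (fun x y => el x * zmap ι y) = s := by
  classical
  let rec' : (G →₀ ZG H) →+ ZG G :=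
    Finsupp.liftAddHom (fun x => (AddMonoidHom.mulLeft (el x)).comp (zmap ι).toAddMonoidHom)
  have h1 : rec'.comp (cosetMap ι r) = AddMonoidHom.id _ := by
    apply addHom_ext_el
    intro g
    simp only [AddMonoidHom.comp_apply, cosetMap, addLift_el, rec', Finsupp.liftAddHom_apply_single,
      AddMonoidHom.id_apply]
    show el (g * (ι (r g))⁻¹) * zmap ι (el (r g)) = el g
    rw [zmap_el, ← el_mul]; simp
  exact DFunLike.congr_fun h1 s

/-- Induced modules of the augmentation ideal of a retract are finitely presented. -/
theorem J_range_fp (ι : H →* G) (r : G →* H) (hr : ∀ h, r (ι h) = h)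
    (h : Module.FinitePresentation (ZG H) (IG H)) :
    Module.FinitePresentation (ZG G) (J (Set.range ι)) := by
  classical
  obtain ⟨n, m, f, g, hf, hg⟩ := Module.FinitePresentation.exists_fin' (ZG H) (IG H)
  let a : Fin n → ZG H := fun i => (f (Pi.single i 1) : ZG H)
  have hfa : ∀ v, (f v : ZG H) = ∑ i, v i * a i := by
    intro v
    conv_lhs => rw [pi_eq_sum_univ' v]
    rw [map_sum, Submodule.coe_sum]
    refine Finset.sum_congr rfl fun i _ => ?_
    rw [map_smul, Submodule.coe_smul, smul_eq_mul]
  let b : Fin m → Fin n → ZG H := fun j => g (Pi.single j 1)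
  have hgb : ∀ w i, g w i = ∑ j, w j * b j i := by
    intro w i
    conv_lhs => rw [pi_eq_sum_univ' w]
    rw [map_sum, Finset.sum_apply]
    refine Finset.sum_congr rfl fun j _ => ?_
    rw [map_smul, Pi.smul_apply, smul_eq_mul]
  let f' : (Fin n → ZG G) →ₗ[ZG G] J (Set.range ι) :=
    { toFun := fun s => ⟨∑ i, s i * zmap ι (a i), sum_mem fun i _ =>
        Submodule.smul_mem _ _ (zmap_mem_J ι (f (Pi.single i 1)).2)⟩
      map_add' := fun x y => by
        apply Subtype.ext
        simp only [Pi.add_apply, add_mul, Finset.sum_add_distrib, Submodule.coe_add]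
      map_smul' := fun r x => by
        apply Subtype.ext
        simp only [Pi.smul_apply, smul_eq_mul, mul_assoc, Submodule.coe_smul, RingHom.id_apply,
          Finset.mul_sum] }
  let g' : (Fin m → ZG G) →ₗ[ZG G] (Fin n → ZG G) :=
    { toFun := fun s i => ∑ j, s j * zmap ι (b j i)
      map_add' := fun x y => by
        funext i
        simp only [Pi.add_apply, add_mul, Finset.sum_add_distrib]
      map_smul' := fun r x => by
        funext i
        simp only [Pi.smul_apply, smul_eq_mul, mul_assoc, RingHom.id_apply, Finset.mul_sum] }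
  have hf' : ∀ s, (f' s : ZG G) = ∑ i, s i * zmap ι (a i) := fun s => rfl
  have hg' : ∀ s i, g' s i = ∑ j, s j * zmap ι (b j i) := fun s i => rfl
  refine Module.finitePresentation_of_surjective f' ?_ ?_
  · have h1 : J (Set.range ι) ≤ LinearMap.range ((Submodule.subtype _) ∘ₗ f') := by
      refine Submodule.span_le.2 ?_
      rintro _ ⟨_, ⟨k, rfl⟩, rfl⟩
      obtain ⟨v, hv⟩ := hf ⟨el k - 1, sub_one_mem_J (Set.mem_univ _)⟩
      refine ⟨fun i => zmap ι (v i), ?_⟩
      show ∑ i, zmap ι (v i) * zmap ι (a i) = el (ι k) - 1
      have h2 := hfa v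
      rw [hv] at h2
      have h3 := congrArg (zmap ι) h2
      rw [map_sum] at h3
      simp only [map_mul, map_sub, zmap_el, map_one] at h3
      exact h3.symm
    rintro ⟨x, hx⟩
    obtain ⟨y, hy⟩ := h1 hx
    exact ⟨y, Subtype.ext hy⟩
  · have h1 : LinearMap.ker f' = LinearMap.range g' := by
      apply le_antisymm
      · intro s hs
        have hs' : ∑ i, s i * zmap ι (a i) = 0 := by
          rw [← hf', LinearMap.mem_ker.1 hs]; rfl
        have h2 : ∀ x : G, ∃ w : Fin m → ZG H, g w = fun i => cosetMap ι r (s i) x := by
          intro x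
          have h3 : f (fun i => cosetMap ι r (s i) x) = 0 := by
            apply Subtype.ext
            rw [hfa]
            have h4 := congrArg (fun t => cosetMap ι r t x) hs'
            simp only [map_sum, map_zero, Finsupp.coe_zero, Pi.zero_apply,
              Finsupp.finsetSum_apply] at h4
            simp only [cosetMap_mul ι r hr] at h4
            exact h4
          exact (hg _).1 h3
        choose w hw using h2
        let U : Finset G := Finset.univ.biUnion (fun i => (cosetMap ι r (s i)).support)
        refine ⟨∑ x ∈ U, el x • (fun j => zmap ι (w x j)), ?_⟩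
        rw [map_sum]
        funext i
        rw [Finset.sum_apply]
        have h5 : ∀ x, (g' (el x • fun j => zmap ι (w x j))) i =
            el x * zmap ι (cosetMap ι r (s i) x) := by
          intro x
          rw [map_smul, Pi.smul_apply, hg', smul_eq_mul]
          congr 1
          have h6 := congrFun (hw x) i
          rw [← h6, hgb, map_sum]
          simp only [map_mul]
        simp only [h5]
        conv_rhs => rw [← cosetMap_sum ι r (s i)]
        symm
        refine Finsupp.sum_of_support_subset _ ?_ _ ?_
        · intro x hx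
          exact Finset.mem_biUnion.2 ⟨i, Finset.mem_univ _, hx⟩
        · intro x _; simp
      · rintro _ ⟨s, rfl⟩
        rw [LinearMap.mem_ker]
        apply Subtype.ext
        rw [hf']
        simp only [hg']
        simp only [Finset.sum_mul]
        rw [Finset.sum_comm]
        show _ = (0 : ZG G)
        refine Finset.sum_eq_zero fun j _ => ?_
        have h2 : f (b j) = 0 := (hg _).2 ⟨_, rfl⟩
        have h3 := hfa (b j)
        rw [h2] at h3
        have h4 := congrArg (zmap ι) h3
        rw [map_sum] at h4
        simp only [map_mul] at h4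
        have h5 : zmap ι ((0 : IG H) : ZG H) = 0 := by simp
        rw [h5] at h4
        simp only [mul_assoc]
        rw [← Finset.mul_sum, ← h4, mul_zero]
    rw [h1]
    exact Submodule.FG.of_finite

end

end Pool.Agent.helper4
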