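import Mathlib

/-!
The three-step complexes attached to a complete bipartite graph with coned-off squares.
-/

namespace Pool.Agent.helper4

set_option linter.unusedSectionVars false
set_option linter.unusedSimpArgs false

section

variable {X Y Z R : Type} [Fintype X] [Fintype Y] [Fintype Z] [DecidableEq X] [DecidableEq Y]
  [DecidableEq Z] [Ring R] (A : Z → Fin 2 → X) (B : Z → Fin 2 → Y)
  (fx : X → R) (fy : Y → R) (fc : Z → R)

/-- Vertices. -/
abbrev W1 (X Y Z : Type) : Type := X ⊕ (Y ⊕ Z)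
/-- Edges. -/
abbrev W2 (X Y Z : Type) : Type := (X × Y) ⊕ ((Z × Fin 2) ⊕ (Z × Fin 2))
/-- Triangles. -/
abbrev W3 (Z : Type) : Type := Z × Fin 2 × Fin 2

/-- Boundary of a triangle. -/
def bd3 (σ : W3 Z) : W2 X Y Z → R :=
  Pi.single (Sum.inr (Sum.inr (σ.1, σ.2.2))) (fx (A σ.1 σ.2.1))
    - Pi.single (Sum.inr (Sum.inl (σ.1, σ.2.1))) (fy (B σ.1 σ.2.2))
    + Pi.single (Sum.inl (A σ.1 σ.2.1, B σ.1 σ.2.2)) (fc σ.1)

/-- Boundary of an edge. -/
def bd2 : W2 X Y Z → W1 X Y Z → R
  | Sum.inl (a, b) => Pi.single (Sum.inr (Sum.inl b)) (fx a) - Pi.single (Sum.inl a) (fy b)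
  | Sum.inr (Sum.inl (i, s)) =>
      Pi.single (Sum.inr (Sum.inr i)) (fx (A i s)) - Pi.single (Sum.inl (A i s)) (fc i)
  | Sum.inr (Sum.inr (i, t)) =>
      Pi.single (Sum.inr (Sum.inr i)) (fy (B i t)) - Pi.single (Sum.inr (Sum.inl (B i t))) (fc i)

/-- Boundary of a vertex. -/
def bd1 : W1 X Y Z → R
  | Sum.inl a => fx a
  | Sum.inr (Sum.inl b) => fy b
  | Sum.inr (Sum.inr i) => fc i

/-- Third differential. -/
def T3 : (W3 Z → R) →ₗ[R] (W2 X Y Z → R) := Fintype.linearCombination R (bd3 A B fx fy fc)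
/-- Second differential. -/
def T2 : (W2 X Y Z → R) →ₗ[R] (W1 X Y Z → R) := Fintype.linearCombination R (bd2 A B fx fy fc)
/-- First differential. -/
def T1 : (W1 X Y Z → R) →ₗ[R] R := Fintype.linearCombination R (bd1 fx fy fc)

lemma T2_single (w : W2 X Y Z) (r : R) :
    T2 A B fx fy fc (Pi.single w r) = r • bd2 A B fx fy fc w := by
  simp [T2, Fintype.linearCombination_apply_single]

lemma T1_single (w : W1 X Y Z) (r : R) :
    T1 fx fy fc (Pi.single w r) = r * bd1 fx fy fc w := by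
  simp [T1, Fintype.linearCombination_apply_single]

/-- Commutation hypotheses. -/
structure Comm : Prop where
  xy : ∀ a b, fx a * fy b = fy b * fx a
  xc : ∀ i s, fx (A i s) * fc i = fc i * fx (A i s)
  yc : ∀ i t, fy (B i t) * fc i = fc i * fy (B i t)

variable {fx fy fc A B}

lemma T2_T3 (h : Comm A B fx fy fc) (η : W3 Z → R) :
    T2 A B fx fy fc (T3 A B fx fy fc η) = 0 := by
  rw [T3, Fintype.linearCombination_apply, map_sum]
  refine Finset.sum_eq_zero fun σ _ => ?_
  obtain ⟨i, s, t⟩ := σ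
  rw [map_smul, bd3, map_add, map_sub, T2_single, T2_single, T2_single]
  simp only [bd2, smul_sub, ← Pi.single_smul, smul_eq_mul, h.xy, h.xc, h.yc]
  convert smul_zero (η (i, s, t)) using 2
  abel

lemma T1_T2 (h : Comm A B fx fy fc) (ξ : W2 X Y Z → R) :
    T1 fx fy fc (T2 A B fx fy fc ξ) = 0 := by
  rw [T2, Fintype.linearCombination_apply, map_sum]
  refine Finset.sum_eq_zero fun σ _ => ?_
  rw [map_smul]
  rcases σ with ⟨a, b⟩ | ⟨i, s⟩ | ⟨i, t⟩
  · simp only [bd2, map_sub, T1_single, bd1, h.xy, sub_self, smul_zero]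
  · simp only [bd2, map_sub, T1_single, bd1, h.xc, sub_self, smul_zero]
  · simp only [bd2, map_sub, T1_single, bd1, h.yc, sub_self, smul_zero]

variable (fx fy fc A B)

lemma T3_ab (η : W3 Z → R) (a : X) (b : Y) :
    T3 A B fx fy fc η (Sum.inl (a, b)) =
      ∑ i, ∑ s, ∑ t, if A i s = a ∧ B i t = b then η (i, s, t) * fc i else 0 := by
  rw [T3, Fintype.linearCombination_apply, Finset.sum_apply, Fintype.sum_prod_type]
  refine Finset.sum_congr rfl fun i _ => ?_
  rw [Fintype.sum_prod_type]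
  refine Finset.sum_congr rfl fun s _ => Finset.sum_congr rfl fun t _ => ?_
  simp only [bd3, Pi.smul_apply, Pi.add_apply, Pi.sub_apply, Pi.single_apply, Sum.inl.injEq,
    reduceCtorEq, if_false, sub_self, zero_add, smul_eq_mul, mul_ite, mul_zero, Prod.mk.injEq]
  simp only [eq_comm]

lemma T3_q (η : W3 Z → R) (i : Z) (s : Fin 2) :
    T3 A B fx fy fc η (Sum.inr (Sum.inl (i, s))) = -∑ t, η (i, s, t) * fy (B i t) := by
  rw [T3, Fintype.linearCombination_apply, Finset.sum_apply, Fintype.sum_prod_type]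
  rw [Finset.sum_eq_single i, Fintype.sum_prod_type, Finset.sum_eq_single s]
  · rw [← Finset.sum_neg_distrib]
    refine Finset.sum_congr rfl fun t _ => ?_
    simp [bd3, Pi.single_apply]
  · intro s' _ hs'
    refine Finset.sum_eq_zero fun t _ => ?_
    simp [bd3, Pi.single_apply, Ne.symm hs']
  · simp
  · intro i' _ hi'
    refine Finset.sum_eq_zero fun t _ => ?_
    simp [bd3, Pi.single_apply, Ne.symm hi']
  · simp

lemma T3_r (η : W3 Z → R) (i : Z) (t : Fin 2) :
    T3 A B fx fy fc η (Sum.inr (Sum.inr (i, t))) = ∑ s, η (i, s, t) * fx (A i s) := by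
  rw [T3, Fintype.linearCombination_apply, Finset.sum_apply, Fintype.sum_prod_type]
  rw [Finset.sum_eq_single i, Fintype.sum_prod_type]
  · refine Finset.sum_congr rfl fun s _ => ?_
    rw [Finset.sum_eq_single t]
    · simp [bd3, Pi.single_apply]
    · intro t' _ ht'
      simp [bd3, Pi.single_apply, Ne.symm ht']
    · simp
  · intro i' _ hi'
    refine Finset.sum_eq_zero fun t _ => ?_
    simp [bd3, Pi.single_apply, Ne.symm hi']
  · simp

lemma T2_i (ξ : W2 X Y Z → R) (i : Z) :
    T2 A B fx fy fc ξ (Sum.inr (Sum.inr i)) =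
      ∑ s, ξ (Sum.inr (Sum.inl (i, s))) * fx (A i s) +
      ∑ t, ξ (Sum.inr (Sum.inr (i, t))) * fy (B i t) := by
  rw [T2, Fintype.linearCombination_apply, Finset.sum_apply, Fintype.sum_sum_type,
    Fintype.sum_sum_type]
  have h1 : ∑ x : X × Y, (ξ (Sum.inl x) • bd2 A B fx fy fc (Sum.inl x)) (Sum.inr (Sum.inr i)) =
      0 := by
    refine Finset.sum_eq_zero fun x _ => ?_
    simp [bd2, Pi.single_apply]
  rw [h1, zero_add]
  congr 1
  · rw [Fintype.sum_prod_type, Finset.sum_eq_single i]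
    · refine Finset.sum_congr rfl fun s _ => ?_
      simp [bd2, Pi.single_apply]
    · intro i' _ hi'
      refine Finset.sum_eq_zero fun t _ => ?_
      simp [bd2, Pi.single_apply, Ne.symm hi']
    · simp
  · rw [Fintype.sum_prod_type, Finset.sum_eq_single i]
    · refine Finset.sum_congr rfl fun s _ => ?_
      simp [bd2, Pi.single_apply]
    · intro i' _ hi'
      refine Finset.sum_eq_zero fun t _ => ?_
      simp [bd2, Pi.single_apply, Ne.symm hi']
    · simp

lemma T2_a (ξ : W2 X Y Z → R) (a : X) :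
    T2 A B fx fy fc ξ (Sum.inl a) =
      - ∑ b, ξ (Sum.inl (a, b)) * fy b -
      ∑ i, ∑ s, if A i s = a then ξ (Sum.inr (Sum.inl (i, s))) * fc i else 0 := by
  rw [T2, Fintype.linearCombination_apply, Finset.sum_apply, Fintype.sum_sum_type,
    Fintype.sum_sum_type]
  have h1 : ∑ x : Z × Fin 2, (ξ (Sum.inr (Sum.inr x)) •
      bd2 A B fx fy fc (Sum.inr (Sum.inr x))) (Sum.inl a) = 0 := by
    refine Finset.sum_eq_zero fun x _ => ?_
    simp [bd2, Pi.single_apply]
  rw [h1, add_zero, sub_eq_add_neg]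
  congr 1
  · rw [Fintype.sum_prod_type, Finset.sum_eq_single a]
    · rw [← Finset.sum_neg_distrib]
      refine Finset.sum_congr rfl fun s _ => ?_
      simp [bd2, Pi.single_apply]
    · intro i' _ hi'
      refine Finset.sum_eq_zero fun t _ => ?_
      simp [bd2, Pi.single_apply, Ne.symm hi']
    · simp
  · rw [Fintype.sum_prod_type, ← Finset.sum_neg_distrib]
    refine Finset.sum_congr rfl fun i _ => ?_
    rw [← Finset.sum_neg_distrib]
    refine Finset.sum_congr rfl fun s _ => ?_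
    by_cases h : A i s = a
    · subst h; simp [bd2, Pi.single_apply]
    · simp [bd2, Pi.single_apply, h, Ne.symm h]

lemma T2_b (ξ : W2 X Y Z → R) (b : Y) :
    T2 A B fx fy fc ξ (Sum.inr (Sum.inl b)) =
      ∑ a, ξ (Sum.inl (a, b)) * fx a -
      ∑ i, ∑ t, if B i t = b then ξ (Sum.inr (Sum.inr (i, t))) * fc i else 0 := by
  rw [T2, Fintype.linearCombination_apply, Finset.sum_apply, Fintype.sum_sum_type,
    Fintype.sum_sum_type]
  have h1 : ∑ x : Z × Fin 2, (ξ (Sum.inr (Sum.inl x)) •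
      bd2 A B fx fy fc (Sum.inr (Sum.inl x))) (Sum.inr (Sum.inl b)) = 0 := by
    refine Finset.sum_eq_zero fun x _ => ?_
    simp [bd2, Pi.single_apply]
  rw [h1, zero_add, sub_eq_add_neg]
  congr 1
  · rw [Fintype.sum_prod_type]
    refine Finset.sum_congr rfl fun a _ => ?_
    rw [Finset.sum_eq_single b]
    · simp [bd2, Pi.single_apply]
    · intro i' _ hi'
      simp [bd2, Pi.single_apply, Ne.symm hi']
    · simp
  · rw [Fintype.sum_prod_type, ← Finset.sum_neg_distrib]
    refine Finset.sum_congr rfl fun i _ => ?_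
    rw [← Finset.sum_neg_distrib]
    refine Finset.sum_congr rfl fun s _ => ?_
    by_cases h : B i s = b
    · subst h; simp [bd2, Pi.single_apply]
    · simp [bd2, Pi.single_apply, h, Ne.symm h]

lemma T1_apply (ξ : W1 X Y Z → R) :
    T1 fx fy fc ξ = ∑ a, ξ (Sum.inl a) * fx a + (∑ b, ξ (Sum.inr (Sum.inl b)) * fy b +
      ∑ i, ξ (Sum.inr (Sum.inr i)) * fc i) := by
  rw [T1, Fintype.linearCombination_apply, Fintype.sum_sum_type, Fintype.sum_sum_type]
  rfl

end

end Pool.Agent.helper4
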