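import Pool.Agent.helper4.FPHelpers

/-!
Finite presentation of the augmentation ideal from a decomposition.
-/

namespace Pool.Agent.helper4

open CategoryTheory

section

variable {G T : Type} [Group G] [Fintype T] [DecidableEq T]

lemma J_mul_sub_one_mem {K H : Set G} (hKH : K ⊆ H) (t : G) (hcomm : ∀ k ∈ K, t * k = k * t)
    {x : ZG G} (hx : x ∈ J K) : x * (el t - 1) ∈ J H := by
  refine Submodule.span_induction (p := fun x _ => x * (el t - 1) ∈ J H) ?_ ?_ ?_ ?_ hx
  · rintro _ ⟨k, hk, rfl⟩
    have : (el k - 1) * (el t - 1) = (el t - 1) • (el k - 1 : ZG G) := by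
      simp only [smul_eq_mul, mul_sub, sub_mul, mul_one, one_mul, ← el_mul, hcomm k hk]
      abel
    show (el k - 1) * (el t - 1) ∈ J H
    rw [this]
    exact Submodule.smul_mem _ _ (sub_one_mem_J (hKH hk))
  · rw [zero_mul]; exact zero_mem _
  · intro a b _ _ ha hb; rw [add_mul]; exact add_mem ha hb
  · intro r a _ ha
    rw [smul_eq_mul, mul_assoc]
    exact Submodule.smul_mem _ r ha

/-- Finite presentation of the augmentation ideal from a decomposition of the group. -/
theorem IG_fp_of_decomp
    (H : Subgroup G) (K : T → Subgroup G) (t : T → G)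
    (hgen : Subgroup.closure ((H : Set G) ∪ Set.range t) = ⊤)
    (hKH : ∀ j, K j ≤ H) (hK : ∀ j, (K j).FG)
    (hcomm : ∀ j, ∀ k ∈ K j, t j * k = k * t j)
    {A : T → Type} [∀ j, AddCommGroup (A j)]
    (D : ∀ j, ZG G →+ A j) (ε : ∀ j, ZG G →+ A j)
    (hD : ∀ j g, ∀ h ∈ H, D j (el (g * h)) = D j (el g))
    (hDt : ∀ j i g, D j (el (g * t i)) = D j (el g) + if i = j then ε j (el g) else 0)
    (hε : ∀ j x, ε j x = 0 → x ∈ J (K j : Set G))
    (hJ : Module.FinitePresentation (ZG G) (J (H : Set G))) :
    Module.FinitePresentation (ZG G) (IG G) := by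
  classical
  let Ψ₀ : (J (H : Set G)) × (T → ZG G) →ₗ[ZG G] ZG G :=
    { toFun := fun z => (z.1 : ZG G) + ∑ j, z.2 j * (el (t j) - 1)
      map_add' := fun z w => by
        simp only [Prod.fst_add, Prod.snd_add, Pi.add_apply, add_mul, Finset.sum_add_distrib,
          Submodule.coe_add]
        abel
      map_smul' := fun r z => by
        simp only [Prod.smul_fst, Prod.smul_snd, Pi.smul_apply, smul_eq_mul, Submodule.coe_smul,
          RingHom.id_apply, mul_add, Finset.mul_sum, mul_assoc] }
  have hΨ₀ : ∀ z, Ψ₀ z = (z.1 : ZG G) + ∑ j, z.2 j * (el (t j) - 1) := fun z => rfl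
  have hrange : LinearMap.range Ψ₀ = IG G := by
    apply le_antisymm
    · rintro _ ⟨z, rfl⟩
      rw [hΨ₀]
      refine add_mem (J_mono (Set.subset_univ _) z.1.2) (sum_mem fun j _ => ?_)
      exact Submodule.smul_mem _ (z.2 j) (sub_one_mem_J (Set.mem_univ _))
    · have h1 : IG G = J ((H : Set G) ∪ Set.range t) := by
        rw [← J_closure, hgen]; rfl
      rw [h1]
      refine Submodule.span_le.2 ?_
      rintro _ ⟨k, hk, rfl⟩
      rcases hk with hk | ⟨j, rfl⟩
      · refine ⟨(⟨el k - 1, sub_one_mem_J hk⟩, 0), ?_⟩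
        rw [hΨ₀]; simp
      · refine ⟨(0, Pi.single j 1), ?_⟩
        rw [hΨ₀]
        simp only [ZeroMemClass.coe_zero, zero_add]
        rw [Finset.sum_eq_single j]
        · simp
        · intro i _ hij; rw [Pi.single_eq_of_ne hij, zero_mul]
        · simp
  -- the derivation property
  have hDr : ∀ j i (r : ZG G), D j (r * (el (t i) - 1)) = if i = j then ε j r else 0 := by
    intro j i r
    induction r using zg_induction with
    | zero => simp
    | el g =>
      rw [mul_sub, mul_one, ← el_mul, map_sub, hDt]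
      simp
    | add a b ha hb =>
      rw [add_mul, map_add, ha, hb]
      split_ifs
      · rw [map_add]
      · simp
    | neg a ha =>
      rw [neg_mul, map_neg, ha]
      split_ifs
      · rw [map_neg]
      · simp
  have hDΨ : ∀ j z, D j (Ψ₀ z) = ε j (z.2 j) := by
    intro j z
    rw [hΨ₀, map_add, map_J_eq_zero (D j) (K := (H : Set G)) (fun g k hk => hD j g k hk) z.1.2,
      zero_add, map_sum, Finset.sum_eq_single j]
    · rw [hDr, if_pos rfl]
    · intro i _ hij; rw [hDr, if_neg hij]
    · simp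
  -- the kernel
  let κ : ∀ j, J (K j : Set G) →ₗ[ZG G] J (H : Set G) := fun j =>
    { toFun := fun x => ⟨(x : ZG G) * (el (t j) - 1),
        J_mul_sub_one_mem (fun k hk => hKH j hk) (t j) (fun k hk => hcomm j k hk) x.2⟩
      map_add' := fun x y => by
        apply Subtype.ext
        simp only [Submodule.coe_add, add_mul]
      map_smul' := fun r x => by
        apply Subtype.ext
        simp only [Submodule.coe_smul, smul_eq_mul, RingHom.id_apply, mul_assoc] }
  let Λ : (∀ j, J (K j : Set G)) →ₗ[ZG G] (J (H : Set G)) × (T → ZG G) :=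
    { toFun := fun r => (-∑ j, κ j (r j), fun j => (r j : ZG G))
      map_add' := fun x y => by
        refine Prod.ext ?_ ?_
        · simp only [Pi.add_apply, map_add, Finset.sum_add_distrib, neg_add, Prod.fst_add]
        · funext j
          simp
      map_smul' := fun r x => by
        refine Prod.ext ?_ ?_
        · simp only [Pi.smul_apply, map_smul, ← Finset.smul_sum, RingHom.id_apply,
            Prod.smul_fst, smul_neg]
        · funext j
          simp }
  have hker : LinearMap.ker Ψ₀ = LinearMap.range Λ := by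
    apply le_antisymm
    · intro z hz
      have hz' : Ψ₀ z = 0 := hz
      have h1 : ∀ j, z.2 j ∈ J (K j : Set G) := fun j => hε j _ (by rw [← hDΨ, hz', map_zero])
      refine ⟨fun j => ⟨z.2 j, h1 j⟩, ?_⟩
      refine Prod.ext ?_ rfl
      apply Subtype.ext
      show ((-∑ j, κ j ⟨z.2 j, h1 j⟩ : J (H : Set G)) : ZG G) = z.1
      rw [Submodule.coe_neg, Submodule.coe_sum]
      rw [hΨ₀] at hz'
      exact (eq_neg_of_add_eq_zero_left hz').symm
    · rintro _ ⟨r, rfl⟩
      show Ψ₀ (Λ r) = 0
      rw [hΨ₀]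
      show ((-∑ j, κ j (r j) : J (H : Set G)) : ZG G) + ∑ j, (r j : ZG G) * (el (t j) - 1) = 0
      rw [Submodule.coe_neg, Submodule.coe_sum]
      exact neg_add_cancel _
  have hfin : ∀ j, Module.Finite (ZG G) (J (K j : Set G)) := fun j =>
    Module.Finite.iff_fg.2 (J_fg_of_fg _ (hK j))
  let Ψ : (J (H : Set G)) × (T → ZG G) →ₗ[ZG G] IG G :=
    Ψ₀.codRestrict _ (fun z => hrange ▸ ⟨z, rfl⟩)
  refine Module.finitePresentation_of_surjective Ψ ?_ ?_
  · rintro ⟨x, hx⟩
    rw [← hrange] at hx
    obtain ⟨y, hy⟩ := hx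
    exact ⟨y, Subtype.ext hy⟩
  · rw [LinearMap.ker_codRestrict, hker]
    exact Submodule.FG.of_finite

end

end Pool.Agent.helper4
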