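import Pool.Agent.helper4.BaseChange

/-!
Derivations with values in permutation modules, and the converse decomposition lemma.
-/

namespace Pool.Agent.helper4

open CategoryTheory

section

variable {G : Type} [Group G]

/-- The permutation action on finitely supported integral functions. -/
noncomputable def permAct (G Y : Type) [Group G] [MulAction G Y] :
    G →* AddMonoid.End (Y →₀ ℤ) where
  toFun g := Finsupp.mapDomain.addMonoidHom (fun y => g • y)
  map_one' := by
    refine Finsupp.addHom_ext fun y n => ?_
    show Finsupp.mapDomain (fun y => (1 : G) • y) (Finsupp.single y n) = Finsupp.single y n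
    rw [Finsupp.mapDomain_single, one_smul]
  map_mul' g h := by
    refine Finsupp.addHom_ext fun y n => ?_
    show Finsupp.mapDomain (fun y => (g * h) • y) (Finsupp.single y n) =
      Finsupp.mapDomain (fun y => g • y) (Finsupp.mapDomain (fun y => h • y) (Finsupp.single y n))
    rw [Finsupp.mapDomain_single, Finsupp.mapDomain_single, Finsupp.mapDomain_single, mul_smul]

@[simp] lemma permAct_single {Y : Type} [MulAction G Y] (g : G) (y : Y) (n : ℤ) :
    permAct G Y g (Finsupp.single y n) = Finsupp.single (g • y) n :=
  Finsupp.mapDomain_single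

/-- The converse decomposition lemma: finite presentation of the augmentation ideal forces the
associated subgroup to be finitely generated. -/
theorem fg_of_decomp {P : Type} [Group P] (V E : Subgroup P) (t : P)
    (hgen : Subgroup.closure ((V : Set P) ∪ {t}) = ⊤) (hV : V.FG) (hEV : E ≤ V)
    (hcomm : ∀ e ∈ E, t * e = e * t) {A : Type} [AddCommGroup A]
    (D ε : ZG P →+ A) (hD : ∀ g, ∀ h ∈ V, D (el (g * h)) = D (el g))
    (hDt : ∀ g, D (el (g * t)) = D (el g) + ε (el g))
    (hε : ∀ x, ε x = 0 → x ∈ J (E : Set P))
    (hIG : Module.FinitePresentation (ZG P) (IG P)) : E.FG := by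
  apply fg_of_J_fg
  let JV : Submodule (ZG P) (IG P) := (J (V : Set P)).comap (IG P).subtype
  have hJVfg : JV.FG := by
    have h1 : (J (V : Set P)).FG := J_fg_of_fg V hV
    have h2 : JV.map (IG P).subtype = J (V : Set P) := by
      rw [Submodule.map_comap_subtype]
      exact inf_eq_right.2 (J_mono (Set.subset_univ _))
    rw [← h2] at h1
    exact Submodule.fg_of_fg_map_injective _ (Submodule.injective_subtype _) h1
  have hM : Module.FinitePresentation (ZG P) (IG P ⧸ JV) := by
    refine Module.finitePresentation_of_surjective JV.mkQ (Submodule.mkQ_surjective _) ?_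
    rw [Submodule.ker_mkQ]; exact hJVfg
  let u : IG P := ⟨el t - 1, sub_one_mem_J (Set.mem_univ _)⟩
  let θ : ZG P →ₗ[ZG P] (IG P ⧸ JV) := LinearMap.toSpanSingleton _ _ (JV.mkQ u)
  have hθ : Function.Surjective θ := by
    have h1 : ∀ x ∈ IG P, ∃ r : ZG P, x - r * (el t - 1) ∈ J (V : Set P) := by
      have h2 : IG P = J ((V : Set P) ∪ {t}) := by
        rw [← J_closure, hgen]; rfl
      rw [h2]
      intro x hx
      refine Submodule.span_induction
        (p := fun x _ => ∃ r : ZG P, x - r * (el t - 1) ∈ J (V : Set P)) ?_ ?_ ?_ ?_ hx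
      · rintro _ ⟨k, hk, rfl⟩
        rcases hk with hk | hk
        · exact ⟨0, by simpa using sub_one_mem_J hk⟩
        · obtain rfl := hk
          exact ⟨1, by simp⟩
      · exact ⟨0, by simp⟩
      · rintro a b _ _ ⟨r, hr⟩ ⟨s, hs⟩
        refine ⟨r + s, ?_⟩
        have := add_mem hr hs
        convert this using 1
        rw [add_mul]; abel
      · rintro c a _ ⟨r, hr⟩
        refine ⟨c * r, ?_⟩
        have := Submodule.smul_mem _ c hr
        convert this using 1
        rw [smul_eq_mul, smul_eq_mul, mul_assoc, ← mul_sub]
    intro m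
    obtain ⟨⟨x, hx⟩, rfl⟩ := Submodule.mkQ_surjective _ m
    obtain ⟨r, hr⟩ := h1 x hx
    refine ⟨r, ?_⟩
    rw [LinearMap.toSpanSingleton_apply, ← map_smul, ← sub_eq_zero, ← map_sub]
    rw [Submodule.mkQ_apply, Submodule.Quotient.mk_eq_zero]
    show ((r • u - (⟨x, hx⟩ : IG P) : IG P) : ZG P) ∈ J (V : Set P)
    rw [← neg_mem_iff]
    convert hr using 1
    simp [u]
  have hker : LinearMap.ker θ = J (E : Set P) := by
    have h0 : ∀ r, r ∈ LinearMap.ker θ ↔ r * (el t - 1) ∈ J (V : Set P) := by
      intro r
      rw [LinearMap.mem_ker, LinearMap.toSpanSingleton_apply, ← map_smul, Submodule.mkQ_apply,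
        Submodule.Quotient.mk_eq_zero]
      rfl
    have hDr : ∀ r : ZG P, D (r * (el t - 1)) = ε r := by
      intro r
      induction r using zg_induction with
      | zero => simp
      | el g => rw [mul_sub, mul_one, ← el_mul, map_sub, hDt]; abel
      | add a b ha hb => rw [add_mul, map_add, ha, hb, map_add]
      | neg a ha => rw [neg_mul, map_neg, ha, map_neg]
    ext r
    rw [h0]
    constructor
    · intro h
      apply hε
      rw [← hDr]
      exact map_J_eq_zero D (fun g k hk => hD g k hk) h
    · intro h
      exact J_mul_sub_one_mem (fun k hk => hEV hk) t (fun k hk => hcomm k hk) h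
  rw [← hker]
  exact Module.FinitePresentation.fg_ker θ hθ

end

/-- The augmentation ideal of a free group of finite rank is finitely presented. -/
noncomputable def foxHom (X : Type) [DecidableEq X] (b : X) :
    FreeGroup X →* Aff (permAct (FreeGroup X) (FreeGroup X)) :=
  FreeGroup.lift (fun x => ⟨if x = b then Finsupp.single 1 1 else 0, FreeGroup.of x⟩)

lemma foxHom_lin (X : Type) [DecidableEq X] (b : X) (w : FreeGroup X) :
    (foxHom X b w).lin = w := by
  have : (Aff.linHom (ρ := permAct (FreeGroup X) (FreeGroup X))).comp (foxHom X b) =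
      MonoidHom.id _ := by
    ext x
    simp [foxHom]
  exact DFunLike.congr_fun this w

lemma foxHom_mul_of (X : Type) [DecidableEq X] (b : X) (w : FreeGroup X) (x : X) :
    (foxHom X b (w * FreeGroup.of x)).vec =
      (foxHom X b w).vec + if x = b then Finsupp.single w 1 else 0 := by
  rw [map_mul, Aff.mul_vec, foxHom_lin]
  congr 1
  simp only [foxHom, FreeGroup.lift_apply_of]
  split_ifs
  · simp
  · simp

end Pool.Agent.helper4
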