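import Pool.Agent.helper4.Schanuel

/-!
Helpers for type `FP_n`.
-/

namespace Pool.Agent.helper4

open CategoryTheory

lemma FPn_one_of_fp {S M : Type} [Ring S] [AddCommGroup M] [Module S M]
    (h : Module.FinitePresentation S M) : FPn S 1 M := by
  obtain ⟨m, f, hf⟩ := Module.Finite.exists_fin' S M
  refine FPn_succ f hf (FPn_zero ?_)
  exact Module.Finite.iff_fg.2 (Module.FinitePresentation.fg_ker f hf)

lemma FPn_two_of_IG_fp {G : Type} [Group G] (h : Module.FinitePresentation (ZG G) (IG G)) :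
    FPn (ZG G) 2 (Triv G) := by
  refine FPn_succ (augLin G) (augLin_surjective G) ?_
  rw [ker_augLin]
  exact FPn_one_of_fp h

lemma FPn_succ_of_exact {S : Type} [Ring S] {n : ℕ} {K P P' : Type}
    [AddCommGroup K] [Module S K] [AddCommGroup P] [Module S P] [AddCommGroup P'] [Module S P']
    [Module.Finite S P'] [Module.Projective S P']
    (f : P →ₗ[S] K) (g : P' →ₗ[S] P) (hfg : ∀ x, f x = 0 ↔ ∃ y, g y = x)
    (h : FPn S n (LinearMap.ker g)) : FPn S (n + 1) (LinearMap.ker f) := by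
  have hg : ∀ y, g y ∈ LinearMap.ker f := fun y => (hfg _).2 ⟨y, rfl⟩
  refine FPn_succ (g.codRestrict _ hg) ?_ ?_
  · rintro ⟨x, hx⟩
    obtain ⟨y, hy⟩ := (hfg x).1 hx
    exact ⟨y, Subtype.ext hy⟩
  · rw [LinearMap.ker_codRestrict]
    exact h

/-- A partial free resolution of length three gives type `FP_3`. -/
lemma FPn_three_of_exact {S : Type} [Ring S] {M P0 P1 P2 P3 : Type}
    [AddCommGroup M] [Module S M]
    [AddCommGroup P0] [Module S P0] [Module.Finite S P0] [Module.Projective S P0]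
    [AddCommGroup P1] [Module S P1] [Module.Finite S P1] [Module.Projective S P1]
    [AddCommGroup P2] [Module S P2] [Module.Finite S P2] [Module.Projective S P2]
    [AddCommGroup P3] [Module S P3] [Module.Finite S P3]
    (e : P0 →ₗ[S] M) (d1 : P1 →ₗ[S] P0) (d2 : P2 →ₗ[S] P1) (d3 : P3 →ₗ[S] P2)
    (he : Function.Surjective e) (h0 : ∀ x, e x = 0 ↔ ∃ y, d1 y = x)
    (h1 : ∀ x, d1 x = 0 ↔ ∃ y, d2 y = x) (h2 : ∀ x, d2 x = 0 ↔ ∃ y, d3 y = x) :
    FPn S 3 M := by
  refine FPn_succ e he ?_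
  refine FPn_succ_of_exact e d1 h0 ?_
  refine FPn_succ_of_exact d1 d2 h1 ?_
  refine FPn_zero ?_
  have : LinearMap.ker d2 = LinearMap.range d3 := by
    ext x
    exact h2 x
  rw [this]
  exact Module.Finite.iff_fg.2 Submodule.FG.of_finite

end Pool.Agent.helper4
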