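import Pool.Agent.helper4.WinFP

/-!
Type `FP_3` of the kernel of a character.
-/

namespace Pool.Agent.helper4

set_option linter.unusedSectionVars false
set_option linter.unusedSimpArgs false
set_option linter.unusedVariables false

section

variable {X Y Z G : Type} [Fintype X] [Fintype Y] [Fintype Z] [DecidableEq X] [DecidableEq Y]
  [DecidableEq Z] [Group G] {A : Z → Fin 2 → X} {B : Z → Fin 2 → Y} {x0 : X} {y0 : Y}
  {Λ : Z → X → Y → ℤ} {χ : G →* Multiplicative ℤ} {gx : X → G} {gy : Y → G} {gc : Z → G}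

lemma supp_of_parts {M N : Type} [AddCommGroup M] [AddCommGroup N] (g : Grading M) (g' : Grading N)
    (d0 d1 : M →+ N) (h0 : ∀ j x, g'.pr j (d0 x) = d0 (g.pr j x))
    (h1 : ∀ j x, g'.pr (j + 1) (d1 x) = d1 (g.pr j x)) (n : ℕ) (x : M) (hx : g.Supp 0 n x) :
    g'.Supp 0 (n + 1 : ℕ) (d0 x + d1 x) := by
  intro j hj
  have h2 := h1 (j - 1) x
  rw [sub_add_cancel] at h2
  rw [map_add, h0, h2, hx j (by push_cast at hj; omega), hx (j - 1) (by push_cast at hj; omega),
    map_zero, map_zero, add_zero]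

/-- Restriction of an ambient linear map to window modules. -/
noncomputable def winMap (χ : G →* Multiplicative ℤ) {W W' : Type} (n : ℕ)
    (L : (W → ZG G) →ₗ[ZG G] (W' → ZG G))
    (hL : ∀ ξ : W → ZG G, (∀ w, ξ w ∈ Win χ n) → ∀ w', L ξ w' ∈ Win χ (n + 1)) :
    (W → Win χ n) →ₗ[ZG χ.ker] (W' → Win χ (n + 1)) where
  toFun ξ w' := ⟨L (fun w => (ξ w : ZG G)) w', hL _ (fun w => (ξ w).2) w'⟩
  map_add' ξ ξ' := by
    funext w'
    apply Subtype.ext
    have h : (fun w => (((ξ + ξ') w : Win χ n) : ZG G)) =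
        (fun w => (ξ w : ZG G)) + (fun w => (ξ' w : ZG G)) := rfl
    simp only [h, map_add]
    rfl
  map_smul' s ξ := by
    funext w'
    apply Subtype.ext
    have h : (fun w => (((s • ξ) w : Win χ n) : ZG G)) =
        incK χ s • (fun w => (ξ w : ZG G)) := rfl
    simp only [h, map_smul]
    rfl

lemma winMap_apply (χ : G →* Multiplicative ℤ) {W W' : Type} (n : ℕ)
    (L : (W → ZG G) →ₗ[ZG G] (W' → ZG G)) (hL) (ξ : W → Win χ n) (w' : W') :
    ((winMap χ n L hL ξ w' : Win χ (n + 1)) : ZG G) = L (fun w => (ξ w : ZG G)) w' := rfl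

/-- Restriction of an ambient linear map to window modules, with values in one copy. -/
noncomputable def winMap1 (χ : G →* Multiplicative ℤ) {W : Type} (n : ℕ)
    (L : (W → ZG G) →ₗ[ZG G] ZG G)
    (hL : ∀ ξ : W → ZG G, (∀ w, ξ w ∈ Win χ n) → L ξ ∈ Win χ (n + 1)) :
    (W → Win χ n) →ₗ[ZG χ.ker] (Win χ (n + 1)) where
  toFun ξ := ⟨L (fun w => (ξ w : ZG G)), hL _ (fun w => (ξ w).2)⟩
  map_add' ξ ξ' := by
    apply Subtype.ext
    have h : (fun w => (((ξ + ξ') w : Win χ n) : ZG G)) =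
        (fun w => (ξ w : ZG G)) + (fun w => (ξ' w : ZG G)) := rfl
    simp only [h, map_add]
    rfl
  map_smul' s ξ := by
    apply Subtype.ext
    have h : (fun w => (((s • ξ) w : Win χ n) : ZG G)) =
        incK χ s • (fun w => (ξ w : ZG G)) := rfl
    simp only [h, map_smul]
    rfl

lemma augm_incK (χ : G →* Multiplicative ℤ) (s : ZG χ.ker) :
    augm G (incK χ s) = augm χ.ker s := by
  induction s using zg_induction with
  | zero => simp
  | el q => rw [incK_el, addLift_el, addLift_el]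
  | add a b ha hb => simp only [map_add, ha, hb]
  | neg a ha => simp only [map_neg, ha]

/-- The augmentation of a window module. -/
noncomputable def winAug (χ : G →* Multiplicative ℤ) (n : ℕ) :
    Win χ n →ₗ[ZG χ.ker] Triv χ.ker where
  toFun x := (augm G (x : ZG G) : ℤ)
  map_add' x y := map_add (augm G) _ _
  map_smul' s x := by
    show augm G (incK χ s * (x : ZG G)) = augm χ.ker s * augm G (x : ZG G)
    rw [augm_mul, augm_incK]

lemma single_eq_zsmul (n : ℤ) : (MonoidAlgebra.single (1 : G) n : ZG G) = n • el 1 := by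
  simp [el]

theorem FP3_of_exact (hcert : Cert A B x0 y0 Λ) (H : Gens A B χ gx gy gc)
    (E0 : ∀ r : ZG G, augm G r = 0 → ∃ ζ : W1 X Y Z → ZG G, D1 gx gy gc ζ = r)
    (E1 : ∀ ζ : W1 X Y Z → ZG G, D1 gx gy gc ζ = 0 → ∃ ξ, D2 A B gx gy gc ξ = ζ)
    (E2 : ∀ ξ : W2 X Y Z → ZG G, D2 A B gx gy gc ξ = 0 → ∃ η, D3 A B gx gy gc η = ξ) :
    FPn (ZG χ.ker) 3 (Triv χ.ker) := by
  have hτ : ht χ (gx x0) = 1 := H.hx x0
  have fin : ∀ n, Module.Finite (ZG χ.ker) (Win χ n) := win_finite χ (gx x0) hτ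
  have proj : ∀ n, Module.Projective (ZG χ.ker) (Win χ n) := win_projective χ (gx x0) hτ
  have free : ∀ n, Module.Free (ZG χ.ker) (Win χ n) := fun n =>
    Module.Free.of_equiv (winEquiv χ (gx x0) hτ n)
  have P2 := pushHyp2 (x0 := x0) (y0 := y0) (Λ := Λ) hcert H
  have P1 := pushHyp1 (x0 := x0) (y0 := y0) (Λ := Λ) hcert H
  have P0 := pushHyp0 (A := A) (B := B) x0 y0 H
  have s3 : ∀ x, V3 G A B x + U3 A B gx gy gc x = D3 A B gx gy gc x := fun x => by
    rw [add_comm]; exact (T3_add A B _ _ _ _ _ _ x).symm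
  have s2 : ∀ x, V2 G A B x + U2 A B gx gy gc x = D2 A B gx gy gc x := fun x => by
    rw [add_comm]; exact (T2_add A B _ _ _ _ _ _ x).symm
  have s1 : ∀ x, V1 X Y Z G x + U1 gx gy gc x = D1 gx gy gc x := fun x => by
    rw [add_comm]; exact (T1_add _ _ _ _ _ _ x).symm
  have m3 : ∀ n, ∀ ξ : W3 Z → ZG G, (∀ w, ξ w ∈ Win χ n) → ∀ w',
      D3 A B gx gy gc ξ w' ∈ Win χ (n + 1) := by
    intro n ξ hξ w'
    have h1 := supp_of_parts _ _ _ _ P2.h0 P2.h1 n ξ
      (((zgGrading χ).pi_supp (W3 Z) 0 n ξ).2 hξ)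
    have h2 := ((zgGrading χ).pi_supp _ _ _ _).1 h1 w'
    have h3 := congrFun (s3 ξ) w'
    rw [← h3]; exact h2
  have m2 : ∀ n, ∀ ξ : W2 X Y Z → ZG G, (∀ w, ξ w ∈ Win χ n) → ∀ w',
      D2 A B gx gy gc ξ w' ∈ Win χ (n + 1) := by
    intro n ξ hξ w'
    have h1 := supp_of_parts _ _ _ _ P1.h0 P1.h1 n ξ
      (((zgGrading χ).pi_supp (W2 X Y Z) 0 n ξ).2 hξ)
    have h2 := ((zgGrading χ).pi_supp _ _ _ _).1 h1 w'
    have h3 := congrFun (s2 ξ) w'
    rw [← h3]; exact h2
  have m1 : ∀ n, ∀ ξ : W1 X Y Z → ZG G, (∀ w, ξ w ∈ Win χ n) →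
      D1 gx gy gc ξ ∈ Win χ (n + 1) := by
    intro n ξ hξ
    have h1 := supp_of_parts _ _ _ _ P0.h0 P0.h1 n ξ
      (((zgGrading χ).pi_supp (W1 X Y Z) 0 n ξ).2 hξ)
    have h3 := s1 ξ
    rw [← h3]; exact h1
  refine FPn_three_of_exact (winAug χ 3) (winMap1 χ 2 (D1 gx gy gc) (m1 2))
    (winMap χ 1 (D2 A B gx gy gc) (m2 1)) (winMap χ 0 (D3 A B gx gy gc) (m3 0)) ?_ ?_ ?_ ?_
  · intro n
    refine ⟨⟨MonoidAlgebra.single 1 (show ℤ from n), ?_⟩, ?_⟩
    · intro j hj
      rw [single_eq_zsmul, map_zsmul, zgGrading_pr, prj_el, ht_one, if_neg (by push_cast at hj; omega),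
        smul_zero]
    · show (augm G (MonoidAlgebra.single 1 (show ℤ from n)) : ℤ) = n
      rw [addLift_single]
      show (show ℤ from n) * 1 = n
      rw [mul_one]
  · intro x
    constructor
    · intro hx
      obtain ⟨ζ, hζ⟩ := E0 (x : ZG G) hx
      obtain ⟨ζ', e1, e2⟩ := push P0 3 (by norm_num) ζ (by
        have h1 : (V1 X Y Z G).toAddMonoidHom ζ + (U1 gx gy gc).toAddMonoidHom ζ = (x : ZG G) :=
          (s1 ζ).trans hζ
        rw [h1]
        exact x.2)
      have e2' := ((zgGrading χ).pi_supp (W1 X Y Z) 0 _ ζ').1 e2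
      refine ⟨fun w => ⟨ζ' w, e2' w⟩, Subtype.ext ?_⟩
      show D1 gx gy gc ζ' = (x : ZG G)
      rw [← hζ, ← s1, ← s1]
      exact e1
    · rintro ⟨y, rfl⟩
      show augm G (D1 gx gy gc (fun w => (y w : ZG G))) = 0
      rw [D1, T1_apply]
      have h1 : ∀ (r : ZG G) (g : G), augm G (r * (el g + -1)) = 0 := by
        intro r g
        rw [augm_mul, map_add, map_neg, addLift_el, addLift_one]; simp
      simp only [map_add, map_sum, h1]
      simp
  · intro x
    constructor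
    · intro hx
      have hx' : D1 gx gy gc (fun w => (x w : ZG G)) = 0 := congrArg Subtype.val hx
      obtain ⟨ζ, hζ⟩ := E1 _ hx'
      obtain ⟨ζ', e1, e2⟩ := push P1 2 (by norm_num) ζ (by
        have h1 : (V2 G A B).toAddMonoidHom ζ + (U2 A B gx gy gc).toAddMonoidHom ζ =
          (fun w => (x w : ZG G)) := (s2 ζ).trans hζ
        rw [h1]
        exact ((zgGrading χ).pi_supp _ _ _ _).2 (fun w => (x w).2))
      have e2' := ((zgGrading χ).pi_supp (W2 X Y Z) 0 _ ζ').1 e2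
      refine ⟨fun w => ⟨ζ' w, e2' w⟩, ?_⟩
      funext w
      apply Subtype.ext
      show D2 A B gx gy gc ζ' w = (x w : ZG G)
      have h2 := congrFun hζ w
      rw [← h2, ← s2, ← s2]
      exact congrFun e1 w
    · rintro ⟨y, rfl⟩
      apply Subtype.ext
      show D1 gx gy gc (D2 A B gx gy gc (fun w => (y w : ZG G))) = 0
      exact T1_T2 H.comm' _
  · intro x
    constructor
    · intro hx
      have hx' : D2 A B gx gy gc (fun w => (x w : ZG G)) = 0 := by
        funext w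
        exact congrArg Subtype.val (congrFun hx w)
      obtain ⟨ζ, hζ⟩ := E2 _ hx'
      obtain ⟨ζ', e1, e2⟩ := push P2 1 (by norm_num) ζ (by
        have h1 : (V3 G A B).toAddMonoidHom ζ + (U3 A B gx gy gc).toAddMonoidHom ζ =
          (fun w => (x w : ZG G)) := (s3 ζ).trans hζ
        rw [h1]
        exact ((zgGrading χ).pi_supp _ _ _ _).2 (fun w => (x w).2))
      have e2' := ((zgGrading χ).pi_supp (W3 Z) 0 _ ζ').1 e2
      refine ⟨fun w => ⟨ζ' w, e2' w⟩, ?_⟩
      funext w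
      apply Subtype.ext
      show D3 A B gx gy gc ζ' w = (x w : ZG G)
      have h2 := congrFun hζ w
      rw [← h2, ← s3, ← s3]
      exact congrFun e1 w
    · rintro ⟨y, rfl⟩
      funext w
      apply Subtype.ext
      show D2 A B gx gy gc (D3 A B gx gy gc (fun w => (y w : ZG G))) w = 0
      rw [T2_T3 H.comm']
      rfl

end

end Pool.Agent.helper4
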