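import Pool.Agent.helper4.HNN

/-!
Type `FP_2` for free groups and for the HNN extension.
-/

namespace Pool.Agent.helper4

open CategoryTheory

lemma group_fg_of_IG_fg {G : Type} [Group G] (h : (IG G).FG) : Group.FG G := by
  have h1 : (J ((⊤ : Subgroup G) : Set G)).FG := by simpa using h
  exact ⟨fg_of_J_fg _ h1⟩

lemma fg_map {G G' : Type} [Group G] [Group G'] (f : G →* G') {H : Subgroup G} (h : H.FG) :
    (H.map f).FG := by
  classical
  obtain ⟨S, rfl⟩ := h
  refine ⟨S.image f, ?_⟩
  rw [MonoidHom.map_closure, Finset.coe_image]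

lemma IG_free_fp (X : Type) [Finite X] :
    Module.FinitePresentation (ZG (FreeGroup X)) (IG (FreeGroup X)) := by
  classical
  have := Fintype.ofFinite X
  refine IG_fp_of_decomp (T := X) ⊥ (fun _ => ⊥) (fun x => FreeGroup.of x) ?_ (fun _ => le_rfl)
    (fun _ => Subgroup.FG.bot) ?_ (A := fun _ => FreeGroup X →₀ ℤ)
    (fun b => addLift (fun w => (foxHom X b w).vec)) (fun b => addLift (fun w =>
      Finsupp.single w 1)) ?_ ?_ ?_ ?_
  · rw [eq_top_iff, ← FreeGroup.closure_range_of]
    exact Subgroup.closure_mono Set.subset_union_right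
  · intro j k hk
    rw [Subgroup.mem_bot.1 hk, mul_one, one_mul]
  · intro j g h hh
    rw [Subgroup.mem_bot.1 hh, mul_one]
  · intro j i g
    simp only [addLift_el, foxHom_mul_of]
  · intro j x hx
    refine mem_J_of_addLift_eq_zero (fun w => w) ⊥ ?_ hx
    rintro p _ rfl
    simp
  · have : J ((⊥ : Subgroup (FreeGroup X)) : Set (FreeGroup X)) = ⊥ := by
      simp [J]
    rw [this]
    infer_instance

section

variable {X Q : Type} [Group Q] (φ : FreeGroup X →* Q)

lemma IG_prod_fp [Finite X] (h : Module.FinitePresentation (ZG Q) (IG Q)) :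
    Module.FinitePresentation (ZG (Q × FreeGroup X)) (IG (Q × FreeGroup X)) := by
  classical
  have := Fintype.ofFinite X
  have hQ : Group.FG Q := group_fg_of_IG_fg (Module.Finite.iff_fg.1 inferInstance)
  have h1 := J_range_fp (MonoidHom.inl Q (FreeGroup X)) (MonoidHom.fst Q (FreeGroup X))
    (fun _ => rfl) h
  have hfg : (MonoidHom.inl Q (FreeGroup X)).range.FG :=
    (Group.fg_iff_subgroup_fg _).1 inferInstance
  refine IG_fp_of_decomp (T := X) (MonoidHom.inl Q (FreeGroup X)).range
    (fun _ => (MonoidHom.inl Q (FreeGroup X)).range) (fun x => (1, FreeGroup.of x)) ?_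
    (fun _ => le_rfl) (fun _ => hfg) ?_ (A := fun _ => FreeGroup X →₀ ℤ)
    (fun b => addLift (fun w => (foxHom X b w.2).vec)) (fun b => addLift (fun w =>
      Finsupp.single w.2 1)) ?_ ?_ ?_ ?_
  · rw [eq_top_iff]
    rintro ⟨q, w⟩ -
    have h2 : ((q, w) : Q × FreeGroup X) = (q, 1) * (MonoidHom.inr Q (FreeGroup X)) w := by simp
    rw [h2]
    refine mul_mem (Subgroup.subset_closure (Or.inl ⟨q, rfl⟩)) ?_
    refine FreeGroup.induction_on
      (C := fun w => (MonoidHom.inr Q (FreeGroup X)) w ∈ Subgroup.closure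
        (((MonoidHom.inl Q (FreeGroup X)).range : Set (Q × FreeGroup X)) ∪
          Set.range (fun x : X => ((1 : Q), FreeGroup.of x)))) w ?_ ?_ ?_ ?_
    · rw [map_one]; exact one_mem _
    · intro x
      exact Subgroup.subset_closure (Or.inr ⟨x, rfl⟩)
    · intro x hx
      rw [map_inv]; exact inv_mem hx
    · intro x y hx hy
      rw [map_mul]; exact mul_mem hx hy
  · rintro j _ ⟨q, rfl⟩
    simp
  · rintro j g _ ⟨q, rfl⟩
    rw [addLift_el, addLift_el]
    simp
  · intro j i g
    simp only [addLift_el, Prod.snd_mul, foxHom_mul_of]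
  · intro j x hx
    refine mem_J_of_addLift_eq_zero (fun w : Q × FreeGroup X => w.2) _ ?_ hx
    rintro p p' hpp
    refine ⟨p.1⁻¹ * p'.1, ?_⟩
    ext
    · simp
    · simp [hpp]
  · exact h1

/-- The HNN extension has finitely presented augmentation ideal. -/
theorem IG_GG_fp [Finite X] (h : Module.FinitePresentation (ZG Q) (IG Q)) :
    Module.FinitePresentation (ZG (GG φ)) (IG (GG φ)) := by
  classical
  have h1 := J_range_fp (gof φ) (retr φ) (retr_gof φ) (IG_prod_fp (X := X) h)
  have hfg : (DelG φ).FG :=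
    fg_map _ ((Group.fg_iff_subgroup_fg _).1 (Group.fg_range (φ.prod (MonoidHom.id _))))
  refine IG_fp_of_decomp (T := Unit) (gof φ).range (fun _ => DelG φ) (fun _ => gt φ) ?_
    ?_ (fun _ => hfg) ?_ (A := fun _ => (GG φ ⧸ DelG φ) →₀ ℤ)
    (fun _ => addLift (fun w => (derHom φ w).vec)) (fun _ => addLift (fun w : GG φ =>
      Finsupp.single (w : GG φ ⧸ DelG φ) 1)) ?_ ?_ ?_ ?_
  · rw [eq_top_iff]
    rintro g -
    induction g using HNNExtension.induction_on with
    | of x => exact Subgroup.subset_closure (Or.inl ⟨x, rfl⟩)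
    | t => exact Subgroup.subset_closure (Or.inr ⟨(), rfl⟩)
    | mul x y hx hy => exact mul_mem hx hy
    | inv x hx => exact inv_mem hx
  · intro _ x hx
    obtain ⟨w, rfl⟩ := (mem_DelG φ x).1 hx
    exact ⟨_, rfl⟩
  · intro _ x hx
    obtain ⟨w, rfl⟩ := (mem_DelG φ x).1 hx
    exact gt_comm φ w
  · rintro _ g _ ⟨h, rfl⟩
    rw [addLift_el, addLift_el, derHom_mul_gof]
  · intro _ _ g
    simp only [addLift_el, if_true, derHom_mul_gt]
  · intro _ x hx
    refine mem_J_of_addLift_eq_zero (fun w : GG φ => (w : GG φ ⧸ DelG φ)) _ ?_ hx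
    intro p p' hpp
    exact QuotientGroup.eq.1 hpp
  · exact h1

end

end Pool.Agent.helper4
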