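import Mathlib

/-!
Splicing a projective resolution with a short exact sequence, in an abelian category.
-/

namespace Pool.Agent.helper4

open CategoryTheory Category Limits

universe v u

variable {C : Type u} [Category.{v} C] [Abelian C]

/-- The augmentation map of a projective resolution, with its expected type. -/
noncomputable def piZero {K : C} (R : ProjectiveResolution K) : R.complex.X 0 ⟶ K := R.π.f 0

lemma d_comp_piZero {K : C} (R : ProjectiveResolution K) : R.complex.d 1 0 ≫ piZero R = 0 :=
  R.complex_d_comp_π_f_zero

lemma exact_piZero {K : C} (R : ProjectiveResolution K) :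
    (ShortComplex.mk _ _ (d_comp_piZero R)).Exact := R.exact₀

instance epi_piZero {K : C} (R : ProjectiveResolution K) : Epi (piZero R) :=
  inferInstanceAs (Epi (R.π.f 0))

section

variable {K P M : C} (i : K ⟶ P) (f : P ⟶ M)

/-- The spliced complex `... → R₁ → R₀ → P`. -/
noncomputable def spliceComplex (R : ProjectiveResolution K) : ChainComplex C ℕ :=
  ChainComplex.augment R.complex (piZero R ≫ i) (by
    rw [← assoc, d_comp_piZero, zero_comp])

lemma splice_exact_one [Mono i] (R : ProjectiveResolution K) (w) :
    (ShortComplex.mk (R.complex.d 1 0) (piZero R ≫ i) w).Exact := by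
  let φ : ShortComplex.mk (R.complex.d 1 0) (piZero R) (d_comp_piZero R) ⟶
      ShortComplex.mk (R.complex.d 1 0) (piZero R ≫ i) w :=
    { τ₁ := 𝟙 _
      τ₂ := 𝟙 _
      τ₃ := i }
  have : Mono φ.τ₃ := by dsimp [φ]; infer_instance
  exact (ShortComplex.exact_iff_of_epi_of_isIso_of_mono φ).1 (exact_piZero R)

lemma splice_exact_zero (w : i ≫ f = 0) (hS : (ShortComplex.mk i f w).Exact)
    (R : ProjectiveResolution K) (w') :
    (ShortComplex.mk (piZero R ≫ i) f w').Exact := by
  let φ : ShortComplex.mk (piZero R ≫ i) f w' ⟶ ShortComplex.mk i f w :=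
    { τ₁ := piZero R
      τ₂ := 𝟙 _
      τ₃ := 𝟙 _ }
  have : Epi φ.τ₁ := by dsimp [φ]; infer_instance
  exact (ShortComplex.exact_iff_of_epi_of_isIso_of_mono φ).2 hS

lemma spliceComplex_exactAt_succ [Mono i] (R : ProjectiveResolution K) (n : ℕ) :
    (spliceComplex i R).ExactAt (n + 1) := by
  rw [HomologicalComplex.exactAt_iff' _ (n + 1 + 1) (n + 1) n (by simp) (by simp)]
  match n with
  | 0 => exact splice_exact_one i R _
  | n + 1 => exact R.exact_succ n

set_option backward.defeqAttrib.useBackward true in
set_option backward.isDefEq.respectTransparency false in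
/-- The spliced projective resolution. -/
noncomputable def splice (w : i ≫ f = 0) (hS : (ShortComplex.mk i f w).ShortExact)
    [Projective P] (R : ProjectiveResolution K) : ProjectiveResolution M where
  complex := spliceComplex i R
  projective := by
    intro n
    match n with
    | 0 => show Projective P; infer_instance
    | n + 1 => show Projective (R.complex.X n); infer_instance
  π := (ChainComplex.toSingle₀Equiv _ _).symm ⟨f, by
    show (piZero R ≫ i) ≫ f = 0
    rw [assoc, w, comp_zero]⟩
  quasiIso := ⟨fun n => by
    have hm := hS.mono_f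
    have he := hS.epi_g
    cases n
    · rw [ChainComplex.quasiIsoAt₀_iff, ShortComplex.quasiIso_iff_of_zeros']
      · refine (ShortComplex.exact_and_epi_g_iff_of_iso ?_).2
          ⟨splice_exact_zero i f w hS.exact R (by rw [assoc, w, comp_zero]), he⟩
        exact ShortComplex.isoMk (Iso.refl _) (Iso.refl _) (Iso.refl _)
          (by simp [spliceComplex])
          (by
            simp only [Iso.refl_hom, Category.id_comp, Category.comp_id]
            exact (ChainComplex.toSingle₀Equiv_symm_apply_f_zero (C := spliceComplex i R)
              (X := M) f (by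
                show (piZero R ≫ i) ≫ f = 0
                rw [assoc, w, comp_zero])).symm)
      all_goals rfl
    · rw [quasiIsoAt_iff_exactAt']
      · apply spliceComplex_exactAt_succ
      · apply ChainComplex.exactAt_succ_single_obj⟩

lemma splice_X_zero (w : i ≫ f = 0) (hS : (ShortComplex.mk i f w).ShortExact)
    [Projective P] (R : ProjectiveResolution K) : (splice i f w hS R).complex.X 0 = P := rfl

lemma splice_X_succ (w : i ≫ f = 0) (hS : (ShortComplex.mk i f w).ShortExact)
    [Projective P] (R : ProjectiveResolution K) (n : ℕ) :
    (splice i f w hS R).complex.X (n + 1) = R.complex.X n := rfl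

end

end Pool.Agent.helper4
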