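import Pool.Agent.helper4.GrpRing
import Pool.Agent.helper4.Splice

/-!
Type `FP_n` for modules and projective resolutions.
-/

namespace Pool.Agent.helper4

open CategoryTheory

/-- Type `FP_n` for modules over a ring. -/
def FPn (S : Type) [Ring S] : ℕ → (M : Type) → [AddCommGroup M] → [Module S M] → Prop
  | 0, M, _, _ => Module.Finite S M
  | n + 1, M, _, _ => ∃ (P : Type) (_ : AddCommGroup P) (_ : Module S P),
      Module.Finite S P ∧ Module.Projective S P ∧
        ∃ f : P →ₗ[S] M, Function.Surjective f ∧ FPn S n (LinearMap.ker f)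

lemma FPn_zero {S : Type} [Ring S] {M : Type} [AddCommGroup M] [Module S M]
    (h : Module.Finite S M) : FPn S 0 M := h

lemma FPn_succ {S : Type} [Ring S] {n : ℕ} {M : Type} [AddCommGroup M] [Module S M]
    {P : Type} [AddCommGroup P] [Module S P] [Module.Finite S P] [Module.Projective S P]
    (f : P →ₗ[S] M) (hf : Function.Surjective f) (h : FPn S n (LinearMap.ker f)) :
    FPn S (n + 1) M := ⟨P, _, _, inferInstance, inferInstance, f, hf, h⟩

lemma FPn_of_equiv {S : Type} [Ring S] {n : ℕ} {M N : Type} [AddCommGroup M] [Module S M]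
    [AddCommGroup N] [Module S N] (e : M ≃ₗ[S] N) (h : FPn S n M) : FPn S n N := by
  cases n with
  | zero =>
    have : Module.Finite S M := h
    exact Module.Finite.equiv e
  | succ n =>
    obtain ⟨P, i1, i2, hfin, hproj, f, hf, hk⟩ := h
    refine ⟨P, i1, i2, hfin, hproj, e.toLinearMap ∘ₗ f, e.surjective.comp hf, ?_⟩
    have : LinearMap.ker (e.toLinearMap ∘ₗ f) = LinearMap.ker f := by
      ext x; simp
    rw [this]; exact hk

theorem exists_resolution_of_FPn (S : Type) [Ring S] (n : ℕ) :
    ∀ (M : Type) [AddCommGroup M] [Module S M], FPn S n M →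
      ∃ R : ProjectiveResolution (ModuleCat.of S M), ∀ k ≤ n,
        Module.Finite S (R.complex.X k) := by
  induction n with
  | zero =>
    intro M _ _ h
    have h' : Module.Finite S M := h
    obtain ⟨m, f, hf⟩ := Module.Finite.exists_fin' S M
    let R' : ProjectiveResolution (ModuleCat.of S (LinearMap.ker f)) := ProjectiveResolution.of _
    have hS := LinearMap.shortExact_shortComplexKer hf
    have : Projective (ModuleCat.of S (Fin m → S)) :=
      (IsProjective.iff_projective (R := S) (Fin m → S)).1 inferInstance
    refine ⟨splice _ _ _ hS R', ?_⟩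
    intro k hk
    obtain rfl : k = 0 := by omega
    show Module.Finite S (Fin m → S)
    infer_instance
  | succ n ih =>
    intro M _ _ h
    obtain ⟨P, i1, i2, hfin, hproj, f, hf, hk⟩ := h
    obtain ⟨R', hR'⟩ := ih _ hk
    have hS := LinearMap.shortExact_shortComplexKer hf
    have : Projective (ModuleCat.of S P) :=
      (IsProjective.iff_projective (R := S) P).1 inferInstance
    refine ⟨splice _ _ _ hS R', ?_⟩
    intro k hk
    match k with
    | 0 => show Module.Finite S P; infer_instance
    | k + 1 => exact hR' k (by omega)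

end Pool.Agent.helper4
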