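import Pool.Agent.helper4.FPTwo

/-!
The fibre product is not of type `FP_2`.
-/

namespace Pool.Agent.helper4

open CategoryTheory

section

variable {X Q : Type} [Group Q] (φ : FreeGroup X →* Q)

/-- The fibre product. -/
abbrev FP : Subgroup (GG φ × FreeGroup X) :=
  ((piOne φ).comp (MonoidHom.fst (GG φ) (FreeGroup X))).eqLocus
    (φ.comp (MonoidHom.snd (GG φ) (FreeGroup X)))

lemma mem_FP (p : GG φ × FreeGroup X) : p ∈ FP φ ↔ piOne φ p.1 = φ p.2 := Iff.rfl

/-- The vertex group of the fibre product. -/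
def vHom : FreeGroup X × FreeGroup X →* FP φ where
  toFun w := ⟨(gof φ (φ w.2, w.1), w.2), by rw [mem_FP]; simp⟩
  map_one' := by
    apply Subtype.ext
    apply Prod.ext
    · show gof φ (φ (1 : FreeGroup X), 1) = 1
      rw [map_one φ]
      exact map_one _
    · rfl
  map_mul' a b := by
    apply Subtype.ext
    apply Prod.ext
    · show gof φ (φ (a.2 * b.2), a.1 * b.1) = gof φ (φ a.2, a.1) * gof φ (φ b.2, b.1)
      rw [← map_mul, map_mul φ]
      rfl
    · rfl

/-- The stable letter in the fibre product. -/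
def tP : FP φ := ⟨(gt φ, 1), by rw [mem_FP]; simp⟩

/-- The edge group of the fibre product. -/
def EP : Subgroup (FP φ) := (DelG φ).comap ((MonoidHom.fst _ _).comp (FP φ).subtype)

lemma mem_EP (p : FP φ) : p ∈ EP φ ↔ ∃ w, gof φ (φ w, w) = p.1.1 := mem_DelG φ p.1.1

lemma closure_FP (hφ : Function.Surjective φ) :
    Subgroup.closure (((vHom φ).range : Set (FP φ)) ∪ {tP φ}) = ⊤ := by
  rw [eq_top_iff]
  rintro ⟨⟨g, f⟩, hp⟩ -
  have hp' : piOne φ g = φ f := hp
  set C := Subgroup.closure (((vHom φ).range : Set (FP φ)) ∪ {tP φ}) with hC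
  have hmul := mul_inv_mem_NN φ hφ g
  set n := g * (gof φ (piOne φ g, 1))⁻¹ with hn
  have h1 : ∀ n ∈ NN φ, ∃ h : ((n, 1) : GG φ × FreeGroup X) ∈ FP φ,
      (⟨(n, 1), h⟩ : FP φ) ∈ C := by
    intro n hn
    refine Subgroup.closure_induction (p := fun n _ => ∃ h : ((n, 1) : GG φ × FreeGroup X) ∈ FP φ,
      (⟨(n, 1), h⟩ : FP φ) ∈ C) ?_ ?_ ?_ ?_ hn
    · rintro x (⟨y, rfl⟩ | hx)
      · refine ⟨by rw [mem_FP]; simp, ?_⟩
        refine Subgroup.subset_closure (Or.inl ⟨(FreeGroup.of y, 1), ?_⟩)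
        apply Subtype.ext
        apply Prod.ext
        · show gof φ (φ (1 : FreeGroup X), FreeGroup.of y) = gof φ (1, FreeGroup.of y)
          rw [map_one φ]
        · rfl
      · rw [Set.mem_singleton_iff] at hx
        subst hx
        exact ⟨(tP φ).2, Subgroup.subset_closure (Or.inr rfl)⟩
    · exact ⟨one_mem _, one_mem _⟩
    · rintro x y _ _ ⟨hx, hx'⟩ ⟨hy, hy'⟩
      have h2 : ((x * y, 1) : GG φ × FreeGroup X) = (x, 1) * (y, 1) := by simp
      refine ⟨by rw [h2]; exact mul_mem hx hy, ?_⟩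
      convert mul_mem hx' hy' using 1
      exact Subtype.ext h2
    · rintro x _ ⟨hx, hx'⟩
      have h2 : ((x⁻¹, 1) : GG φ × FreeGroup X) = (x, 1)⁻¹ := by simp
      refine ⟨by rw [h2]; exact inv_mem hx, ?_⟩
      convert inv_mem hx' using 1
      exact Subtype.ext h2
  obtain ⟨h2, h3⟩ := h1 n hmul
  have h4 : (⟨(g, f), hp⟩ : FP φ) = ⟨(n, 1), h2⟩ * vHom φ (1, f) := by
    apply Subtype.ext
    apply Prod.ext
    · show g = n * gof φ (φ f, 1)
      rw [hn, hp']; group
    · show f = 1 * f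
      rw [one_mul]
  rw [h4]
  exact mul_mem h3 (Subgroup.subset_closure (Or.inl ⟨_, rfl⟩))

lemma EP_fg [Finite X] (hφ : Function.Surjective φ)
    (h : Module.FinitePresentation (ZG (FP φ)) (IG (FP φ))) : (EP φ).FG := by
  refine fg_of_decomp (vHom φ).range (EP φ) (tP φ) (closure_FP φ hφ)
    ((Group.fg_iff_subgroup_fg _).1 inferInstance) ?_ ?_
    (A := (GG φ ⧸ DelG φ) →₀ ℤ)
    (addLift (fun p => (derHom φ p.1.1).vec))
    (addLift (fun p => Finsupp.single ((p.1.1 : GG φ) : GG φ ⧸ DelG φ) 1)) ?_ ?_ ?_ h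
  · intro p hp
    obtain ⟨w, hw⟩ := (mem_EP φ p).1 hp
    refine ⟨(w, p.1.2), ?_⟩
    apply Subtype.ext
    apply Prod.ext
    · show gof φ (φ p.1.2, w) = p.1.1
      have h1 : piOne φ p.1.1 = φ p.1.2 := p.2
      rw [← hw, piOne_gof] at h1
      rw [← h1]; exact hw
    · rfl
  · intro p hp
    obtain ⟨w, hw⟩ := (mem_EP φ p).1 hp
    apply Subtype.ext
    apply Prod.ext
    · show gt φ * p.1.1 = p.1.1 * gt φ
      rw [← hw]; exact gt_comm φ w
    · show 1 * p.1.2 = p.1.2 * 1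
      simp
  · rintro g _ ⟨w, rfl⟩
    rw [addLift_el, addLift_el]
    exact derHom_mul_gof φ _ _
  · intro g
    rw [addLift_el, addLift_el, addLift_el]
    exact derHom_mul_gt φ _
  · intro x hx
    refine mem_J_of_addLift_eq_zero (fun p : FP φ => ((p.1.1 : GG φ) : GG φ ⧸ DelG φ)) _ ?_ hx
    intro p p' hpp
    have h1 : (p.1.1 : GG φ)⁻¹ * p'.1.1 ∈ DelG φ := (QuotientGroup.eq (s := DelG φ)).1 hpp
    exact h1

lemma normal_fg_of_fibre_fg (E : Subgroup (FreeGroup X × FreeGroup X))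
    (hE : ∀ p, p ∈ E ↔ φ p.1 = φ p.2) (hfg : E.FG) :
    ∃ S : Set (FreeGroup X), S.Finite ∧ Subgroup.normalClosure S = φ.ker := by
  classical
  obtain ⟨T, hT⟩ := hfg
  refine ⟨(fun p : FreeGroup X × FreeGroup X => p.1⁻¹ * p.2) '' (T : Set _),
    T.finite_toSet.image _, ?_⟩
  set N := Subgroup.normalClosure
    ((fun p : FreeGroup X × FreeGroup X => p.1⁻¹ * p.2) '' (T : Set _)) with hN
  apply le_antisymm
  · refine Subgroup.normalClosure_le_normal ?_
    rintro _ ⟨p, hp, rfl⟩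
    have h1 : p ∈ E := by rw [← hT]; exact Subgroup.subset_closure hp
    show φ _ = 1
    rw [map_mul, map_inv, (hE p).1 h1]; simp
  · intro k hk
    have h1 : ((1, k) : FreeGroup X × FreeGroup X) ∈ E := by
      rw [hE]; simp [MonoidHom.mem_ker.1 hk]
    let q1 : FreeGroup X × FreeGroup X →* FreeGroup X ⧸ N :=
      (QuotientGroup.mk' N).comp (MonoidHom.fst _ _)
    let q2 : FreeGroup X × FreeGroup X →* FreeGroup X ⧸ N :=
      (QuotientGroup.mk' N).comp (MonoidHom.snd _ _)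
    have h2 : E ≤ q1.eqLocus q2 := by
      rw [← hT, Subgroup.closure_le]
      intro p hp
      show ((p.1 : FreeGroup X) : FreeGroup X ⧸ N) = (p.2 : FreeGroup X)
      rw [QuotientGroup.eq]
      exact Subgroup.subset_normalClosure ⟨p, hp, rfl⟩
    have h3 : (((1 : FreeGroup X) : FreeGroup X) : FreeGroup X ⧸ N) = (k : FreeGroup X) := h2 h1
    rw [QuotientGroup.eq] at h3
    simpa using h3

/-- If the fibre product has finitely presented augmentation ideal then the kernel of `φ` is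
finitely normally generated. -/
theorem normal_fg_of_FP [Finite X] (hφ : Function.Surjective φ)
    (h : Module.FinitePresentation (ZG (FP φ)) (IG (FP φ))) :
    ∃ S : Set (FreeGroup X), S.Finite ∧ Subgroup.normalClosure S = φ.ker := by
  have h1 := EP_fg φ hφ h
  let ψ : FP φ →* FreeGroup X × FreeGroup X :=
    (((MonoidHom.snd _ _).comp (retr φ)).comp ((MonoidHom.fst _ _).comp (FP φ).subtype)).prod
      ((MonoidHom.snd _ _).comp (FP φ).subtype)
  refine normal_fg_of_fibre_fg φ ((EP φ).map ψ) ?_ (fg_map ψ h1)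
  rintro ⟨a, b⟩
  constructor
  · rintro ⟨p, hp, hpab⟩
    obtain ⟨w, hw⟩ := (mem_EP φ p).1 hp
    have h2 : (retr φ p.1.1).2 = a := congrArg Prod.fst hpab
    have h3 : p.1.2 = b := congrArg Prod.snd hpab
    rw [← hw, retr_gof] at h2
    have h4 : piOne φ p.1.1 = φ p.1.2 := p.2
    rw [← hw, piOne_gof] at h4
    show φ a = φ b
    rw [← h2, ← h3, ← h4]
  · intro hab
    have hab' : φ a = φ b := hab
    refine ⟨vHom φ (a, b), (mem_EP φ _).2 ⟨a, ?_⟩, ?_⟩
    · show gof φ (φ a, a) = gof φ (φ b, a)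
      rw [hab']
    · apply Prod.ext
      · show (retr φ (gof φ (φ b, a))).2 = a
        rw [retr_gof]
      · rfl

end

end Pool.Agent.helper4
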