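import Pool.Agent.helper4.FPThree
import Pool.Agent.helper4.Deriv

/-!
Fox derivatives on a group which retracts onto a free group.
-/

namespace Pool.Agent.helper4

set_option linter.unusedSectionVars false

section

variable {G Y : Type} [Group G] [DecidableEq Y] (ι : FreeGroup Y →* G) (r : G →* FreeGroup Y)

/-- Left multiplication on the group ring through a homomorphism. -/
noncomputable def lmulHom {H : Type} [Group H] (ι : H →* G) : H →* AddMonoid.End (ZG G) where
  toFun w := AddMonoidHom.mulLeft (el (ι w))
  map_one' := by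
    refine DFunLike.ext _ _ fun x => ?_
    show el (ι 1) * x = x
    simp
  map_mul' a b := by
    refine DFunLike.ext _ _ fun x => ?_
    show el (ι (a * b)) * x = el (ι a) * (el (ι b) * x)
    simp [mul_assoc]

@[simp] lemma lmulHom_apply {H : Type} [Group H] (ι : H →* G) (w : H) (x : ZG G) :
    lmulHom ι w x = el (ι w) * x := rfl

/-- The Fox derivation with values in the group ring of `G`. -/
noncomputable def foxD (b : Y) : FreeGroup Y →* Aff (lmulHom ι) :=
  FreeGroup.lift (fun y => ⟨if y = b then 1 else 0, FreeGroup.of y⟩)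

lemma foxD_lin (b : Y) (w : FreeGroup Y) : (foxD ι b w).lin = w := by
  have : (Aff.linHom (ρ := lmulHom ι)).comp (foxD ι b) = MonoidHom.id _ := by
    ext x
    simp [foxD]
  exact DFunLike.congr_fun this w

lemma foxD_mul_of (b : Y) (w : FreeGroup Y) (y : Y) :
    (foxD ι b (w * FreeGroup.of y)).vec =
      (foxD ι b w).vec + if y = b then el (ι w) else 0 := by
  rw [map_mul, Aff.mul_vec, foxD_lin]
  congr 1
  simp only [foxD, FreeGroup.lift_apply_of, lmulHom_apply]
  split_ifs <;> simp

lemma foxD_comm (b : Y) (x : G) (hx : ∀ w, ι w * x = x * ι w) (w : FreeGroup Y) :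
    (foxD ι b w).vec * el x = el x * (foxD ι b w).vec := by
  refine FreeGroup.induction_on
    (C := fun w => (foxD ι b w).vec * el x = el x * (foxD ι b w).vec) w ?_ ?_ ?_ ?_
  · simp
  · intro y
    simp only [foxD, FreeGroup.lift_apply_of]
    split_ifs <;> simp
  · intro y _
    rw [map_inv, Aff.inv_vec, foxD_lin, lmulHom_apply]
    simp only [foxD, FreeGroup.lift_apply_of]
    split_ifs
    · rw [mul_one, neg_mul, mul_neg, ← el_mul, ← el_mul, hx]
    · simp
  · intro u v hu hv
    rw [map_mul, Aff.mul_vec, foxD_lin, lmulHom_apply, add_mul, mul_add, hu, mul_assoc, hv,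
      ← mul_assoc, ← mul_assoc, ← el_mul, ← el_mul, hx]

/-- The extended Fox derivative. -/
noncomputable def foxG (b : Y) : ZG G →+ ZG G :=
  addLift (fun g => el (g * (ι (r g))⁻¹) * (foxD ι b (r g)).vec)

variable {ι r}

lemma foxG_mul_of (hr : ∀ w, r (ι w) = w) (b y : Y) (x : ZG G) :
    foxG ι r b (x * (el (ι (FreeGroup.of y)) + -1)) = if y = b then x else 0 := by
  induction x using zg_induction with
  | zero => simp
  | el g =>
    rw [mul_add, ← el_mul, map_add, mul_neg, mul_one, map_neg, foxG, addLift_el, addLift_el,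
      map_mul r, hr, foxD_mul_of]
    have h1 : g * ι (FreeGroup.of y) * (ι (r g * FreeGroup.of y))⁻¹ = g * (ι (r g))⁻¹ := by
      rw [map_mul]; group
    rw [h1, mul_add]
    split_ifs with h
    · rw [← el_mul, inv_mul_cancel_right]
      abel
    · simp
  | add a b ha hb =>
    rw [add_mul, map_add, ha, hb]
    split_ifs <;> simp
  | neg a ha =>
    rw [neg_mul, map_neg, ha]
    split_ifs <;> simp

lemma foxG_mul_comm (b : Y) (x : G) (hx : ∀ w, ι w * x = x * ι w) (hrx : r x = 1) (s : ZG G) :
    foxG ι r b (s * (el x + -1)) = foxG ι r b s * (el x + -1) := by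
  have key : foxG ι r b (s * el x) = foxG ι r b s * el x := by
    induction s using zg_induction with
    | zero => simp
    | el g =>
      rw [← el_mul, foxG, addLift_el, addLift_el, map_mul r, hrx, mul_one,
        mul_assoc (el (g * (ι (r g))⁻¹)), foxD_comm ι b x hx, ← mul_assoc, ← el_mul]
      congr 2
      have h1 : (ι (r g))⁻¹ * x = x * (ι (r g))⁻¹ := by
        rw [inv_mul_eq_iff_eq_mul, ← mul_assoc, hx, mul_assoc, mul_inv_cancel, mul_one]
      rw [mul_assoc, mul_assoc, h1]
    | add a b ha hb => rw [add_mul, map_add, map_add, ha, hb, add_mul]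
    | neg a ha => rw [neg_mul, map_neg, map_neg, ha, neg_mul]
  rw [mul_add, map_add, mul_neg, mul_one, map_neg, key, mul_add, mul_neg, mul_one]

end

end Pool.Agent.helper4
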