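import Mathlib

/-!
Basic facts on integral group rings, left ideals `J K` generated by `k - 1`, and derivations.
-/

namespace Pool.Agent.helper4

open MonoidAlgebra

/-- The integral group ring. -/
abbrev ZG (G : Type) : Type := MonoidAlgebra ℤ G

/-- The group element as an element of the group ring. -/
noncomputable def el {G : Type} (g : G) : ZG G := MonoidAlgebra.single g 1

section addLift

variable {G A : Type} [AddCommGroup A]

/-- Additive extension to the group ring of a function on the group. -/
noncomputable def addLift (f : G → A) : ZG G →+ A :=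
  (Finsupp.liftAddHom (fun g => zmultiplesHom A (f g))).comp
    (MonoidAlgebra.coeffAddEquiv (R := ℤ) (M := G)).toAddMonoidHom

@[simp] lemma addLift_single (f : G → A) (g : G) (n : ℤ) :
    addLift f (MonoidAlgebra.single g n) = n • f g := by
  simp [addLift]

@[simp] lemma addLift_el (f : G → A) (g : G) : addLift f (el g) = f g := by
  simp [el]

@[simp] lemma el_mul [Group G] (g h : G) : el (g * h) = el g * el h := by
  simp [el, MonoidAlgebra.single_mul_single]

@[simp] lemma el_one [Group G] : el (1 : G) = 1 := rfl

@[simp] lemma addLift_one [Group G] (f : G → A) : addLift f (1 : ZG G) = f 1 := by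
  rw [← el_one]; exact addLift_el f 1

end addLift

section

variable {G : Type} [Group G]

@[elab_as_elim]
lemma zg_induction {P : ZG G → Prop} (x : ZG G) (zero : P 0) (el : ∀ g, P (el g))
    (add : ∀ x y, P x → P y → P (x + y)) (neg : ∀ x, P x → P (-x)) : P x := by
  have h0 := zero
  have hneg := neg
  have hadd := add
  refine MonoidAlgebra.induction_on x
    (fun g => by simpa [Pool.Agent.helper4.el, MonoidAlgebra.of_apply] using el g) add ?_
  intro r x hx
  induction r with
  | zero => simpa using h0
  | succ n ih => 
    rw [add_smul, one_smul]; exact hadd _ _ ih hx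
  | pred n ih =>
    rw [sub_smul, one_smul, sub_eq_add_neg]; exact hadd _ _ ih (hneg _ hx)

lemma addHom_ext_el {A : Type} [AddCommGroup A] {f g : ZG G →+ A}
    (h : ∀ x, f (el x) = g (el x)) : f = g := by
  refine DFunLike.ext _ _ fun x => ?_
  induction x using zg_induction with
  | zero => simp
  | el g => exact h g
  | add x y hx hy => simp only [map_add, hx, hy]
  | neg x hx => simp only [map_neg, hx]

lemma el_mul_el_inv (g : G) : el g * el g⁻¹ = 1 := by rw [← el_mul]; simp
lemma el_inv_mul_el (g : G) : el g⁻¹ * el g = 1 := by rw [← el_mul]; simp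

/-- The left ideal of the group ring generated by the elements `k - 1`, `k ∈ K`. -/
noncomputable def J (K : Set G) : Submodule (ZG G) (ZG G) :=
  Submodule.span (ZG G) ((fun k => el k - 1) '' K)

lemma sub_one_mem_J {K : Set G} {k : G} (hk : k ∈ K) : el k - 1 ∈ J K :=
  Submodule.subset_span ⟨k, hk, rfl⟩

lemma J_mono {K L : Set G} (h : K ⊆ L) : J K ≤ J L :=
  Submodule.span_mono (Set.image_mono h)

lemma J_closure (K : Set G) : J (Subgroup.closure K : Set G) = J K := by
  apply le_antisymm
  · refine Submodule.span_le.2 ?_
    rintro _ ⟨k, hk, rfl⟩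
    show el k - 1 ∈ J K
    induction hk using Subgroup.closure_induction with
    | mem x hx => exact sub_one_mem_J hx
    | one => simp
    | mul x y _ _ hx hy =>
      have : el (x * y) - 1 = el x • (el y - 1) + (el x - 1) := by
        simp [mul_sub]
      rw [this]
      exact add_mem (Submodule.smul_mem _ _ hy) hx
    | inv x _ hx =>
      have : el x⁻¹ - 1 = (-el x⁻¹) • (el x - 1) := by
        simp only [smul_eq_mul, mul_sub, neg_mul, mul_one]
        rw [el_inv_mul_el]; abel
      rw [this]
      exact Submodule.smul_mem _ _ hx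
  · exact J_mono Subgroup.subset_closure

/-- An additive map constant on left cosets of `K` kills `J K`. -/
lemma map_J_eq_zero {A : Type} [AddCommGroup A] (D : ZG G →+ A) {K : Set G}
    (h : ∀ g : G, ∀ k ∈ K, D (el (g * k)) = D (el g)) {x : ZG G} (hx : x ∈ J K) : D x = 0 := by
  have key : ∀ r : ZG G, D (r * x) = 0 := by
    refine Submodule.span_induction (p := fun x _ => ∀ r : ZG G, D (r * x) = 0) ?_ ?_ ?_ ?_ hx
    · rintro _ ⟨k, hk, rfl⟩ r
      induction r using zg_induction with
      | zero => simp
      | el g =>
        have := h g k hk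
        rw [mul_sub, mul_one, ← el_mul, map_sub, this, sub_self]
      | add x y hx hy => rw [add_mul, map_add, hx, hy, add_zero]
      | neg x hx => rw [neg_mul, map_neg, hx, neg_zero]
    · intro r; simp
    · intro x y _ _ hx hy r; rw [mul_add, map_add, hx, hy, add_zero]
    · intro a x _ hx r
      rw [smul_eq_mul, ← mul_assoc]; exact hx _
  simpa using key 1

/-- If `c : G → X` separates left cosets of `E`, the kernel of `ZG → Z[X]` lies in `J E`. -/
lemma mem_J_of_addLift_eq_zero {X : Type} (c : G → X) (E : Subgroup G)
    (h : ∀ p p', c p = c p' → p⁻¹ * p' ∈ E) {x : ZG G}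
    (hx : addLift (fun p => (Finsupp.single (c p) (1 : ℤ))) x = 0) : x ∈ J (E : Set G) := by
  classical
  let s : X → G := fun y => if hy : ∃ p, c p = y then hy.choose else 1
  have hs : ∀ p, c (s (c p)) = c p := by
    intro p
    have hy : ∃ p', c p' = c p := ⟨p, rfl⟩
    show c (if hy : ∃ p', c p' = c p then hy.choose else 1) = c p
    rw [dif_pos hy]
    exact hy.choose_spec
  let σ : (X →₀ ℤ) →+ ZG G := Finsupp.liftAddHom (fun y => zmultiplesHom _ (el (s y)))
  have key : ∀ y : ZG G, y - σ (addLift (fun p => (Finsupp.single (c p) (1 : ℤ))) y) ∈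
      J (E : Set G) := by
    intro y
    induction y using zg_induction with
    | zero => simp
    | el g =>
      have h1 : el g - σ (addLift (fun p => (Finsupp.single (c p) (1 : ℤ))) (el g)) =
          el (s (c g)) • (el ((s (c g))⁻¹ * g) - 1) := by
        rw [addLift_el]
        simp only [σ, Finsupp.liftAddHom_apply_single, zmultiplesHom_apply, one_smul, smul_eq_mul,
          mul_sub, mul_one, ← el_mul]
        simp
      rw [h1]
      exact Submodule.smul_mem _ _ (sub_one_mem_J (h _ _ (hs g)))
    | add a b ha hb =>
      have := add_mem ha hb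
      rw [map_add, map_add]
      convert this using 1; abel
    | neg a ha =>
      have := neg_mem ha
      rw [map_neg, map_neg]
      convert this using 1; abel
  have := key x
  rwa [hx, map_zero, sub_zero] at this

/-- If the left ideal `J E` is finitely generated then so is the subgroup `E`. -/
lemma fg_of_J_fg (E : Subgroup G) (h : (J (E : Set G)).FG) : E.FG := by
  classical
  have : ∃ S : Finset G, (S : Set G) ⊆ E ∧ J (E : Set G) ≤ J (S : Set G) := by
    obtain ⟨T, hT⟩ := h
    have h2 : ∀ t ∈ T, ∃ S : Finset G, (S : Set G) ⊆ E ∧ t ∈ J (S : Set G) := by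
      intro t ht
      have ht' : t ∈ J (E : Set G) := by rw [← hT]; exact Submodule.subset_span ht
      obtain ⟨T', hT', hspan⟩ := Submodule.mem_span_finite_of_mem_span ht'
      choose! f hf using fun x (hx : x ∈ (T' : Set (ZG G))) => hT' hx
      refine ⟨T'.image f, ?_, ?_⟩
      · intro y hy
        simp only [Finset.coe_image, Set.mem_image, Finset.mem_coe] at hy
        obtain ⟨x, hx, rfl⟩ := hy
        exact (hf x hx).1
      · refine Submodule.span_mono ?_ hspan
        intro x hx
        exact ⟨f x, by simpa using ⟨x, hx, rfl⟩, (hf x hx).2⟩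
    choose! S hS using h2
    refine ⟨T.biUnion S, ?_, ?_⟩
    · intro y hy
      simp only [Finset.coe_biUnion, Set.mem_iUnion] at hy
      obtain ⟨t, ht, hy⟩ := hy
      exact (hS t ht).1 hy
    · rw [← hT]
      refine Submodule.span_le.2 ?_
      intro t ht
      refine J_mono ?_ (hS t ht).2
      intro y hy
      simp only [Finset.coe_biUnion, Set.mem_iUnion]
      exact ⟨t, ht, hy⟩
  obtain ⟨S, hSE, hS⟩ := this
  refine ⟨S, le_antisymm ((Subgroup.closure_le _).2 hSE) ?_⟩
  intro e he
  have h1 : el e - 1 ∈ J (Subgroup.closure (S : Set G) : Set G) := by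
    rw [J_closure]; exact hS (sub_one_mem_J he)
  set E₀ := Subgroup.closure (S : Set G) with hE₀
  have h2 := map_J_eq_zero (addLift (fun g : G => (Finsupp.single (g : G ⧸ E₀) (1 : ℤ)))) 
    (K := (E₀ : Set G)) (by
      intro g k hk
      rw [addLift_el, addLift_el]
      congr 1
      rw [QuotientGroup.eq]
      have : (g * k)⁻¹ * g = k⁻¹ := by group
      rw [this]
      exact inv_mem hk) h1
  rw [map_sub, addLift_el, addLift_one, sub_eq_zero] at h2
  have h3 := Finsupp.single_left_injective (one_ne_zero) h2
  rw [QuotientGroup.eq] at h3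
  simpa using h3

lemma J_fg_of_fg (E : Subgroup G) (h : E.FG) : (J (E : Set G)).FG := by
  classical
  obtain ⟨S, hS⟩ := h
  rw [← hS, J_closure]
  exact ⟨S.image (fun k => el k - 1), by simp [J]⟩

/-- The augmentation ideal. -/
noncomputable abbrev IG (G : Type) [Group G] : Submodule (ZG G) (ZG G) := J (Set.univ : Set G)

/-- The augmentation map as additive map -/
noncomputable abbrev augm (G : Type) [Group G] : ZG G →+ ℤ := addLift (fun _ : G => (1 : ℤ))

lemma augm_mul (x y : ZG G) : augm G (x * y) = augm G x * augm G y := by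
  induction x using zg_induction with
  | zero => simp
  | el g =>
    induction y using zg_induction with
    | zero => simp
    | el h => rw [← el_mul, addLift_el, addLift_el, addLift_el, mul_one]
    | add a b ha hb => rw [mul_add, map_add, map_add, ha, hb, mul_add]
    | neg a ha => rw [mul_neg, map_neg, map_neg, ha, mul_neg]
  | add a b ha hb => rw [add_mul, map_add, map_add, ha, hb, add_mul]
  | neg a ha => rw [neg_mul, map_neg, map_neg, ha, neg_mul]

lemma mem_IG_iff (x : ZG G) : x ∈ IG G ↔ augm G x = 0 := by
  constructor
  · intro hx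
    exact map_J_eq_zero (augm G) (by intro g k _; rw [addLift_el, addLift_el]) hx
  · intro hx
    have : x ∈ J ((⊤ : Subgroup G) : Set G) := by
      refine mem_J_of_addLift_eq_zero (X := Unit) (fun _ => ()) ⊤ (by intros; trivial) ?_
      have h1 : addLift (fun _ : G => (Finsupp.single () (1 : ℤ))) =
          (Finsupp.singleAddHom ()).comp (augm G) := by
        apply addHom_ext_el
        intro g
        rw [addLift_el, AddMonoidHom.comp_apply, addLift_el]; rfl
      rw [h1, AddMonoidHom.comp_apply, hx, map_zero]
    simpa using this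

end

/-- The affine group `M ⋊ G` attached to an action of `G` on an abelian group `M`. -/
structure Aff {G M : Type} [Group G] [AddCommGroup M] (ρ : G →* AddMonoid.End M) where
  /-- translation part -/
  vec : M
  /-- linear part -/
  lin : G

namespace Aff

variable {G M : Type} [Group G] [AddCommGroup M] {ρ : G →* AddMonoid.End M}

@[ext] lemma ext' {a b : Aff ρ} (h1 : a.vec = b.vec) (h2 : a.lin = b.lin) : a = b := by
  cases a; cases b; simp_all

instance : Mul (Aff ρ) := ⟨fun a b => ⟨a.vec + ρ a.lin b.vec, a.lin * b.lin⟩⟩
instance : One (Aff ρ) := ⟨⟨0, 1⟩⟩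
instance : Inv (Aff ρ) := ⟨fun a => ⟨-(ρ a.lin⁻¹ a.vec), a.lin⁻¹⟩⟩

@[simp] lemma mul_vec (a b : Aff ρ) : (a * b).vec = a.vec + ρ a.lin b.vec := rfl
@[simp] lemma mul_lin (a b : Aff ρ) : (a * b).lin = a.lin * b.lin := rfl
@[simp] lemma one_vec : (1 : Aff ρ).vec = 0 := rfl
@[simp] lemma one_lin : (1 : Aff ρ).lin = 1 := rfl
@[simp] lemma inv_vec (a : Aff ρ) : (a⁻¹).vec = -(ρ a.lin⁻¹ a.vec) := rfl
@[simp] lemma inv_lin (a : Aff ρ) : (a⁻¹).lin = a.lin⁻¹ := rfl

instance : Group (Aff ρ) :=
  Group.ofLeftAxioms
    (by
      intro a b c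
      apply ext'
      · simp only [mul_vec, mul_lin, map_mul, map_add, AddMonoid.End.coe_mul, Function.comp_apply, add_assoc]
      · simp only [mul_lin, mul_assoc])
    (by
      intro a
      apply ext'
      · simp
      · simp)
    (by
      intro a
      apply ext'
      · simp
      · simp)

/-- Projection to the linear part. -/
def linHom : Aff ρ →* G where
  toFun := lin
  map_one' := rfl
  map_mul' _ _ := rfl

@[simp] lemma linHom_apply (a : Aff ρ) : linHom a = a.lin := rfl

end Aff

end Pool.Agent.helper4
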