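import Pool.Agent.helper4.Deriv

/-!
The HNN extension of `Q × F` along the graph of a surjection `F → Q`, and its fibre product.
-/

namespace Pool.Agent.helper4

open CategoryTheory

section

variable {X Q : Type} [Group Q] (φ : FreeGroup X →* Q)

/-- The graph of `φ` as a subgroup of `Q × F`. -/
def Del : Subgroup (Q × FreeGroup X) := (φ.prod (MonoidHom.id _)).range

/-- The HNN extension. -/
abbrev GG : Type := HNNExtension (Q × FreeGroup X) (Del φ) (Del φ) (MulEquiv.refl _)

/-- The base group inside the HNN extension. -/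
def gof : Q × FreeGroup X →* GG φ := HNNExtension.of

/-- The stable letter. -/
def gt : GG φ := HNNExtension.t

lemma gt_comm (w : FreeGroup X) : gt φ * gof φ (φ w, w) = gof φ (φ w, w) * gt φ := by
  have := HNNExtension.t_mul_of (φ := MulEquiv.refl (Del φ)) ⟨(φ w, w), ⟨w, rfl⟩⟩
  exact this

/-- The retraction killing the stable letter. -/
def retr : GG φ →* Q × FreeGroup X := HNNExtension.lift (MonoidHom.id _) 1 (by simp)

@[simp] lemma retr_gof (x : Q × FreeGroup X) : retr φ (gof φ x) = x := by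
  simp [retr, gof]

@[simp] lemma retr_gt : retr φ (gt φ) = 1 := by
  simp [retr, gt]

/-- The projection to `Q`. -/
def piOne : GG φ →* Q := (MonoidHom.fst _ _).comp (retr φ)

@[simp] lemma piOne_gof (x : Q × FreeGroup X) : piOne φ (gof φ x) = x.1 := by
  simp [piOne]

@[simp] lemma piOne_gt : piOne φ (gt φ) = 1 := by
  simp [piOne]

lemma piOne_surjective : Function.Surjective (piOne φ) := fun q => ⟨gof φ (q, 1), by simp⟩

/-- The associated subgroup inside the HNN extension. -/
def DelG : Subgroup (GG φ) := (Del φ).map (gof φ)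

lemma mem_DelG (x : GG φ) : x ∈ DelG φ ↔ ∃ w, gof φ (φ w, w) = x := by
  constructor
  · rintro ⟨_, ⟨w, rfl⟩, rfl⟩
    exact ⟨w, rfl⟩
  · rintro ⟨w, rfl⟩
    exact ⟨_, ⟨w, rfl⟩, rfl⟩

/-- The derivation dual to the stable letter. -/
noncomputable def derHom : GG φ →* Aff (permAct (GG φ) (GG φ ⧸ DelG φ)) :=
  HNNExtension.lift
    { toFun := fun h => ⟨0, gof φ h⟩
      map_one' := by apply Aff.ext' <;> simp
      map_mul' := fun a b => by apply Aff.ext' <;> simp }
    ⟨Finsupp.single ((1 : GG φ) : GG φ ⧸ DelG φ) 1, gt φ⟩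
    (by
      rintro ⟨_, ⟨w, rfl⟩⟩
      apply Aff.ext'
      · have h1 : ((gof φ (φ w, w) : GG φ) : GG φ ⧸ DelG φ) = ((1 : GG φ) : GG φ ⧸ DelG φ) := by
          rw [eq_comm, QuotientGroup.eq]
          simpa using (mem_DelG φ _).2 ⟨w, rfl⟩
        simp only [Aff.mul_vec, MonoidHom.coe_mk, OneHom.coe_mk, map_zero, add_zero,
          MulEquiv.refl_apply, zero_add, permAct_single]
        congr 1
        exact h1.symm
      · exact gt_comm φ w)

lemma derHom_gof (h : Q × FreeGroup X) : derHom φ (gof φ h) = ⟨0, gof φ h⟩ :=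
  HNNExtension.lift_of _ _ _ _

lemma derHom_gt : derHom φ (gt φ) =
    ⟨Finsupp.single ((1 : GG φ) : GG φ ⧸ DelG φ) 1, gt φ⟩ :=
  HNNExtension.lift_t _ _ _

lemma derHom_lin (g : GG φ) : (derHom φ g).lin = g := by
  have : (Aff.linHom (ρ := permAct (GG φ) (GG φ ⧸ DelG φ))).comp (derHom φ) =
      MonoidHom.id _ := by
    apply HNNExtension.hom_ext
    · ext1 h
      show (derHom φ (gof φ h)).lin = gof φ h
      rw [derHom_gof]
    · show (derHom φ (gt φ)).lin = gt φ
      rw [derHom_gt]
  exact DFunLike.congr_fun this g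

lemma derHom_mul_gof (g : GG φ) (h : Q × FreeGroup X) :
    (derHom φ (g * gof φ h)).vec = (derHom φ g).vec := by
  rw [map_mul, Aff.mul_vec, derHom_gof]; simp

lemma derHom_mul_gt (g : GG φ) :
    (derHom φ (g * gt φ)).vec = (derHom φ g).vec + Finsupp.single (g : GG φ ⧸ DelG φ) 1 := by
  rw [map_mul, Aff.mul_vec, derHom_gt, derHom_lin, permAct_single]
  congr 2
  show ((g * 1 : GG φ) : GG φ ⧸ DelG φ) = _
  rw [mul_one]

/-- The candidate for the kernel of the projection. -/
def NN : Subgroup (GG φ) :=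
  Subgroup.closure (Set.range (fun x : X => gof φ (1, FreeGroup.of x)) ∪ {gt φ})

lemma gt_mem_NN : gt φ ∈ NN φ := Subgroup.subset_closure (Or.inr rfl)

lemma gof_one_mem_NN (w : FreeGroup X) : gof φ (1, w) ∈ NN φ := by
  have h1 : (gof φ).comp (MonoidHom.inr Q (FreeGroup X)) w ∈ NN φ := by
    refine FreeGroup.induction_on
      (C := fun w => (gof φ).comp (MonoidHom.inr Q (FreeGroup X)) w ∈ NN φ) w ?_ ?_ ?_ ?_
    · rw [map_one]; exact one_mem _
    · intro x; exact Subgroup.subset_closure (Or.inl ⟨x, rfl⟩)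
    · intro x hx
      have := inv_mem hx
      rwa [← map_inv] at this
    · intro x y hx hy
      rw [map_mul]; exact mul_mem hx hy
  exact h1

lemma conj_mem_NN (hφ : Function.Surjective φ) (q : Q) (n : GG φ) (hn : n ∈ NN φ) :
    gof φ (q, 1) * n * (gof φ (q, 1))⁻¹ ∈ NN φ := by
  refine Subgroup.closure_induction
    (p := fun n _ => gof φ (q, 1) * n * (gof φ (q, 1))⁻¹ ∈ NN φ) ?_ ?_ ?_ ?_ hn
  · rintro x (⟨y, rfl⟩ | hx)
    · have : gof φ (q, 1) * gof φ (1, FreeGroup.of y) * (gof φ (q, 1))⁻¹ =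
          gof φ (1, FreeGroup.of y) := by
        rw [← map_inv, ← map_mul, ← map_mul]
        congr 1
        ext <;> simp
      simp only [this]
      exact gof_one_mem_NN φ _
    · rw [Set.mem_singleton_iff] at hx
      rw [hx]
      obtain ⟨w, rfl⟩ := hφ q
      have h1 : gof φ (φ w, 1) = gof φ (φ w, w) * (gof φ (1, w))⁻¹ := by
        rw [← map_inv, ← map_mul]
        congr 1
        ext <;> simp
      have h2 : gof φ (φ w, 1) = (gof φ (1, w))⁻¹ * gof φ (φ w, w) := by
        rw [← map_inv, ← map_mul]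
        congr 1
        ext <;> simp
      have h3 : gof φ (φ w, 1) * gt φ * (gof φ (φ w, 1))⁻¹ =
          (gof φ (1, w))⁻¹ * gt φ * gof φ (1, w) := by
        rw [h2, mul_inv_rev, inv_inv, mul_assoc (gof φ (1, w))⁻¹, ← gt_comm]
        group
      rw [h3]
      exact mul_mem (mul_mem (inv_mem (gof_one_mem_NN φ w)) (gt_mem_NN φ)) (gof_one_mem_NN φ w)
  · simp
  · intro x y _ _ hx hy
    have := mul_mem hx hy
    convert this using 1
    group
  · intro x _ hx
    have := inv_mem hx
    convert this using 1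
    group

lemma NN_normal (hφ : Function.Surjective φ) : (NN φ).Normal := by
  rw [← Subgroup.normalizer_eq_top_iff, eq_top_iff]
  rintro g -
  induction g using HNNExtension.induction_on with
  | of x =>
    obtain ⟨q, w⟩ := x
    have h1 : (HNNExtension.of (q, w) : GG φ) = gof φ (q, 1) * gof φ (1, w) := by
      rw [← map_mul]
      show gof φ (q, w) = _
      congr 1
      ext <;> simp
    rw [h1]
    refine mul_mem ?_ (Subgroup.le_normalizer (gof_one_mem_NN φ w))
    rw [Subgroup.mem_normalizer_iff]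
    intro n
    refine ⟨conj_mem_NN φ hφ q n, fun h => ?_⟩
    have h2 := conj_mem_NN φ hφ q⁻¹ _ h
    have h3 : gof φ (q⁻¹, 1) = (gof φ (q, 1))⁻¹ := by
      rw [← map_inv]; congr 1
    rw [h3] at h2
    convert h2 using 1
    group
  | t => exact Subgroup.le_normalizer (gt_mem_NN φ)
  | mul x y hx hy => exact mul_mem hx hy
  | inv x hx => exact inv_mem hx

lemma mul_inv_mem_NN (hφ : Function.Surjective φ) (g : GG φ) :
    g * (gof φ (piOne φ g, 1))⁻¹ ∈ NN φ := by
  have hN := NN_normal φ hφ
  have hm : ∀ a b : Q, gof φ (a * b, 1) = gof φ (a, 1) * gof φ (b, 1) := by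
    intro a b
    rw [← map_mul]; congr 1
  have hi : ∀ a : Q, gof φ (a⁻¹, 1) = (gof φ (a, 1))⁻¹ := by
    intro a
    rw [← map_inv]; congr 1
  induction g using HNNExtension.induction_on with
  | of x =>
    obtain ⟨q, w⟩ := x
    have h1 : (HNNExtension.of (q, w) : GG φ) = gof φ (1, w) * gof φ (q, 1) := by
      rw [← map_mul]
      show gof φ (q, w) = _
      congr 1
      ext <;> simp
    have h2 : piOne φ (HNNExtension.of (q, w) : GG φ) = q := piOne_gof φ (q, w)
    rw [h2, h1, mul_inv_cancel_right]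
    exact gof_one_mem_NN φ w
  | t =>
    have h2 : piOne φ (HNNExtension.t : GG φ) = 1 := piOne_gt φ
    rw [h2]
    have h3 : gof φ ((1 : Q), (1 : FreeGroup X)) = 1 := map_one _
    rw [h3, inv_one, mul_one]
    exact gt_mem_NN φ
  | mul x y hx hy =>
    rw [map_mul, hm, mul_inv_rev]
    have := mul_mem (hN.conj_mem _ hy x) hx
    convert this using 1
    group
  | inv x hx =>
    rw [map_inv, hi, inv_inv]
    have := hN.conj_mem _ (inv_mem hx) x⁻¹
    convert this using 1
    group

lemma ker_piOne (hφ : Function.Surjective φ) : (piOne φ).ker = NN φ := by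
  apply le_antisymm
  · intro g hg
    have h1 := mul_inv_mem_NN φ hφ g
    rw [MonoidHom.mem_ker.1 hg] at h1
    have h3 : gof φ ((1 : Q), (1 : FreeGroup X)) = 1 := map_one _
    rwa [h3, inv_one, mul_one] at h1
  · refine (Subgroup.closure_le _).2 ?_
    rintro x (⟨y, rfl⟩ | hx)
    · show piOne φ _ = 1
      simp
    · rw [Set.mem_singleton_iff] at hx
      rw [hx]
      show piOne φ _ = 1
      simp

lemma ker_piOne_fg [Finite X] (hφ : Function.Surjective φ) : Group.FG (piOne φ).ker := by
  rw [Group.fg_iff_subgroup_fg, ker_piOne φ hφ, Subgroup.fg_iff]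
  exact ⟨_, rfl, (Set.finite_range _).union (Set.finite_singleton _)⟩

end

end Pool.Agent.helper4
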