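import Mathlib

/-!
Last letters and supports of reduced words.
-/

namespace Pool.Agent.helper4

section

variable {X : Type} [DecidableEq X]

lemma of_mul_cases (a : X) (g : FreeGroup X) :
    (∃ tl, g.toWord = (a, false) :: tl ∧ (FreeGroup.of a * g).toWord = tl) ∨
      (FreeGroup.of a * g).toWord = (a, true) :: g.toWord := by
  rw [FreeGroup.toWord_mul, FreeGroup.toWord_of, List.singleton_append, FreeGroup.reduce.cons,
    FreeGroup.reduce_toWord]
  cases h : g.toWord with
  | nil => right; rfl
  | cons hd tl =>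
    by_cases h1 : a = hd.1 ∧ true = !hd.2
    · left
      refine ⟨tl, ?_, ?_⟩
      · obtain ⟨h2, h3⟩ := h1
        congr 1
        ext
        · exact h2.symm
        · simpa using h3
      · simp only [h1, and_self, if_true]
    · right
      simp only [h1, if_false]

/-- The type letter of the last syllable of the reduced word, with a default value. -/
def lst (x0 : X) (g : FreeGroup X) : X := (g.toWord.getLast?.map Prod.fst).getD x0

lemma lst_of (x0 a : X) : lst x0 (FreeGroup.of a) = a := by
  simp [lst]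

lemma lst_of_inv (x0 a : X) : lst x0 (FreeGroup.of a)⁻¹ = a := by
  simp [lst, FreeGroup.toWord_inv, FreeGroup.invRev]

lemma ne_one_iff (g : FreeGroup X) : g ≠ 1 ↔ g.toWord ≠ [] := by
  rw [ne_eq, ne_eq, FreeGroup.toWord_eq_nil_iff]

lemma lst_of_mul (x0 a : X) (g : FreeGroup X) (h1 : g ≠ 1) (h2 : FreeGroup.of a * g ≠ 1) :
    lst x0 (FreeGroup.of a * g) = lst x0 g := by
  rw [ne_one_iff] at h1 h2
  unfold lst
  rcases of_mul_cases a g with ⟨tl, h3, h4⟩ | h3
  · rw [h4] at h2 ⊢
    rw [h3, List.getLast?_cons_of_ne_nil h2]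
  · rw [h3, List.getLast?_cons_of_ne_nil h1]

/-- All letters of the reduced word satisfy `P`. -/
def AllL (P : X → Prop) (g : FreeGroup X) : Prop := ∀ l ∈ g.toWord, P l.1

lemma allL_one (P : X → Prop) : AllL P (1 : FreeGroup X) := by
  intro l hl
  simp at hl

lemma allL_of_mul (P : X → Prop) (a : X) (ha : P a) (g : FreeGroup X) :
    AllL P (FreeGroup.of a * g) ↔ AllL P g := by
  unfold AllL
  rcases of_mul_cases a g with ⟨tl, h3, h4⟩ | h3
  · rw [h3, h4]
    simp [ha]
  · rw [h3]
    simp [ha]

lemma allL_lst (P : X → Prop) (x0 : X) (g : FreeGroup X) (h : AllL P g) (h1 : g ≠ 1) :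
    P (lst x0 g) := by
  rw [ne_one_iff] at h1
  unfold lst
  rw [List.getLast?_eq_getLast_of_ne_nil h1]
  exact h _ (List.getLast_mem h1)

end

end Pool.Agent.helper4
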