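import Pool.Agent.helper4.Action

/-!
The kernel of the height character is not finitely presented.
-/

namespace Pool.Agent.helper4

set_option linter.unusedSectionVars false
set_option linter.unusedSimpArgs false
set_option linter.unusedVariables false

lemma ht_of_zpow {X : Type} (a : X) (m : ℤ) : ht (hF X) (FreeGroup.of a ^ m) = m :=
  ht_zpow (hF X) (FreeGroup.of a) (hF_of a) m

lemma of_zpow_ne_one {X : Type} (a : X) (m : ℤ) (hm : m ≠ 0) : FreeGroup.of a ^ m ≠ 1 := by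
  intro h
  have h1 := ht_of_zpow a m
  rw [h, ht_one] at h1
  exact hm h1.symm

lemma of_mul_zpow {X : Type} (a : X) (m : ℤ) :
    FreeGroup.of a * FreeGroup.of a ^ m = FreeGroup.of a ^ (m + 1) := by
  rw [add_comm, zpow_add, zpow_one]

lemma of_inv_mul_zpow {X : Type} (a : X) (m : ℤ) :
    (FreeGroup.of a)⁻¹ * FreeGroup.of a ^ m = FreeGroup.of a ^ (m - 1) := by
  rw [sub_eq_neg_add, zpow_add, zpow_neg_one]

lemma lst_zpow {X : Type} [DecidableEq X] (x0 a : X) (n : ℕ) :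
    lst x0 (FreeGroup.of a ^ (-((n : ℤ) + 1))) = a := by
  induction n with
  | zero => simp [lst_of_inv]
  | succ n ih =>
    have h1 := lst_of_mul x0 a (FreeGroup.of a ^ (-(((n + 1 : ℕ) : ℤ) + 1)))
      (of_zpow_ne_one a _ (by push_cast; omega))
      (by rw [of_mul_zpow]; exact of_zpow_ne_one a _ (by push_cast; omega))
    rw [← h1, of_mul_zpow]
    convert ih using 3
    push_cast; ring

lemma comm_prod_aux {G : Type} [Group G] (P P' Q Q' : G) (h1 : Commute P Q) (h2 : Commute P Q')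
    (h3 : Commute P' Q) (h4 : Commute P' Q') :
    (P * Q'⁻¹)⁻¹ * (P' * Q'⁻¹) * (P' * Q⁻¹)⁻¹ * (P * Q⁻¹) = 1 := by
  have e1 : Q' * (P⁻¹ * P') * Q'⁻¹ = P⁻¹ * P' := by
    have : Commute (P⁻¹ * P') Q' := h2.inv_left.mul_left h4
    rw [← this.eq, mul_inv_cancel_right]
  have e2 : Q * (P'⁻¹ * P) * Q⁻¹ = P'⁻¹ * P := by
    have : Commute (P'⁻¹ * P) Q := h3.inv_left.mul_left h1
    rw [← this.eq, mul_inv_cancel_right]
  have e3 : (P * Q'⁻¹)⁻¹ * (P' * Q'⁻¹) * (P' * Q⁻¹)⁻¹ * (P * Q⁻¹) =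
      (Q' * (P⁻¹ * P') * Q'⁻¹) * (Q * (P'⁻¹ * P) * Q⁻¹) := by group
  rw [e3, e1, e2]; group

section

variable {X Y Z H : Type} [DecidableEq X] [DecidableEq Y] [Group H] (A : Z → Fin 2 → X)
  (B : Z → Fin 2 → Y) (x0 : X) (y0 : Y) (t : X → Y → H) (lam : Z → X → H) (mu : Z → Y → H)

/-- The level-preserving words. -/
def uu (a : X) (b : Y) : FreeGroup (W1 X Y Z) :=
  FreeGroup.of (Sum.inl a) * (FreeGroup.of (Sum.inr (Sum.inl b)))⁻¹

lemma ht_uu (a : X) (b : Y) : ht (hF (W1 X Y Z)) (uu a b) = 0 := by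
  simp [uu]

lemma Th_uu_apply (a : X) (b : Y) (p : H × Bs X Y) :
    Th A B x0 y0 t lam mu (uu a b) p =
      (cc y0 t a (p.2.1, (FreeGroup.of b)⁻¹ * p.2.2) * p.1,
        (FreeGroup.of a * p.2.1, (FreeGroup.of b)⁻¹ * p.2.2)) := by
  rw [uu, map_mul, map_inv, Th_of, Th_of, Equiv.Perm.mul_apply]
  refine Prod.ext ?_ rfl
  show cc y0 t a (p.2.1, (FreeGroup.of b)⁻¹ * p.2.2) * ((1 : H)⁻¹ * p.1) = _
  rw [inv_one, one_mul]

lemma walk_aux (a : X) (b : Y) (n : ℕ) (h : H) (k : ℕ) (hk : k ≤ n) :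
    (Th A B x0 y0 t lam mu (uu a b) ^ k) (h, (FreeGroup.of a ^ (-((n : ℤ) + 1)), 1)) =
      (h, (FreeGroup.of a ^ ((k : ℤ) - ((n : ℤ) + 1)), FreeGroup.of b ^ (-(k : ℤ)))) := by
  induction k with
  | zero => simp
  | succ k ih =>
    rw [pow_succ', Equiv.Perm.mul_apply, ih (by omega), Th_uu_apply]
    simp only [of_mul_zpow, of_inv_mul_zpow]
    have h1 : FreeGroup.of a ^ ((k : ℤ) - ((n : ℤ) + 1)) ≠ 1 := of_zpow_ne_one _ _ (by omega)
    have h2 : FreeGroup.of a * FreeGroup.of a ^ ((k : ℤ) - ((n : ℤ) + 1)) ≠ 1 := by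
      rw [of_mul_zpow]; exact of_zpow_ne_one _ _ (by omega)
    simp only [cc, h1, h2, if_false, one_mul]
    refine Prod.ext rfl (Prod.ext ?_ ?_)
    · show FreeGroup.of a ^ _ = FreeGroup.of a ^ _
      congr 1; push_cast; ring
    · show FreeGroup.of b ^ _ = FreeGroup.of b ^ _
      congr 1; push_cast; ring

lemma walk (a : X) (b : Y) (n : ℕ) (h : H) :
    (Th A B x0 y0 t lam mu (uu a b) ^ (n + 1)) (h, (FreeGroup.of a ^ (-((n : ℤ) + 1)), 1)) =
      ((t a b)⁻¹ * h, (1, FreeGroup.of b ^ (-((n : ℤ) + 1)))) := by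
  rw [pow_succ', Equiv.Perm.mul_apply, walk_aux A B x0 y0 t lam mu a b n h n le_rfl, Th_uu_apply]
  simp only [of_mul_zpow, of_inv_mul_zpow]
  have e1 : ((n : ℤ) - ((n : ℤ) + 1)) = -1 := by ring
  have e2 : (-(n : ℤ) - 1) = -((n : ℤ) + 1) := by ring
  rw [e1, e2]
  have h1 : FreeGroup.of a ^ (-1 : ℤ) ≠ 1 := of_zpow_ne_one _ _ (by omega)
  have h2 : FreeGroup.of a * FreeGroup.of a ^ (-1 : ℤ) = 1 := by
    rw [of_mul_zpow]; simp
  simp only [cc, h1, h2, if_false, if_true, lst_zpow]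
  refine Prod.ext rfl (Prod.ext ?_ rfl)
  simp

variable {A B x0 y0 t lam mu}

lemma mk_surj : Function.Surjective (PresentedGroup.mk (relators A B)) :=
  QuotientGroup.mk'_surjective _

lemma chi_mk (w : FreeGroup (W1 X Y Z)) :
    ht (chi A B) (PresentedGroup.mk (relators A B) w) = ht (hF (W1 X Y Z)) w := by
  have h : (chi A B).comp (PresentedGroup.mk (relators A B)) = hF (W1 X Y Z) := by
    ext v
    show chi A B (gen A B v) = hF _ (FreeGroup.of v)
    simp [chi, hF]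
  have := DFunLike.congr_fun h w
  unfold ht
  rw [← this]; rfl

/-- The kernel of the height character is not finitely presented. -/
theorem not_normally_fg
    (hrank : ∀ i s s', t (A i s) (B i s') = lam i (A i s) * mu i (B i s'))
    (x0 : X) (y0 : Y) (a a' : X) (b b' : Y)
    (hne : t a b' * ((t a' b')⁻¹ * (t a' b * (t a b)⁻¹)) ≠ 1)
    (S : Type) (φ : FreeGroup S →* (chi A B).ker) (hφ : Function.Surjective φ) :
    ¬ ∃ R : Set (FreeGroup S), R.Finite ∧ Subgroup.normalClosure R = φ.ker := by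
  rintro ⟨R, hRfin, hR⟩
  choose lft hlft using fun s : S => mk_surj (A := A) (B := B) (φ (FreeGroup.of s) : Gam A B)
  let θ : FreeGroup S →* FreeGroup (W1 X Y Z) := FreeGroup.lift lft
  have hθ : ∀ w, PresentedGroup.mk (relators A B) (θ w) = (φ w : Gam A B) := by
    intro w
    have : (PresentedGroup.mk (relators A B)).comp θ = (chi A B).ker.subtype.comp φ := by
      ext s
      show PresentedGroup.mk (relators A B) (FreeGroup.lift lft (FreeGroup.of s)) = _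
      rw [FreeGroup.lift_apply_of, hlft]; rfl
    exact DFunLike.congr_fun this w
  have hθ0 : ∀ w, ht (hF (W1 X Y Z)) (θ w) = 0 := by
    intro w
    rw [← chi_mk (A := A) (B := B), hθ]
    exact ht_ker _ _
  let Θ := Th A B x0 y0 t lam mu
  have hlev : ∀ w p, lev (Θ (θ w) p).2 = lev p.2 := by
    intro w p
    rw [lev_Th, hθ0, add_zero]
  have hTT : ∀ w ∈ φ.ker, ∃ M : ℤ, ∀ p, lev p.2 ≤ M → Θ (θ w) p = p := by
    intro w hw
    have h1 : θ w ∈ TT A B x0 y0 t lam mu := by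
      apply normalClosure_le_TT A B x0 y0 t lam mu hrank
      rw [← PresentedGroup.mk_eq_one_iff, hθ, MonoidHom.mem_ker.1 hw]
      rfl
    exact h1
  -- uniform bound
  have hunif : ∃ M : ℤ, ∀ w ∈ R, ∀ p, lev p.2 ≤ M → Θ (θ w) p = p := by
    have h1 : ∀ w ∈ R, ∃ M : ℤ, ∀ p, lev p.2 ≤ M → Θ (θ w) p = p := fun w hw =>
      hTT w (by rw [← hR]; exact Subgroup.subset_normalClosure hw)
    choose! Mf hMf using h1
    obtain ⟨M, hM⟩ := (hRfin.image Mf).bddBelow
    exact ⟨M, fun w hw p hp => hMf w hw p (le_trans hp (hM ⟨w, hw, rfl⟩))⟩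
  obtain ⟨M, hM⟩ := hunif
  let N : Subgroup (FreeGroup S) :=
    { carrier := {w | ∀ p, lev p.2 ≤ M → Θ (θ w) p = p}
      one_mem' := fun p _ => by simp
      mul_mem' := by
        intro u v hu hv p hp
        rw [map_mul, map_mul, Equiv.Perm.mul_apply, hv p hp, hu p hp]
      inv_mem' := by
        intro u hu p hp
        rw [map_inv, map_inv, Equiv.Perm.inv_eq_iff_eq, hu p hp] }
  have hN : N.Normal := by
    refine ⟨fun w hw v p hp => ?_⟩
    rw [map_mul, map_mul, map_mul, map_mul, Equiv.Perm.mul_apply, Equiv.Perm.mul_apply,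
      hw _ (by rw [hlev]; exact hp), map_inv, map_inv, perm_apply_inv]
  have hker : ∀ w ∈ φ.ker, ∀ p, lev p.2 ≤ M → Θ (θ w) p = p := by
    intro w hw
    have h1 : Subgroup.normalClosure R ≤ N := Subgroup.normalClosure_le_normal hM
    rw [hR] at h1
    exact h1 hw
  -- lifts of the level-preserving words
  have hpair : ∀ a b, ∃ w : FreeGroup S, (φ w : Gam A B) =
      PresentedGroup.mk (relators A B) (uu a b) ∧
      ∃ M' : ℤ, ∀ p, lev p.2 ≤ M' → Θ (θ w) p = Θ (uu a b) p := by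
    intro a b
    obtain ⟨w, hw⟩ := hφ ⟨PresentedGroup.mk (relators A B) (uu a b), by
      rw [MonoidHom.mem_ker]
      have h1 := chi_mk (A := A) (B := B) (uu a b)
      rw [ht_uu] at h1
      exact h1⟩
    have hw' : (φ w : Gam A B) = PresentedGroup.mk (relators A B) (uu a b) := by rw [hw]
    refine ⟨w, hw', ?_⟩
    have h1 : θ w * (uu a b)⁻¹ ∈ TT A B x0 y0 t lam mu := by
      apply normalClosure_le_TT A B x0 y0 t lam mu hrank
      rw [← PresentedGroup.mk_eq_one_iff, map_mul, map_inv, hθ, hw', mul_inv_cancel]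
    obtain ⟨M', hM'⟩ := h1
    refine ⟨M', fun p hp => ?_⟩
    have h2 := hM' (Θ (uu a b) p) (by
      show lev (Th A B x0 y0 t lam mu (uu a b) p).2 ≤ M'
      rw [lev_Th, ht_uu, add_zero]; exact hp)
    rw [map_mul, map_inv, Equiv.Perm.mul_apply] at h2
    have h3 : (Th A B x0 y0 t lam mu (uu a b))⁻¹ (Θ (uu a b) p) = p :=
      Equiv.symm_apply_apply (Θ (uu a b)) p
    rw [h3] at h2
    exact h2
  have hpow : ∀ (w : FreeGroup S) (a : X) (b : Y) (M' : ℤ),
      (∀ p, lev p.2 ≤ M' → Θ (θ w) p = Θ (uu a b) p) → ∀ k : ℕ, ∀ p, lev p.2 ≤ M' →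
      (Θ (θ w) ^ k) p = (Θ (uu a b) ^ k) p := by
    intro w a b M' hM' k
    induction k with
    | zero => intro p _; rfl
    | succ k ih =>
      intro p hp
      rw [pow_succ, pow_succ, Equiv.Perm.mul_apply, Equiv.Perm.mul_apply, hM' p hp]
      apply ih
      show lev (Th A B x0 y0 t lam mu (uu a b) p).2 ≤ M'
      rw [lev_Th, ht_uu, add_zero]; exact hp
  obtain ⟨w1, e1, M1, hM1⟩ := hpair a b
  obtain ⟨w2, e2, M2, hM2⟩ := hpair a' b
  obtain ⟨w3, e3, M3, hM3⟩ := hpair a' b'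
  obtain ⟨w4, e4, M4, hM4⟩ := hpair a b'
  obtain ⟨n, hn⟩ : ∃ n : ℕ, -((n : ℤ) + 1) ≤ min (min M (min M1 M2)) (min M3 M4) := by
    refine ⟨(-(min (min M (min M1 M2)) (min M3 M4))).toNat, ?_⟩
    omega
  have step : ∀ (w : FreeGroup S) (a : X) (b : Y) (M' : ℤ), -((n : ℤ) + 1) ≤ M' →
      (∀ p, lev p.2 ≤ M' → Θ (θ w) p = Θ (uu a b) p) → ∀ h : H,
      (Θ (θ (w ^ (n + 1)))) (h, (FreeGroup.of a ^ (-((n : ℤ) + 1)), 1)) =
      ((t a b)⁻¹ * h, (1, FreeGroup.of b ^ (-((n : ℤ) + 1)))) := by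
    intro w a b M' hM' hw h
    rw [map_pow, map_pow, hpow w a b M' hw]
    · exact walk A B x0 y0 t lam mu a b n h
    · show ht (hF X) (FreeGroup.of a ^ (-((n : ℤ) + 1))) + ht (hF Y) 1 ≤ M'
      rw [ht_of_zpow, ht_one, add_zero]; exact hM'
  have stepinv : ∀ (w : FreeGroup S) (a : X) (b : Y) (M' : ℤ), -((n : ℤ) + 1) ≤ M' →
      (∀ p, lev p.2 ≤ M' → Θ (θ w) p = Θ (uu a b) p) → ∀ h : H,
      (Θ (θ (w ^ (n + 1))⁻¹)) (h, (1, FreeGroup.of b ^ (-((n : ℤ) + 1)))) =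
      (t a b * h, (FreeGroup.of a ^ (-((n : ℤ) + 1)), 1)) := by
    intro w a b M' hM' hw h
    rw [map_inv, map_inv, Equiv.Perm.inv_eq_iff_eq, step w a b M' hM' hw]
    rw [inv_mul_cancel_left]
  set ρ : FreeGroup S := (w4 ^ (n + 1))⁻¹ * (w3 ^ (n + 1)) * (w2 ^ (n + 1))⁻¹ * (w1 ^ (n + 1))
    with hρ
  have hρker : ρ ∈ φ.ker := by
    rw [MonoidHom.mem_ker]
    apply Subtype.ext
    have hxy : ∀ a b, Commute (gX A B a) (gY A B b) := fun a b => (gam_gens A B).xy a b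
    have hu : ∀ a b, PresentedGroup.mk (relators A B) (uu a b) ^ (n + 1) =
        gX A B a ^ (n + 1) * (gY A B b ^ (n + 1))⁻¹ := by
      intro a b
      have h1 : PresentedGroup.mk (relators A B) (uu a b) = gX A B a * (gY A B b)⁻¹ := by
        rw [uu, map_mul, map_inv]; rfl
      rw [h1, (hxy a b).inv_right.mul_pow, inv_pow]
    show ((φ ρ : (chi A B).ker) : Gam A B) = 1
    rw [hρ]
    simp only [map_mul, map_inv, map_pow, Subgroup.coe_mul, Subgroup.coe_inv, Subgroup.coe_pow,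
      e1, e2, e3, e4, hu]
    exact comm_prod_aux _ _ _ _ ((hxy a b).pow_pow _ _) ((hxy a b').pow_pow _ _)
      ((hxy a' b).pow_pow _ _) ((hxy a' b').pow_pow _ _)
  have hfix := hker ρ hρker (1, (FreeGroup.of a ^ (-((n : ℤ) + 1)), 1)) (by
    show ht (hF X) (FreeGroup.of a ^ (-((n : ℤ) + 1))) + ht (hF Y) 1 ≤ M
    rw [ht_of_zpow, ht_one, add_zero]
    omega)
  rw [hρ, map_mul, map_mul, map_mul, map_mul, map_mul, map_mul, Equiv.Perm.mul_apply,
    Equiv.Perm.mul_apply, Equiv.Perm.mul_apply, step w1 a b M1 (by omega) hM1,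
    stepinv w2 a' b M2 (by omega) hM2, step w3 a' b' M3 (by omega) hM3,
    stepinv w4 a b' M4 (by omega) hM4] at hfix
  have h1 := congrArg Prod.fst hfix
  simp only [mul_one] at h1
  exact hne h1

end

end Pool.Agent.helper4
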