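import Pool.Agent.helper4.AcycUnit
import Pool.Agent.helper4.FPHelpers

/-!
Gradings and the pushing lemma.
-/

namespace Pool.Agent.helper4

set_option linter.unusedSectionVars false

/-- A grading of an abelian group by the integers, given by projections. -/
structure Grading (M : Type) [AddCommGroup M] where
  /-- the projections -/
  pr : ℤ → M →+ M
  pr_same : ∀ j x, pr j (pr j x) = pr j x
  pr_ne : ∀ i j x, i ≠ j → pr i (pr j x) = 0
  bdd : ∀ x, ∃ n : ℕ, ∀ j : ℤ, (n : ℤ) < |j| → pr j x = 0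
  sep : ∀ x, (∀ j, pr j x = 0) → x = 0

namespace Grading

variable {M : Type} [AddCommGroup M] (g : Grading M)

/-- Support condition. -/
def Supp (a b : ℤ) (x : M) : Prop := ∀ j, j < a ∨ b < j → g.pr j x = 0

lemma exists_supp (x : M) : ∃ n : ℕ, ∀ N : ℕ, n ≤ N → g.Supp (-N) N x := by
  obtain ⟨n, hn⟩ := g.bdd x
  refine ⟨n, fun N hN j hj => hn j ?_⟩
  rcases hj with hj | hj
  · have : (N : ℤ) < -j := by omega
    have h2 := neg_le_abs j
    have h3 : (n : ℤ) ≤ N := by exact_mod_cast hN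
    omega
  · have h2 := le_abs_self j
    have h3 : (n : ℤ) ≤ N := by exact_mod_cast hN
    omega

/-- The grading on functions. -/
def pi (W : Type) [Finite W] : Grading (W → M) where
  pr j := 
    { toFun := fun f w => g.pr j (f w)
      map_zero' := by funext w; simp
      map_add' := by intro f f'; funext w; simp }
  pr_same j x := by funext w; exact g.pr_same j _
  pr_ne i j x h := by funext w; exact g.pr_ne i j _ h
  bdd x := by
    choose n hn using fun w => g.bdd (x w)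
    obtain ⟨N, hN⟩ := (Set.finite_range n).bddAbove
    refine ⟨N, fun j hj => ?_⟩
    funext w
    refine hn w j (lt_of_le_of_lt ?_ hj)
    exact_mod_cast hN ⟨w, rfl⟩
  sep x h := by
    funext w
    exact g.sep _ (fun j => congrFun (h j) w)

lemma pi_pr (W : Type) [Finite W] (j : ℤ) (f : W → M) (w : W) :
    (g.pi W).pr j f w = g.pr j (f w) := rfl

lemma pi_supp (W : Type) [Finite W] (a b : ℤ) (f : W → M) :
    (g.pi W).Supp a b f ↔ ∀ w, g.Supp a b (f w) :=
  ⟨fun h w j hj => congrFun (h j hj) w, fun h j hj => funext fun w => h w j hj⟩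

end Grading

section push

variable {C3 C2 C1 : Type} [AddCommGroup C3] [AddCommGroup C2] [AddCommGroup C1]
  (g3 : Grading C3) (g2 : Grading C2) (g1 : Grading C1)
  (d0' d1' : C3 →+ C2) (d0 d1 : C2 →+ C1)

/-- Hypotheses of the pushing lemma. -/
structure PushHyp : Prop where
  h0' : ∀ j x, g2.pr j (d0' x) = d0' (g3.pr j x)
  h1' : ∀ j x, g2.pr (j + 1) (d1' x) = d1' (g3.pr j x)
  h0 : ∀ j x, g1.pr j (d0 x) = d0 (g2.pr j x)
  h1 : ∀ j x, g1.pr (j + 1) (d1 x) = d1 (g2.pr j x)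
  hdd : ∀ x, d0 (d0' x + d1' x) + d1 (d0' x + d1' x) = 0
  ex0 : ∀ w, d0 w = 0 → ∃ u, d0' u = w
  ex1 : ∀ w, d1 w = 0 → ∃ u, d1' u = w

variable {g3 g2 g1 d0' d1' d0 d1}

lemma push_top (H : PushHyp g3 g2 g1 d0' d1' d0 d1) (m a b : ℤ) (hmb : m ≤ b) (hab : a ≤ b - 1)
    (w : C2) (hw : g2.Supp a b w) (hd : g1.Supp 0 m (d0 w + d1 w)) :
    ∃ w', d0 w' + d1 w' = d0 w + d1 w ∧ g2.Supp a (b - 1) w' := by
  have e1 : d1 (g2.pr b w) = 0 := by
    have h1 := hd (b + 1) (Or.inr (by omega))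
    rw [map_add, H.h0, H.h1, hw (b + 1) (Or.inr (by omega)), map_zero, zero_add] at h1
    exact h1
  obtain ⟨u, hu⟩ := H.ex1 _ e1
  have hu' : d1' (g3.pr (b - 1) u) = g2.pr b w := by
    have h1 := H.h1' (b - 1) u
    rw [sub_add_cancel, hu, g2.pr_same] at h1
    exact h1.symm
  refine ⟨w - (d0' (g3.pr (b - 1) u) + d1' (g3.pr (b - 1) u)), ?_, ?_⟩
  · have h1 := H.hdd (g3.pr (b - 1) u)
    rw [map_sub, map_sub, sub_add_sub_comm, h1, sub_zero]
  · intro j hj
    rw [map_sub, map_add, H.h0', hu', g3.pr_ne j (b - 1) u (by omega), map_zero, zero_add]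
    by_cases hjb : j = b
    · subst hjb
      rw [g2.pr_same, sub_self]
    · rw [g2.pr_ne j b w hjb, sub_zero]
      exact hw j (by omega)

lemma push_bot (H : PushHyp g3 g2 g1 d0' d1' d0 d1) (m a b : ℤ) (ha : a < 0) (hab : a + 1 ≤ b)
    (w : C2) (hw : g2.Supp a b w) (hd : g1.Supp 0 m (d0 w + d1 w)) :
    ∃ w', d0 w' + d1 w' = d0 w + d1 w ∧ g2.Supp (a + 1) b w' := by
  have e1 : d0 (g2.pr a w) = 0 := by
    have h1 := hd a (Or.inl ha)
    have h2 := H.h1 (a - 1) w
    rw [sub_add_cancel] at h2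
    rw [map_add, H.h0, h2, hw (a - 1) (Or.inl (by omega)), map_zero, add_zero] at h1
    exact h1
  obtain ⟨u, hu⟩ := H.ex0 _ e1
  have hu' : d0' (g3.pr a u) = g2.pr a w := by
    rw [← H.h0', hu, g2.pr_same]
  refine ⟨w - (d0' (g3.pr a u) + d1' (g3.pr a u)), ?_, ?_⟩
  · have h1 := H.hdd (g3.pr a u)
    rw [map_sub, map_sub, sub_add_sub_comm, h1, sub_zero]
  · intro j hj
    have h2 := H.h1' (j - 1) (g3.pr a u)
    rw [sub_add_cancel, g3.pr_ne (j - 1) a u (by omega), map_zero] at h2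
    rw [map_sub, map_add, hu', h2, add_zero]
    by_cases hja : j = a
    · subst hja
      rw [g2.pr_same, sub_self]
    · rw [g2.pr_ne j a w hja, sub_zero]
      exact hw j (by omega)

theorem push (H : PushHyp g3 g2 g1 d0' d1' d0 d1) (m : ℤ) (hm : 1 ≤ m) (w : C2)
    (hd : g1.Supp 0 m (d0 w + d1 w)) :
    ∃ w', d0 w' + d1 w' = d0 w + d1 w ∧ g2.Supp 0 (m - 1) w' := by
  obtain ⟨n, hn⟩ := g2.exists_supp w
  have top : ∀ k : ℕ, ∀ w : C2, g1.Supp 0 m (d0 w + d1 w) → g2.Supp (-(n + m.toNat : ℕ)) (m - 1 + k) w →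
      ∃ w', d0 w' + d1 w' = d0 w + d1 w ∧ g2.Supp (-(n + m.toNat : ℕ)) (m - 1) w' := by
    intro k
    induction k with
    | zero => intro w _ hw; exact ⟨w, rfl, by simpa using hw⟩
    | succ k ih =>
      intro w hd hw
      obtain ⟨w1, e1, s1⟩ := push_top H m (-(n + m.toNat : ℕ)) (m - 1 + (k + 1 : ℕ))
        (by push_cast; omega) (by push_cast; omega) w hw hd
      obtain ⟨w2, e2, s2⟩ := ih w1 (by rw [e1]; exact hd) (by
        convert s1 using 1
        push_cast; ring)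
      exact ⟨w2, e2.trans e1, s2⟩
  have bot : ∀ k : ℕ, ∀ w : C2, g1.Supp 0 m (d0 w + d1 w) → g2.Supp (-k) (m - 1) w →
      ∃ w', d0 w' + d1 w' = d0 w + d1 w ∧ g2.Supp 0 (m - 1) w' := by
    intro k
    induction k with
    | zero => intro w _ hw; exact ⟨w, rfl, by simpa using hw⟩
    | succ k ih =>
      intro w hd hw
      obtain ⟨w1, e1, s1⟩ := push_bot H m (-(k + 1 : ℕ)) (m - 1)
        (by push_cast; omega) (by push_cast; omega) w hw hd
      obtain ⟨w2, e2, s2⟩ := ih w1 (by rw [e1]; exact hd) (by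
        convert s1 using 1
        push_cast; ring)
      exact ⟨w2, e2.trans e1, s2⟩
  obtain ⟨w1, e1, s1⟩ := top (n + 1) w hd (by
    have := hn (n + m.toNat) (by omega)
    convert this using 1
    push_cast
    omega)
  obtain ⟨w2, e2, s2⟩ := bot _ w1 (by rw [e1]; exact hd) s1
  exact ⟨w2, e2.trans e1, s2⟩

end push

end Pool.Agent.helper4
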