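import Pool.Agent.helper4.Fox

/-!
The right-angled Artin group attached to the data, and exactness of its complex.
-/

namespace Pool.Agent.helper4

set_option linter.unusedSectionVars false
set_option linter.unusedSimpArgs false
set_option linter.unusedVariables false

section

variable {X Y Z : Type} (A : Z → Fin 2 → X) (B : Z → Fin 2 → Y)

/-- Adjacency in the defining graph. -/
inductive Adj : W1 X Y Z → W1 X Y Z → Prop
  | xy (a : X) (b : Y) : Adj (Sum.inl a) (Sum.inr (Sum.inl b))
  | xc (i : Z) (s : Fin 2) : Adj (Sum.inl (A i s)) (Sum.inr (Sum.inr i))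
  | yc (i : Z) (t : Fin 2) : Adj (Sum.inr (Sum.inl (B i t))) (Sum.inr (Sum.inr i))

/-- The commutation relators. -/
def relators : Set (FreeGroup (W1 X Y Z)) :=
  {r | ∃ v w, Adj A B v w ∧
    r = FreeGroup.of v * FreeGroup.of w * (FreeGroup.of w * FreeGroup.of v)⁻¹}

/-- The right-angled Artin group. -/
abbrev Gam : Type := PresentedGroup (relators A B)

/-- The generators. -/
def gen (v : W1 X Y Z) : Gam A B := PresentedGroup.of v

lemma gen_comm {v w : W1 X Y Z} (h : Adj A B v w) : gen A B v * gen A B w =
    gen A B w * gen A B v := by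
  have h1 : PresentedGroup.mk (relators A B)
      (FreeGroup.of v * FreeGroup.of w * (FreeGroup.of w * FreeGroup.of v)⁻¹) = 1 :=
    PresentedGroup.one_of_mem ⟨v, w, h, rfl⟩
  rw [map_mul, map_inv, mul_inv_eq_one, map_mul, map_mul] at h1
  exact h1

/-- Homomorphisms out of the group. -/
def gamLift {H : Type} [Group H] (f : W1 X Y Z → H)
    (h : ∀ v w, Adj A B v w → f v * f w = f w * f v) : Gam A B →* H :=
  PresentedGroup.toGroup (f := f) (by
    rintro _ ⟨v, w, hvw, rfl⟩
    rw [map_mul, map_inv, mul_inv_eq_one, map_mul, map_mul]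
    simp only [FreeGroup.lift_apply_of]
    exact h v w hvw)

@[simp] lemma gamLift_gen {H : Type} [Group H] (f : W1 X Y Z → H)
    (h : ∀ v w, Adj A B v w → f v * f w = f w * f v) (v : W1 X Y Z) :
    gamLift A B f h (gen A B v) = f v := PresentedGroup.toGroup.of _

lemma gen_closure : Subgroup.closure (Set.range (gen A B)) = ⊤ :=
  PresentedGroup.closure_range_of _

/-- The height character. -/
def chi : Gam A B →* Multiplicative ℤ :=
  gamLift A B (fun _ => Multiplicative.ofAdd 1) (fun _ _ _ => rfl)

lemma ht_gen (v : W1 X Y Z) : ht (chi A B) (gen A B v) = 1 := by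
  simp [ht, chi]

/-- The generators of the three kinds. -/
def gX (a : X) : Gam A B := gen A B (Sum.inl a)
/-- The generators of the three kinds. -/
def gY (b : Y) : Gam A B := gen A B (Sum.inr (Sum.inl b))
/-- The generators of the three kinds. -/
def gC (i : Z) : Gam A B := gen A B (Sum.inr (Sum.inr i))

lemma gam_gens : Gens A B (chi A B) (gX A B) (gY A B) (gC A B) where
  hx a := ht_gen A B _
  hy a := ht_gen A B _
  hc a := ht_gen A B _
  xy a b := gen_comm A B (Adj.xy a b)
  xc i s := gen_comm A B (Adj.xc i s)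
  yc i t := gen_comm A B (Adj.yc i t)

/-- Inclusion of the free group on the second kind of generators. -/
def iotaY : FreeGroup Y →* Gam A B := FreeGroup.lift (gY A B)
/-- Inclusion of the free group on the first kind of generators. -/
def iotaX : FreeGroup X →* Gam A B := FreeGroup.lift (gX A B)

/-- Retraction onto the free group on the second kind of generators. -/
def retY : Gam A B →* FreeGroup Y :=
  gamLift A B (Sum.elim (fun _ => 1) (Sum.elim FreeGroup.of (fun _ => 1)))
    (by rintro _ _ (⟨a, b⟩ | ⟨i, s⟩ | ⟨i, t⟩) <;> simp)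

/-- Retraction onto the free group on the first kind of generators. -/
def retX : Gam A B →* FreeGroup X :=
  gamLift A B (Sum.elim FreeGroup.of (fun _ => 1))
    (by rintro _ _ (⟨a, b⟩ | ⟨i, s⟩ | ⟨i, t⟩) <;> simp)

lemma retY_iotaY (w : FreeGroup Y) : retY A B (iotaY A B w) = w := by
  have : (retY A B).comp (iotaY A B) = MonoidHom.id _ := by
    ext y
    simp [retY, iotaY, gY]
  exact DFunLike.congr_fun this w

lemma retX_iotaX (w : FreeGroup X) : retX A B (iotaX A B w) = w := by
  have : (retX A B).comp (iotaX A B) = MonoidHom.id _ := by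
    ext y
    simp [retX, iotaX, gX]
  exact DFunLike.congr_fun this w

lemma iotaY_comm (w : FreeGroup Y) (a : X) : iotaY A B w * gX A B a = gX A B a * iotaY A B w := by
  refine FreeGroup.induction_on
    (C := fun w => iotaY A B w * gX A B a = gX A B a * iotaY A B w) w ?_ ?_ ?_ ?_
  · simp
  · intro y
    simp only [iotaY, FreeGroup.lift_apply_of]
    exact ((gam_gens A B).xy a y).symm
  · intro y hy
    rw [map_inv, inv_mul_eq_iff_eq_mul, ← mul_assoc, hy, mul_assoc, mul_inv_cancel, mul_one]
  · intro u v hu hv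
    rw [map_mul, mul_assoc, hv, ← mul_assoc, hu, mul_assoc]

end

section

variable {X Y Z : Type} [Fintype X] [Fintype Y] [Fintype Z] [DecidableEq X] [DecidableEq Y]
  [DecidableEq Z] (A : Z → Fin 2 → X) (B : Z → Fin 2 → Y) {x0 : X} {y0 : Y} {Λ : Z → X → Y → ℤ}

lemma bd1_eq (v : W1 X Y Z) : bd1 (fun a => el (gX A B a) + -1) (fun b => el (gY A B b) + -1)
    (fun i => el (gC A B i) + -1) v = el (gen A B v) + -1 := by
  rcases v with a | b | i <;> rfl

lemma exact0 (r : ZG (Gam A B)) (hr : augm (Gam A B) r = 0) :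
    ∃ ζ : W1 X Y Z → ZG (Gam A B), D1 (gX A B) (gY A B) (gC A B) ζ = r := by
  have h1 : r ∈ J (Set.range (gen A B)) := by
    rw [← J_closure, gen_closure]
    exact (mem_IG_iff r).2 hr
  have h2 : J (Set.range (gen A B)) ≤ LinearMap.range (D1 (gX A B) (gY A B) (gC A B)) := by
    refine Submodule.span_le.2 ?_
    rintro _ ⟨_, ⟨v, rfl⟩, rfl⟩
    refine ⟨Pi.single v 1, ?_⟩
    rw [D1, T1_single, one_mul, bd1_eq]
    exact (sub_eq_add_neg _ _).symm
  exact h2 h1

/-- The target of the universal derivation. -/
abbrev MM : Type := (W1 X Y Z → ZG (Gam A B)) ⧸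
  (LinearMap.range (D2 A B (gX A B) (gY A B) (gC A B)))

/-- The action of a group on a module over its group ring. -/
noncomputable def modAct (G M : Type) [Group G] [AddCommGroup M] [Module (ZG G) M] :
    G →* AddMonoid.End M where
  toFun g := DistribMulAction.toAddMonoidEnd (ZG G) M (el g)
  map_one' := by
    refine DFunLike.ext _ _ fun x => ?_
    show el (1 : G) • x = x
    rw [el_one, one_smul]
  map_mul' a b := by
    refine DFunLike.ext _ _ fun x => ?_
    show el (a * b) • x = el a • el b • x
    rw [el_mul, mul_smul]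

lemma modAct_apply (G M : Type) [Group G] [AddCommGroup M] [Module (ZG G) M] (g : G) (m : M) :
    modAct G M g m = el g • m := rfl

/-- The class of a basis vector. -/
noncomputable def mcl (v : W1 X Y Z) : MM A B :=
  Submodule.Quotient.mk (Pi.single v 1)

lemma mcl_rel {v w : W1 X Y Z} (h : Adj A B v w) :
    mcl A B v + el (gen A B v) • mcl A B w = mcl A B w + el (gen A B w) • mcl A B v := by
  have h1 : ∃ e : W2 X Y Z, bd2 A B (fun a => el (gX A B a) + -1) (fun b => el (gY A B b) + -1)
      (fun i => el (gC A B i) + -1) e =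
        Pi.single w (el (gen A B v) + -1) - Pi.single v (el (gen A B w) + -1) := by
    rcases h with ⟨a, b⟩ | ⟨i, s⟩ | ⟨i, t⟩
    · exact ⟨Sum.inl (a, b), rfl⟩
    · exact ⟨Sum.inr (Sum.inl (i, s)), rfl⟩
    · exact ⟨Sum.inr (Sum.inr (i, t)), rfl⟩
  obtain ⟨e, he⟩ := h1
  have h2 : (Submodule.Quotient.mk (Pi.single w (el (gen A B v) + -1) -
      Pi.single v (el (gen A B w) + -1)) : MM A B) = 0 := by
    rw [Submodule.Quotient.mk_eq_zero]
    refine ⟨Pi.single e 1, ?_⟩
    rw [D2, T2_single, one_smul, he]
  have h3 : ∀ (u : W1 X Y Z) (g : Gam A B), (Pi.single u (el g + -1) : W1 X Y Z → ZG (Gam A B)) =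
      el g • Pi.single u 1 - Pi.single u 1 := by
    intro u g
    rw [← Pi.single_smul, ← Pi.single_sub, smul_eq_mul, mul_one, sub_eq_add_neg]
  rw [h3, h3, Submodule.Quotient.mk_sub, Submodule.Quotient.mk_sub, Submodule.Quotient.mk_sub,
    Submodule.Quotient.mk_smul, Submodule.Quotient.mk_smul] at h2
  show (Submodule.Quotient.mk (Pi.single v 1) : MM A B) +
    el (gen A B v) • Submodule.Quotient.mk (Pi.single w 1) =
    Submodule.Quotient.mk (Pi.single w 1) + el (gen A B w) • Submodule.Quotient.mk (Pi.single v 1)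
  rw [← sub_eq_zero, ← h2]
  abel

/-- The universal derivation. -/
noncomputable def univDer : Gam A B →* Aff (modAct (Gam A B) (MM A B)) :=
  gamLift A B (fun v => ⟨mcl A B v, gen A B v⟩) (by
    intro v w h
    apply Aff.ext'
    · simp only [Aff.mul_vec, modAct_apply]
      exact mcl_rel A B h
    · exact gen_comm A B h)

lemma univDer_lin (g : Gam A B) : (univDer A B g).lin = g := by
  have : (Aff.linHom (ρ := modAct (Gam A B) (MM A B))).comp (univDer A B) = MonoidHom.id _ := by
    apply PresentedGroup.ext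
    intro v
    show (univDer A B (gen A B v)).lin = gen A B v
    rw [univDer, gamLift_gen]
  exact DFunLike.congr_fun this g

lemma univDer_mul (g : Gam A B) (v : W1 X Y Z) :
    (univDer A B (g * gen A B v)).vec = (univDer A B g).vec + el g • mcl A B v := by
  rw [map_mul, Aff.mul_vec, univDer_lin, modAct_apply]
  congr 2
  rw [univDer, gamLift_gen]

lemma exact1 (ζ : W1 X Y Z → ZG (Gam A B)) (hζ : D1 (gX A B) (gY A B) (gC A B) ζ = 0) :
    ∃ ξ, D2 A B (gX A B) (gY A B) (gC A B) ξ = ζ := by
  let D : ZG (Gam A B) →+ MM A B := addLift (fun g => (univDer A B g).vec)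
  have hD : ∀ (r : ZG (Gam A B)) (v : W1 X Y Z), D (r * (el (gen A B v) + -1)) = r • mcl A B v := by
    intro r v
    induction r using zg_induction with
    | zero => simp
    | el g =>
      rw [mul_add, ← el_mul, map_add, mul_neg, mul_one, map_neg]
      show addLift _ _ + -addLift _ _ = _
      rw [addLift_el, addLift_el, univDer_mul]
      abel
    | add a b ha hb => rw [add_mul, map_add, ha, hb, add_smul]
    | neg a ha => rw [neg_mul, map_neg, ha, neg_smul]
  have h1 : D1 (gX A B) (gY A B) (gC A B) ζ = ∑ v, ζ v * (el (gen A B v) + -1) := by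
    rw [D1, T1, Fintype.linearCombination_apply]
    refine Finset.sum_congr rfl fun v _ => ?_
    rw [bd1_eq, smul_eq_mul]
  have h2 : ∑ v, ζ v • mcl A B v = 0 := by
    have h3 := congrArg D hζ
    rw [h1, map_sum, map_zero] at h3
    simpa only [hD] using h3
  have h4 : (Submodule.Quotient.mk ζ : MM A B) = ∑ v, ζ v • mcl A B v := by
    have h5 : ζ = ∑ v, ζ v • (Pi.single v (1 : ZG (Gam A B)) : W1 X Y Z → ZG (Gam A B)) := by
      funext w
      rw [Finset.sum_apply, Finset.sum_eq_single w]
      · simp
      · intro v _ hv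
        simp [Pi.single_eq_of_ne (Ne.symm hv)]
      · simp
    conv_lhs => rw [h5]
    show Submodule.mkQ _ (∑ v, ζ v • (Pi.single v (1 : ZG (Gam A B)) : _)) = _
    rw [map_sum]
    refine Finset.sum_congr rfl fun v _ => ?_
    rw [map_smul]
    rfl
  rw [h2, Submodule.Quotient.mk_eq_zero] at h4
  exact h4

end

end Pool.Agent.helper4
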