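import Pool.Agent.helper4.Raag

/-!
Exactness of the complex of the right-angled Artin group in degree two, and the conclusion.
-/

namespace Pool.Agent.helper4

set_option linter.unusedSectionVars false
set_option linter.unusedSimpArgs false
set_option linter.unusedVariables false

section

variable {X Y Z : Type} [Fintype X] [Fintype Y] [Fintype Z] [DecidableEq X] [DecidableEq Y]
  [DecidableEq Z] {A : Z → Fin 2 → X} {B : Z → Fin 2 → Y} {x0 : X} {y0 : Y} {Λ : Z → X → Y → ℤ}

lemma Cert.A_ne (h : Cert A B x0 y0 Λ) (i : Z) : A i 0 ≠ A i 1 := by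
  intro h0
  have h1 := h.left i i
  simp only [bet, h0, sub_self, zero_mul, mul_zero, Finset.sum_const_zero, dl] at h1
  simp at h1

lemma Cert.B_ne (h : Cert A B x0 y0 Λ) (i : Z) : B i 0 ≠ B i 1 := by
  intro h0
  have h1 := h.left i i
  simp only [bet, h0, sub_self, mul_zero, Finset.sum_const_zero, dl] at h1
  simp at h1

lemma Cert.A_inj (h : Cert A B x0 y0 Λ) (i : Z) : Function.Injective (A i) := by
  intro s t hst
  have := h.A_ne i
  fin_cases s <;> fin_cases t <;> simp_all

lemma Cert.B_inj (h : Cert A B x0 y0 Λ) (i : Z) : Function.Injective (B i) := by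
  intro s t hst
  have := h.B_ne i
  fin_cases s <;> fin_cases t <;> simp_all

variable (A B)

/-- Fox derivatives in the second kind of generators. -/
noncomputable abbrev dY (b : Y) : ZG (Gam A B) →+ ZG (Gam A B) := foxG (iotaY A B) (retY A B) b
/-- Fox derivatives in the first kind of generators. -/
noncomputable abbrev dX (a : X) : ZG (Gam A B) →+ ZG (Gam A B) := foxG (iotaX A B) (retX A B) a

lemma dY_y (b b' : Y) (r : ZG (Gam A B)) :
    dY A B b (r * (el (gY A B b') + -1)) = if b' = b then r else 0 := by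
  have h1 := foxG_mul_of (ι := iotaY A B) (r := retY A B) (retY_iotaY A B) b b' r
  have e : iotaY A B (FreeGroup.of b') = gY A B b' := FreeGroup.lift_apply_of
  rw [e] at h1
  exact h1

lemma dX_x (b b' : X) (r : ZG (Gam A B)) :
    dX A B b (r * (el (gX A B b') + -1)) = if b' = b then r else 0 := by
  have h1 := foxG_mul_of (ι := iotaX A B) (r := retX A B) (retX_iotaX A B) b b' r
  have e : iotaX A B (FreeGroup.of b') = gX A B b' := FreeGroup.lift_apply_of
  rw [e] at h1
  exact h1

lemma dY_x (b : Y) (a : X) (r : ZG (Gam A B)) :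
    dY A B b (r * (el (gX A B a) + -1)) = dY A B b r * (el (gX A B a) + -1) := by
  refine foxG_mul_comm b (gX A B a) (fun w => iotaY_comm A B w a) ?_ r
  simp [retY, gX]

lemma double_sum_aux {R : Type} [Ring R] (q r x y : Fin 2 → R) (η : Fin 2 → Fin 2 → R)
    (hxy : ∀ s t, x s * y t = y t * x s) (hr : ∀ t, ∑ s, η s t * x s = r t)
    (h : ∑ s, q s * x s + ∑ t, r t * y t = 0) :
    ∑ s, (q s + ∑ t, η s t * y t) * x s = 0 := by
  rw [← h]
  simp only [← hr, add_mul, Finset.sum_add_distrib, Finset.sum_mul]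
  congr 1
  rw [Finset.sum_comm]
  refine Finset.sum_congr rfl fun t _ => Finset.sum_congr rfl fun s _ => ?_
  rw [mul_assoc, mul_assoc, hxy]

lemma exact2 (hc : Cert A B x0 y0 Λ) (ξ : W2 X Y Z → ZG (Gam A B))
    (hξ : D2 A B (gX A B) (gY A B) (gC A B) ξ = 0) :
    ∃ η, D3 A B (gX A B) (gY A B) (gC A B) η = ξ := by
  have hcomm := (gam_gens A B).comm'
  let η : W3 Z → ZG (Gam A B) := fun σ =>
    -dY A B (B σ.1 σ.2.2) (ξ (Sum.inr (Sum.inl (σ.1, σ.2.1))))
  have hEi : ∀ i, ∑ s, ξ (Sum.inr (Sum.inl (i, s))) * (el (gX A B (A i s)) + -1) +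
      ∑ t, ξ (Sum.inr (Sum.inr (i, t))) * (el (gY A B (B i t)) + -1) = 0 := by
    intro i
    have h1 := congrFun hξ (Sum.inr (Sum.inr i))
    rw [D2, T2_i] at h1
    exact h1
  have hr : ∀ i t, ∑ s, η (i, s, t) * (el (gX A B (A i s)) + -1) =
      ξ (Sum.inr (Sum.inr (i, t))) := by
    intro i t
    have h1 := congrArg (dY A B (B i t)) (hEi i)
    rw [map_add, map_sum, map_sum, map_zero] at h1
    simp only [dY_x, dY_y] at h1
    have h2 : ∑ t', (if B i t' = B i t then ξ (Sum.inr (Sum.inr (i, t'))) else 0) =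
        ξ (Sum.inr (Sum.inr (i, t))) := by
      rw [Finset.sum_eq_single t]
      · simp
      · intro t' _ ht'
        rw [if_neg]
        intro h; exact ht' (hc.B_inj i h)
      · simp
    rw [h2] at h1
    simp only [η, neg_mul, Finset.sum_neg_distrib]
    exact neg_eq_of_add_eq_zero_right h1
  have hq : ∀ i s, -∑ t, η (i, s, t) * (el (gY A B (B i t)) + -1) =
      ξ (Sum.inr (Sum.inl (i, s))) := by
    intro i s
    have h1 : ∑ s, (ξ (Sum.inr (Sum.inl (i, s))) +
        ∑ t, η (i, s, t) * (el (gY A B (B i t)) + -1)) * (el (gX A B (A i s)) + -1) = 0 :=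
      double_sum_aux _ _ _ _ _ (fun s t => hcomm.xy (A i s) (B i t)) (hr i) (hEi i)
    have h2 := congrArg (dX A B (A i s)) h1
    rw [map_sum, map_zero] at h2
    simp only [dX_x] at h2
    rw [Finset.sum_eq_single s, if_pos rfl] at h2
    · exact neg_eq_of_add_eq_zero_left h2
    · intro s' _ hs'
      rw [if_neg]
      intro h; exact hs' (hc.A_inj i h)
    · simp
  refine ⟨η, ?_⟩
  rw [← sub_eq_zero]
  set θ := D3 A B (gX A B) (gY A B) (gC A B) η - ξ with hθ
  have hθ0 : D2 A B (gX A B) (gY A B) (gC A B) θ = 0 := by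
    rw [hθ, map_sub, hξ, sub_zero]
    exact T2_T3 hcomm η
  have hθq : ∀ i s, θ (Sum.inr (Sum.inl (i, s))) = 0 := by
    intro i s
    rw [hθ, Pi.sub_apply, D3, T3_q, hq, sub_self]
  have hθr : ∀ i s, θ (Sum.inr (Sum.inr (i, s))) = 0 := by
    intro i s
    rw [hθ, Pi.sub_apply, D3, T3_r, hr, sub_self]
  have hθp : ∀ a b, θ (Sum.inl (a, b)) = 0 := by
    intro a b
    have h1 := congrFun hθ0 (Sum.inl a)
    rw [D2, T2_a] at h1
    simp only [hθq, zero_mul, ite_self, Finset.sum_const_zero, sub_zero, Pi.zero_apply,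
      neg_eq_zero] at h1
    have h2 := congrArg (dY A B b) h1
    rw [map_sum, map_zero] at h2
    simp only [dY_y] at h2
    rw [Finset.sum_ite_eq'] at h2
    simpa using h2
  funext w
  rcases w with ⟨a, b⟩ | ⟨i, s⟩ | ⟨i, t⟩
  · exact hθp a b
  · exact hθq i s
  · exact hθr i t

/-- The kernel of the height character is of type `FP_3`. -/
theorem ker_chi_FP3 (hc : Cert A B x0 y0 Λ) :
    FPn (ZG (chi A B).ker) 3 (Triv (chi A B).ker) :=
  FP3_of_exact hc (gam_gens A B) (exact0 A B) (exact1 A B) (exact2 A B hc)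

end

end Pool.Agent.helper4
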