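import Pool.Agent.helper4.FPn

/-!
Transfer between modules over the group ring and representations.
-/

namespace Pool.Agent.helper4

open CategoryTheory

variable {G : Type} [Group G]

/-- Finite generation of a representation over the group ring. -/
def FgRep (M : Rep.{0} ℤ G) : Prop :=
  ∃ s : Finset M.V, ∀ x : M.V,
    x ∈ Submodule.span ℤ (Set.range (fun p : G × s => M.ρ p.1 (p.2 : M.V)))

lemma mem_span_int_iff' {M : Type} [AddCommGroup M] (S : Set M) (x : M) :
    x ∈ Submodule.span ℤ S ↔ x ∈ AddSubgroup.closure S := by
  rw [← Submodule.span_int_eq_addSubgroupClosure]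
  rfl

/-- Finite generation in terms of any module over the group ring identified with the
representation. -/
lemma fgRep_iff_finite {A : Type} [AddCommGroup A] [Module (ZG G) A] (M : Rep.{0} ℤ G)
    (e : A ≃+ M.V) (he : ∀ (g : G) (a : A), e (el g • a) = M.ρ g (e a)) :
    FgRep M ↔ Module.Finite (ZG G) A := by
  classical
  constructor
  · rintro ⟨s, hs⟩
    refine ⟨⟨s.image e.symm, ?_⟩⟩
    rw [eq_top_iff]
    rintro a -
    have h1 := hs (e a)
    rw [mem_span_int_iff'] at h1
    have h2 : ∀ y ∈ AddSubgroup.closure (Set.range (fun p : G × s => M.ρ p.1 (p.2 : M.V))),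
        e.symm y ∈ Submodule.span (ZG G) ((s.image e.symm : Finset A) : Set A) := by
      intro y hy
      refine AddSubgroup.closure_induction (p := fun y _ =>
        e.symm y ∈ Submodule.span (ZG G) ((s.image e.symm : Finset A) : Set A)) ?_ ?_ ?_ ?_ hy
      · rintro _ ⟨⟨g, t⟩, rfl⟩
        have h3 : e.symm (M.ρ g (t : M.V)) = el g • e.symm t := by
          rw [AddEquiv.symm_apply_eq, he, AddEquiv.apply_symm_apply]
        simp only [h3]
        refine Submodule.smul_mem _ _ (Submodule.subset_span ?_)
        exact Finset.mem_coe.2 (Finset.mem_image_of_mem _ t.2)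
      · rw [map_zero]; exact zero_mem _
      · intro x y _ _ hx hy; rw [map_add]; exact add_mem hx hy
      · intro x _ hx; rw [map_neg]; exact neg_mem hx
    have h4 := h2 _ h1
    rwa [AddEquiv.symm_apply_apply] at h4
  · rintro ⟨s, hs⟩
    refine ⟨s.image e, fun x => ?_⟩
    rw [mem_span_int_iff']
    set N : AddSubgroup M.V := AddSubgroup.closure
      (Set.range (fun p : G × (s.image e) => M.ρ p.1 (p.2 : M.V))) with hN
    have h1 : ∀ g : G, ∀ y ∈ N, M.ρ g y ∈ N := by
      intro g y hy
      refine AddSubgroup.closure_induction (p := fun y _ => M.ρ g y ∈ N) ?_ ?_ ?_ ?_ hy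
      · rintro _ ⟨⟨h, t⟩, rfl⟩
        have h5 : M.ρ g (M.ρ h (t : M.V)) = M.ρ (g * h) (t : M.V) := by
          rw [map_mul]; rfl
        show M.ρ g (M.ρ h t) ∈ N
        rw [h5]
        exact AddSubgroup.subset_closure ⟨(g * h, t), rfl⟩
      · rw [map_zero]; exact zero_mem _
      · intro a b _ _ ha hb
        rw [map_add]; exact add_mem ha hb
      · intro a _ ha
        rw [map_neg]; exact neg_mem ha
    have h2 : ∀ r : ZG G, ∀ y : A, e y ∈ N → e (r • y) ∈ N := by
      intro r
      induction r using zg_induction with
      | zero => intro y _; rw [zero_smul, map_zero]; exact zero_mem _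
      | el g => intro y hy; rw [he]; exact h1 g _ hy
      | add a b ha hb => intro y hy; rw [add_smul, map_add]; exact add_mem (ha y hy) (hb y hy)
      | neg a ha => intro y hy; rw [neg_smul, map_neg]; exact neg_mem (ha y hy)
    have h3 : ∀ y : A, y ∈ Submodule.span (ZG G) (s : Set A) → e y ∈ N := by
      intro y hy
      refine Submodule.span_induction (p := fun y _ => e y ∈ N) ?_ ?_ ?_ ?_ hy
      · intro t ht
        refine AddSubgroup.subset_closure ⟨(1, ⟨e t, Finset.mem_image_of_mem _ ht⟩), ?_⟩
        simp
      · rw [map_zero]; exact zero_mem _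
      · intro a b _ _ ha hb; rw [map_add]; exact add_mem ha hb
      · intro r y _ hy; exact h2 r y hy
    have := h3 (e.symm x) (by rw [hs]; trivial)
    rwa [AddEquiv.apply_symm_apply] at this

/-- The trivial module over the integral group ring. -/
def Triv (G : Type) : Type := ℤ

instance : AddCommGroup (Triv G) := inferInstanceAs (AddCommGroup ℤ)

/-- The augmentation as a ring homomorphism. -/
noncomputable def augRing (G : Type) [Group G] : ZG G →+* ℤ where
  toFun := augm G
  map_one' := by rw [← el_one]; exact addLift_el _ _
  map_mul' := augm_mul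
  map_zero' := map_zero _
  map_add' := map_add _

noncomputable instance : Module (ZG G) (Triv G) :=
  Module.compHom ℤ (augRing G)

lemma triv_smul (r : ZG G) (x : Triv G) : r • x = (augm G r * (show ℤ from x) : ℤ) := rfl

instance ofModAdditive : (Rep.ofModuleMonoidAlgebra (k := ℤ) (G := G)).Additive where
  map_add := by intros; rfl

instance toModAdditive : (Rep.toModuleMonoidAlgebra (k := ℤ) (G := G)).Additive where
  map_add := by intros; rfl

/-- Transport of a projective resolution along an isomorphism. -/
noncomputable def resOfIso {C : Type*} [Category* C] [Abelian C] {Z Z' : C} (e : Z ≅ Z')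
    (R : ProjectiveResolution Z) : ProjectiveResolution Z' where
  complex := R.complex
  projective := R.projective
  π := R.π ≫ (ChainComplex.single₀ C).map e.hom
  quasiIso := inferInstance

/-- Identification of a representation built from a module with the trivial one. -/
noncomputable def equivTrivial {k : Type} [CommRing k] (M : Type) [AddCommGroup M]
    [Module (MonoidAlgebra k G) M] (e : M ≃+ k)
    (h1 : ∀ (g : G) (x : M), e (MonoidAlgebra.single g (1 : k) • x) = e x)
    (h2 : ∀ (a : k) (x : M), e (algebraMap k (MonoidAlgebra k G) a • x) = a • e x) :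
    (Representation.ofModule (k := k) (G := G) M).Equiv (Representation.trivial k G k) :=
  Representation.Equiv.mk
    { toFun := fun x => e (RestrictScalars.addEquiv k (MonoidAlgebra k G) M x)
      invFun := fun x => (RestrictScalars.addEquiv k (MonoidAlgebra k G) M).symm (e.symm x)
      left_inv := fun x => by simp
      right_inv := fun x => by simp
      map_add' := fun x y => by simp
      map_smul' := fun r x => h2 r x } 
    (by
      intro g
      ext x
      exact h1 g x)

set_option backward.isDefEq.respectTransparency false in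
/-- Identification of a representation built from a module with the trivial one. -/
noncomputable def isoTrivial {k : Type} [CommRing k] (M : Type) [AddCommGroup M]
    [Module (MonoidAlgebra k G) M] (e : M ≃+ k)
    (h1 : ∀ (g : G) (x : M), e (MonoidAlgebra.single g (1 : k) • x) = e x)
    (h2 : ∀ (a : k) (x : M), e (algebraMap k (MonoidAlgebra k G) a • x) = a • e x) :
    (Rep.ofModuleMonoidAlgebra (k := k) (G := G)).obj
    (ModuleCat.of (MonoidAlgebra k G) M) ≅ Rep.trivial k G k :=
  let i : Rep.of (Representation.ofModule (k := k) (G := G) M) ≅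
      Rep.of (Representation.trivial k G k) := Rep.mkIso (equivTrivial M e h1 h2)
  i

/-- The module over the group ring attached to the trivial representation. -/
noncomputable def trivIso : (Rep.ofModuleMonoidAlgebra (k := ℤ) (G := G)).obj
    (ModuleCat.of (ZG G) (Triv G)) ≅ Rep.trivial ℤ G ℤ :=
  isoTrivial (k := ℤ) (Triv G) (AddEquiv.refl ℤ)
    (by
      intro g x
      show (augm G (el g) * (show ℤ from x) : ℤ) = x
      rw [addLift_el, one_mul])
    (by
      intro a x
      show (augm G (algebraMap ℤ (MonoidAlgebra ℤ G) a) * (show ℤ from x) : ℤ) =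
        a * (show ℤ from x)
      congr 1
      have : algebraMap ℤ (MonoidAlgebra ℤ G) a = MonoidAlgebra.single 1 a := rfl
      rw [this, addLift_single]
      simp)

theorem exists_rep_resolution_of_FPn (n : ℕ) (h : FPn (ZG G) n (Triv G)) :
    ∃ R : ProjectiveResolution (Rep.trivial ℤ G ℤ), ∀ k ≤ n,
        ∃ s : Finset (R.complex.X k).V, ∀ x : (R.complex.X k).V,
          x ∈ Submodule.span ℤ
            (Set.range (fun p : G × s => (R.complex.X k).ρ p.1 (p.2 : (R.complex.X k).V))) := by
  obtain ⟨R, hR⟩ := exists_resolution_of_FPn (ZG G) n (Triv G) h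
  let R' := (Rep.ofModuleMonoidAlgebra (k := ℤ) (G := G)).mapProjectiveResolution R
  refine ⟨resOfIso trivIso R', ?_⟩
  intro k hk
  have h1 := hR k hk
  have h2 : FgRep ((Rep.ofModuleMonoidAlgebra (k := ℤ) (G := G)).obj (R.complex.X k)) := by
    rw [fgRep_iff_finite (A := R.complex.X k) _
      (RestrictScalars.addEquiv ℤ (ZG G) (R.complex.X k)).symm]
    · exact h1
    · intro g a; rfl
  exact h2

end Pool.Agent.helper4
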