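import Pool.Agent.helper4.RepTransfer

/-!
Finite presentation of the augmentation ideal from a partial resolution.
-/

namespace Pool.Agent.helper4

open CategoryTheory

lemma schanuel_fp {S T P Q : Type} [Ring S] [AddCommGroup T] [Module S T] [AddCommGroup P]
    [Module S P] [AddCommGroup Q] [Module S Q] [Module.Finite S P] [Module.Projective S P]
    [Module.Finite S Q] [Module.Projective S Q] (f : P →ₗ[S] T) (g : Q →ₗ[S] T)
    (hf : Function.Surjective f) (hg : Function.Surjective g)
    (h : Module.FinitePresentation S (LinearMap.ker f)) :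
    Module.FinitePresentation S (LinearMap.ker g) := by
  let X : Submodule S (P × Q) := LinearMap.ker (f ∘ₗ LinearMap.fst S P Q - g ∘ₗ LinearMap.snd S P Q)
  have hX : ∀ z : P × Q, z ∈ X ↔ f z.1 = g z.2 := by
    intro z
    simp only [X, LinearMap.mem_ker, LinearMap.sub_apply, LinearMap.comp_apply,
      LinearMap.fst_apply, LinearMap.snd_apply, sub_eq_zero]
  let a : X →ₗ[S] Q := LinearMap.snd S P Q ∘ₗ X.subtype
  let b : X →ₗ[S] P := LinearMap.fst S P Q ∘ₗ X.subtype
  have ha : Function.Surjective a := by
    intro q
    obtain ⟨p, hp⟩ := hf (g q)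
    exact ⟨⟨(p, q), (hX _).2 hp⟩, rfl⟩
  have hb : Function.Surjective b := by
    intro p
    obtain ⟨q, hq⟩ := hg (f p)
    exact ⟨⟨(p, q), (hX _).2 hq.symm⟩, rfl⟩
  have fpQ : Module.FinitePresentation S Q := Module.finitePresentation_of_projective S Q
  let e : LinearMap.ker f ≃ₗ[S] LinearMap.ker a :=
    { toFun := fun p => ⟨⟨(p.1, 0), (hX _).2 (by simp)⟩, by simp [a]⟩
      invFun := fun z => ⟨z.1.1.1, by
        have h1 := (hX _).1 z.1.2
        have h2 : z.1.1.2 = 0 := z.2
        rw [LinearMap.mem_ker, h1, h2, map_zero]⟩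
      left_inv := fun p => rfl
      right_inv := fun z => by
        have h2 : z.1.1.2 = 0 := z.2
        apply Subtype.ext; apply Subtype.ext
        exact Prod.ext rfl h2.symm
      map_add' := fun p q => by
        apply Subtype.ext; apply Subtype.ext
        exact Prod.ext rfl (by simp)
      map_smul' := fun r q => by
        apply Subtype.ext; apply Subtype.ext
        exact Prod.ext rfl (by simp) }
  have fpk : Module.FinitePresentation S (LinearMap.ker a) :=
    Module.FinitePresentation.of_equiv (R := S) (M := LinearMap.ker f) (N := LinearMap.ker a) e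
  have fpX : Module.FinitePresentation S X := Module.finitePresentation_of_ker a ha
  let c : LinearMap.ker g →ₗ[S] X :=
    { toFun := fun q => ⟨(0, q.1), (hX _).2 (by simp)⟩
      map_add' := fun p q => by
        apply Subtype.ext
        exact Prod.ext (by simp) rfl
      map_smul' := fun r q => by
        apply Subtype.ext
        exact Prod.ext (by simp) rfl }
  have hc : Function.Injective c := by
    intro x y hxy
    have : (c x).1.2 = (c y).1.2 := by rw [hxy]
    exact Subtype.ext this
  refine Module.finitePresentation_of_projective_of_exact c b hc hb ?_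
  intro z
  constructor
  · intro hz
    have h2 : z.1.1 = 0 := hz
    have h1 := (hX _).1 z.2
    refine ⟨⟨z.1.2, by rw [LinearMap.mem_ker, ← h1, h2, map_zero]⟩, ?_⟩
    apply Subtype.ext
    exact Prod.ext h2.symm rfl
  · rintro ⟨q, rfl⟩
    rfl

/-- The kernel of the augmentation of a resolution with finitely generated terms in low degrees
is finitely presented. -/
lemma fp_ker_of_resolution {S : Type} [Ring S] {T : ModuleCat.{0} S}
    (R : ProjectiveResolution T) (h : ∀ k ≤ 2, Module.Finite S (R.complex.X k)) :
    ∃ f : R.complex.X 0 →ₗ[S] T, Function.Surjective f ∧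
      Module.FinitePresentation S (LinearMap.ker f) := by
  have h0 := h 0 (by norm_num)
  have h1 := h 1 (by norm_num)
  have h2 := h 2 (by norm_num)
  have p1 : Module.Projective S (R.complex.X 1) :=
    (IsProjective.iff_projective (R := S) (R.complex.X 1)).2 (R.projective 1)
  have fp1 : Module.FinitePresentation S (R.complex.X 1) :=
    Module.finitePresentation_of_projective _ _
  let f : R.complex.X 0 →ₗ[S] T := (piZero R).hom
  have hf : Function.Surjective f := (ModuleCat.epi_iff_surjective _).1 (epi_piZero R)
  refine ⟨f, hf, ?_⟩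
  have e1 := exact_piZero R
  rw [ShortComplex.moduleCat_exact_iff] at e1
  have e2 := R.exact_succ 0
  rw [ShortComplex.moduleCat_exact_iff] at e2
  let d1 : R.complex.X 1 →ₗ[S] R.complex.X 0 := (R.complex.d 1 0).hom
  let d2 : R.complex.X 2 →ₗ[S] R.complex.X 1 := (R.complex.d 2 1).hom
  have hd1 : ∀ x, f (d1 x) = 0 := fun x =>
    LinearMap.congr_fun (congrArg ModuleCat.Hom.hom (d_comp_piZero R)) x
  have hd2 : ∀ x, d1 (d2 x) = 0 := fun x =>
    LinearMap.congr_fun (congrArg ModuleCat.Hom.hom (R.complex.d_comp_d 2 1 0)) x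
  let d1' : R.complex.X 1 →ₗ[S] LinearMap.ker f := d1.codRestrict _ hd1
  have hs : Function.Surjective d1' := by
    rintro ⟨x, hx⟩
    obtain ⟨y, hy⟩ := e1 x hx
    exact ⟨y, Subtype.ext hy⟩
  refine Module.finitePresentation_of_surjective d1' hs ?_
  have : LinearMap.ker d1' = LinearMap.range d2 := by
    ext x
    constructor
    · intro hx
      have hx' : d1 x = 0 := congrArg Subtype.val hx
      obtain ⟨y, hy⟩ := e2 x hx'
      exact ⟨y, hy⟩
    · rintro ⟨y, rfl⟩
      exact Subtype.ext (hd2 y)
  rw [this]
  exact Submodule.FG.of_finite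

/-- The augmentation as a linear map to the trivial module. -/
noncomputable def augLin (G : Type) [Group G] : ZG G →ₗ[ZG G] Triv G where
  toFun := fun x => (augm G x : ℤ)
  map_add' := map_add _
  map_smul' := augm_mul

lemma ker_augLin (G : Type) [Group G] : LinearMap.ker (augLin G) = IG G := by
  ext x
  rw [mem_IG_iff]
  rfl

lemma augLin_surjective (G : Type) [Group G] : Function.Surjective (augLin G) := by
  intro n
  refine ⟨MonoidAlgebra.single 1 (show ℤ from n), ?_⟩
  show (augm G (MonoidAlgebra.single 1 (show ℤ from n)) : ℤ) = n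
  rw [addLift_single]
  show (show ℤ from n) * 1 = n
  rw [mul_one]

/-- The additive identification of a representation with its module. -/
noncomputable def asModAddEquiv {k : Type} [CommRing k] {G : Type} [Group G] (V : Rep.{0} k G) :
    (Rep.toModuleMonoidAlgebra.obj V) ≃+ V.V := V.ρ.asModuleEquiv.toAddEquiv

lemma asModAddEquiv_single_smul {k : Type} [CommRing k] {G : Type} [Group G] (V : Rep.{0} k G)
    (g : G) (a : Rep.toModuleMonoidAlgebra.obj V) :
    asModAddEquiv V (MonoidAlgebra.single g (1 : k) • a) = V.ρ g (asModAddEquiv V a) := by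
  have h := Representation.single_smul (ρ := V.ρ) (1 : k) g a
  rw [one_smul] at h
  exact h

lemma fgRep_iff_toModule {G : Type} [Group G] (V : Rep.{0} ℤ G) :
    FgRep V ↔ Module.Finite (ZG G) (Rep.toModuleMonoidAlgebra.obj V) :=
  fgRep_iff_finite (A := Rep.toModuleMonoidAlgebra.obj V) V (asModAddEquiv V)
    (fun g a => asModAddEquiv_single_smul V g a)

lemma IG_fp_of_data {G : Type} [Group G] {P T : Type} [AddCommGroup P] [Module (ZG G) P]
    [AddCommGroup T] [Module (ZG G) T] [Module.Finite (ZG G) P] [Module.Projective (ZG G) P]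
    (f : P →ₗ[ZG G] T) (hf : Function.Surjective f)
    (h : Module.FinitePresentation (ZG G) (LinearMap.ker f)) (e : T ≃+ ℤ)
    (he : ∀ (g : G) (x : T), e (el g • x) = e x) : Module.FinitePresentation (ZG G) (IG G) := by
  have he' : ∀ (r : ZG G) (x : T), e (r • x) = augm G r * e x := by
    intro r
    induction r using zg_induction with
    | zero => intro x; simp
    | el g => intro x; rw [he, addLift_el, one_mul]
    | add a b ha hb => intro x; rw [add_smul, map_add, map_add, ha, hb, add_mul]
    | neg a ha => intro x; rw [neg_smul, map_neg, map_neg, ha, neg_mul]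
  let e' : T ≃ₗ[ZG G] Triv G :=
    { e with
      map_smul' := he' }
  have h4 := schanuel_fp (e'.toLinearMap ∘ₗ f) (augLin G)
    (e'.surjective.comp hf) (augLin_surjective G) (by
      have h5 : LinearMap.ker (e'.toLinearMap ∘ₗ f) = LinearMap.ker f := by
        ext x
        simp only [LinearMap.mem_ker, LinearMap.comp_apply, LinearEquiv.coe_coe,
          EmbeddingLike.map_eq_zero_iff]
      rw [h5]; exact h)
  rw [ker_augLin] at h4
  exact h4

theorem IG_fp_of_rep_resolution {G : Type} [Group G]
    (h : ∃ R : ProjectiveResolution (Rep.trivial ℤ G ℤ), ∀ k ≤ 2,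
        ∃ s : Finset (R.complex.X k).V, ∀ x : (R.complex.X k).V,
          x ∈ Submodule.span ℤ
            (Set.range (fun p : G × s => (R.complex.X k).ρ p.1 (p.2 : (R.complex.X k).V)))) :
    Module.FinitePresentation (ZG G) (IG G) := by
  obtain ⟨R, hR⟩ := h
  let R' := (Rep.toModuleMonoidAlgebra (k := ℤ) (G := G)).mapProjectiveResolution R
  have h1 : ∀ k ≤ 2, Module.Finite (ZG G) (R'.complex.X k) := by
    intro k hk
    have h2 : FgRep (R.complex.X k) := hR k hk
    rw [fgRep_iff_toModule] at h2
    exact h2
  obtain ⟨f, hf, hfp⟩ := fp_ker_of_resolution R' h1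
  have h3 := h1 0 (by norm_num)
  have p0 : Module.Projective (ZG G) (R'.complex.X 0) :=
    (IsProjective.iff_projective (R := ZG G) (R'.complex.X 0)).2 (R'.projective 0)
  exact IG_fp_of_data f hf hfp (asModAddEquiv (Rep.trivial ℤ G ℤ))
    (fun g x => asModAddEquiv_single_smul (Rep.trivial ℤ G ℤ) g x)

end Pool.Agent.helper4
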