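import Pool.Agent.helper4.Letters
import Pool.Agent.helper4.RaagTwo

/-!
The twisted action on `H × (F_X × F_Y)`.
-/

namespace Pool.Agent.helper4

set_option linter.unusedSectionVars false
set_option linter.unusedSimpArgs false
set_option linter.unusedVariables false

/-- A twisted permutation. -/
def tw {H S : Type} [Group H] (σ : Equiv.Perm S) (c : S → H) : Equiv.Perm (H × S) where
  toFun p := (c p.2 * p.1, σ p.2)
  invFun p := ((c (σ⁻¹ p.2))⁻¹ * p.1, σ⁻¹ p.2)
  left_inv p := by simp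
  right_inv p := by simp

@[simp] lemma tw_apply {H S : Type} [Group H] (σ : Equiv.Perm S) (c : S → H) (p : H × S) :
    tw σ c p = (c p.2 * p.1, σ p.2) := rfl

@[simp] lemma tw_inv_apply {H S : Type} [Group H] (σ : Equiv.Perm S) (c : S → H) (p : H × S) :
    (tw σ c)⁻¹ p = ((c (σ⁻¹ p.2))⁻¹ * p.1, σ⁻¹ p.2) := rfl

/-- Height on the free group. -/
def hF (X : Type) : FreeGroup X →* Multiplicative ℤ := FreeGroup.lift (fun _ => Multiplicative.ofAdd 1)

@[simp] lemma hF_of {X : Type} (a : X) : ht (hF X) (FreeGroup.of a) = 1 := by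
  simp [ht, hF]

section

variable {X Y Z H : Type} [DecidableEq X] [DecidableEq Y] [Group H] (A : Z → Fin 2 → X)
  (B : Z → Fin 2 → Y) (x0 : X) (y0 : Y) (t : X → Y → H) (lam : Z → X → H) (mu : Z → Y → H)

/-- The base set. -/
abbrev Bs (X Y : Type) : Type := FreeGroup X × FreeGroup Y

/-- The level of a base point. -/
def lev (g : Bs X Y) : ℤ := ht (hF X) g.1 + ht (hF Y) g.2

/-- The cocycle on edges of the first kind. -/
def cc (a : X) (g : Bs X Y) : H :=
  if g.1 = 1 then t a (lst y0 g.2) else if FreeGroup.of a * g.1 = 1 then (t a (lst y0 g.2))⁻¹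
  else 1

open Classical in
/-- The potentials. -/
noncomputable def pot (i : Z) (g : Bs X Y) : H :=
  if AllL (fun a => ∃ s, A i s = a) g.1 then
    if AllL (fun b => ∃ s, B i s = b) g.2 then
      if g.1 = 1 then (mu i (lst y0 g.2))⁻¹ else lam i (lst x0 g.1)
    else
      if g.1 = 1 then 1 else t (lst x0 g.1) (lst y0 g.2)
  else 1

variable {A B x0 y0 t lam mu}

lemma pot_x (hrank : ∀ i s s', t (A i s) (B i s') = lam i (A i s) * mu i (B i s')) (i : Z)
    (s : Fin 2) (g : Bs X Y)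
    (hg : g.2 = 1 → g.1 ≠ 1 ∧ FreeGroup.of (A i s) * g.1 ≠ 1) :
    cc y0 t (A i s) g = pot A B x0 y0 t lam mu i (FreeGroup.of (A i s) * g.1, g.2) *
      (pot A B x0 y0 t lam mu i g)⁻¹ := by
  obtain ⟨g1, g2⟩ := g
  simp only at hg ⊢
  set a := A i s with ha
  have hAll : AllL (fun a => ∃ s, A i s = a) (FreeGroup.of a * g1) ↔
      AllL (fun a => ∃ s, A i s = a) g1 := allL_of_mul _ a ⟨s, rfl⟩ g1
  by_cases hA : AllL (fun a => ∃ s, A i s = a) g1
  · have hA' := hAll.2 hA
    by_cases hB : AllL (fun b => ∃ s, B i s = b) g2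
    · simp only [pot, cc, hA, hA', hB, if_true]
      by_cases h1 : g1 = 1
      · subst h1
        have h2 : g2 ≠ 1 := fun h => (hg h).1 rfl
        obtain ⟨s', hs'⟩ := allL_lst _ y0 g2 hB h2
        rw [if_pos rfl, mul_one, if_neg (FreeGroup.of_ne_one a), if_pos rfl, inv_inv, lst_of,
          ← hs', ha, hrank]
      · rw [if_neg h1, if_neg h1]
        by_cases h3 : FreeGroup.of a * g1 = 1
        · have h2 : g2 ≠ 1 := fun h => (hg h).2 h3
          obtain ⟨s', hs'⟩ := allL_lst _ y0 g2 hB h2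
          have h4 : g1 = (FreeGroup.of a)⁻¹ := eq_inv_of_mul_eq_one_right h3
          rw [if_pos h3, if_pos h3, h4, lst_of_inv, ← mul_inv_rev, ← hs', ha, hrank]
        · rw [if_neg h3, if_neg h3, lst_of_mul x0 a g1 h1 h3, mul_inv_cancel]
    · simp only [pot, cc, hA, hA', hB, if_true, if_false]
      by_cases h1 : g1 = 1
      · subst h1
        rw [if_pos rfl, mul_one, if_neg (FreeGroup.of_ne_one a), if_pos rfl, lst_of, inv_one,
          mul_one]
      · rw [if_neg h1, if_neg h1]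
        by_cases h3 : FreeGroup.of a * g1 = 1
        · have h4 : g1 = (FreeGroup.of a)⁻¹ := eq_inv_of_mul_eq_one_right h3
          rw [if_pos h3, if_pos h3, h4, lst_of_inv, one_mul]
        · rw [if_neg h3, if_neg h3, lst_of_mul x0 a g1 h1 h3, mul_inv_cancel]
  · have hA' : ¬ AllL (fun a => ∃ s, A i s = a) (FreeGroup.of a * g1) := fun h => hA (hAll.1 h)
    have h1 : g1 ≠ 1 := by rintro rfl; exact hA (allL_one _)
    have h3 : FreeGroup.of a * g1 ≠ 1 := by
      intro h; rw [h] at hA'; exact hA' (allL_one _)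
    simp only [pot, cc, hA, hA', if_false, h1, h3]
    rw [inv_one, mul_one]

lemma pot_y (i : Z) (s : Fin 2) (g : Bs X Y)
    (hg : g.1 = 1 → g.2 ≠ 1 ∧ FreeGroup.of (B i s) * g.2 ≠ 1) :
    pot A B x0 y0 t lam mu i (g.1, FreeGroup.of (B i s) * g.2) =
      pot A B x0 y0 t lam mu i g := by
  obtain ⟨g1, g2⟩ := g
  simp only at hg ⊢
  set b := B i s with hb
  have hAll : AllL (fun a => ∃ s, B i s = a) (FreeGroup.of b * g2) ↔
      AllL (fun a => ∃ s, B i s = a) g2 := allL_of_mul _ b ⟨s, rfl⟩ g2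
  by_cases hA : AllL (fun a => ∃ s, A i s = a) g1
  · by_cases hB : AllL (fun b => ∃ s, B i s = b) g2
    · have hB' := hAll.2 hB
      simp only [pot, hA, hB, hB', if_true]
      by_cases h1 : g1 = 1
      · obtain ⟨h2, h3⟩ := hg h1
        rw [if_pos h1, if_pos h1, lst_of_mul y0 b g2 h2 h3]
      · rw [if_neg h1, if_neg h1]
    · have hB' : ¬ AllL (fun a => ∃ s, B i s = a) (FreeGroup.of b * g2) :=
        fun h => hB (hAll.1 h)
      have h1 : g2 ≠ 1 := by rintro rfl; exact hB (allL_one _)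
      have h3 : FreeGroup.of b * g2 ≠ 1 := by
        intro h; rw [h] at hB'; exact hB' (allL_one _)
      simp only [pot, hA, hB, hB', if_true, if_false]
      rw [lst_of_mul y0 b g2 h1 h3]
  · simp only [pot, hA, if_false]

lemma cc_y (a : X) (b : Y) (g : Bs X Y)
    (hg : (g.1 = 1 ∨ FreeGroup.of a * g.1 = 1) → g.2 ≠ 1 ∧ FreeGroup.of b * g.2 ≠ 1) :
    cc y0 t a (g.1, FreeGroup.of b * g.2) = cc y0 t a g := by
  obtain ⟨g1, g2⟩ := g
  simp only at hg ⊢
  simp only [cc]
  by_cases h1 : g1 = 1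
  · obtain ⟨h2, h3⟩ := hg (Or.inl h1)
    rw [if_pos h1, if_pos h1, lst_of_mul y0 b g2 h2 h3]
  · rw [if_neg h1, if_neg h1]
    by_cases h4 : FreeGroup.of a * g1 = 1
    · obtain ⟨h2, h3⟩ := hg (Or.inr h4)
      rw [if_pos h4, if_pos h4, lst_of_mul y0 b g2 h2 h3]
    · rw [if_neg h4, if_neg h4]

end

end Pool.Agent.helper4
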