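import Pool.Agent.helper4.Window

/-!
Type `FP_3` of the kernel of a character from exactness of the ambient complex.
-/

namespace Pool.Agent.helper4

set_option linter.unusedSectionVars false
set_option linter.unusedSimpArgs false
set_option linter.unusedVariables false

section

variable {X Y Z R : Type} [Fintype X] [Fintype Y] [Fintype Z] [DecidableEq X] [DecidableEq Y]
  [DecidableEq Z] [Ring R] (A : Z → Fin 2 → X) (B : Z → Fin 2 → Y)
  (fx fx' : X → R) (fy fy' : Y → R) (fc fc' : Z → R)

lemma T3_add (η : W3 Z → R) : T3 A B (fun a => fx a + fx' a) (fun b => fy b + fy' b)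
    (fun i => fc i + fc' i) η = T3 A B fx fy fc η + T3 A B fx' fy' fc' η := by
  funext w
  rcases w with ⟨a, b⟩ | ⟨i, s⟩ | ⟨i, t⟩
  · simp only [Pi.add_apply, T3_ab, ← Finset.sum_add_distrib]
    refine Finset.sum_congr rfl fun i _ => Finset.sum_congr rfl fun s _ =>
      Finset.sum_congr rfl fun t _ => ?_
    split_ifs
    · rw [mul_add]
    · rw [add_zero]
  · simp only [Pi.add_apply, T3_q, mul_add, Finset.sum_add_distrib, neg_add]
  · simp only [Pi.add_apply, T3_r, mul_add, Finset.sum_add_distrib]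

lemma T2_add (ξ : W2 X Y Z → R) : T2 A B (fun a => fx a + fx' a) (fun b => fy b + fy' b)
    (fun i => fc i + fc' i) ξ = T2 A B fx fy fc ξ + T2 A B fx' fy' fc' ξ := by
  funext w
  rcases w with a | b | i
  · simp only [Pi.add_apply, T2_a]
    have h : ∀ i s, (if A i s = a then ξ (Sum.inr (Sum.inl (i, s))) * (fc i + fc' i) else 0) =
        (if A i s = a then ξ (Sum.inr (Sum.inl (i, s))) * fc i else 0) +
        (if A i s = a then ξ (Sum.inr (Sum.inl (i, s))) * fc' i else 0) := by
      intro i s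
      split_ifs
      · rw [mul_add]
      · rw [add_zero]
    simp only [h]
    simp only [mul_add, Finset.sum_add_distrib]
    abel
  · simp only [Pi.add_apply, T2_b]
    have h : ∀ i s, (if B i s = b then ξ (Sum.inr (Sum.inr (i, s))) * (fc i + fc' i) else 0) =
        (if B i s = b then ξ (Sum.inr (Sum.inr (i, s))) * fc i else 0) +
        (if B i s = b then ξ (Sum.inr (Sum.inr (i, s))) * fc' i else 0) := by
      intro i s
      split_ifs
      · rw [mul_add]
      · rw [add_zero]
    simp only [h]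
    simp only [mul_add, Finset.sum_add_distrib]
    abel
  · simp only [Pi.add_apply, T2_i, mul_add, Finset.sum_add_distrib]
    abel

lemma T1_add (ζ : W1 X Y Z → R) : T1 (fun a => fx a + fx' a) (fun b => fy b + fy' b)
    (fun i => fc i + fc' i) ζ = T1 fx fy fc ζ + T1 fx' fy' fc' ζ := by
  simp only [T1_apply, mul_add, Finset.sum_add_distrib]
  abel

variable {fx fy fc}

/-- Compatibility of additive maps with right multiplication by the coefficients. -/
structure Compat (e e' : R →+ R) (fx : X → R) (fy : Y → R) (fc : Z → R) : Prop where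
  x : ∀ r a, e' (r * fx a) = e r * fx a
  y : ∀ r a, e' (r * fy a) = e r * fy a
  c : ∀ r a, e' (r * fc a) = e r * fc a

variable {e e' : R →+ R}

lemma T3_map (h : Compat e e' fx fy fc) (η : W3 Z → R) (w : W2 X Y Z) :
    e' (T3 A B fx fy fc η w) = T3 A B fx fy fc (fun σ => e (η σ)) w := by
  rcases w with ⟨a, b⟩ | ⟨i, s⟩ | ⟨i, t⟩
  · simp only [T3_ab, map_sum]
    refine Finset.sum_congr rfl fun i _ => Finset.sum_congr rfl fun s _ =>
      Finset.sum_congr rfl fun t _ => ?_
    split_ifs
    · rw [h.c]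
    · rw [map_zero]
  · simp only [T3_q, map_neg, map_sum, h.y]
  · simp only [T3_r, map_sum, h.x]

lemma T2_map (h : Compat e e' fx fy fc) (ξ : W2 X Y Z → R) (w : W1 X Y Z) :
    e' (T2 A B fx fy fc ξ w) = T2 A B fx fy fc (fun σ => e (ξ σ)) w := by
  rcases w with a | b | i
  · simp only [T2_a, map_sub, map_neg, map_sum, h.y]
    congr 1
    refine Finset.sum_congr rfl fun i _ => Finset.sum_congr rfl fun s _ => ?_
    split_ifs
    · rw [h.c]
    · rw [map_zero]
  · simp only [T2_b, map_sub, map_sum, h.x]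
    congr 1
    refine Finset.sum_congr rfl fun i _ => Finset.sum_congr rfl fun s _ => ?_
    split_ifs
    · rw [h.c]
    · rw [map_zero]
  · simp only [T2_i, map_add, map_sum, h.x, h.y]

lemma T1_map (h : Compat e e' fx fy fc) (ζ : W1 X Y Z → R) :
    e' (T1 fx fy fc ζ) = T1 fx fy fc (fun σ => e (ζ σ)) := by
  simp only [T1_apply, map_add, map_sum, h.x, h.y, h.c]

end

/-- The trivial grading. -/
def punitGrading : Grading PUnit.{1} where
  pr _ := 0
  pr_same _ _ := rfl
  pr_ne _ _ _ _ := rfl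
  bdd _ := ⟨0, fun _ _ => rfl⟩
  sep _ _ := rfl

section

variable {X Y Z G : Type} [Fintype X] [Fintype Y] [Fintype Z] [DecidableEq X] [DecidableEq Y]
  [DecidableEq Z] [Group G] {A : Z → Fin 2 → X} {B : Z → Fin 2 → Y} {x0 : X} {y0 : Y}
  {Λ : Z → X → Y → ℤ} (χ : G →* Multiplicative ℤ) (gx : X → G) (gy : Y → G) (gc : Z → G)

/-- The group-theoretic hypotheses. -/
structure Gens (A : Z → Fin 2 → X) (B : Z → Fin 2 → Y) (χ : G →* Multiplicative ℤ)
    (gx : X → G) (gy : Y → G) (gc : Z → G) : Prop where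
  hx : ∀ a, ht χ (gx a) = 1
  hy : ∀ a, ht χ (gy a) = 1
  hc : ∀ a, ht χ (gc a) = 1
  xy : ∀ a b, gx a * gy b = gy b * gx a
  xc : ∀ i s, gx (A i s) * gc i = gc i * gx (A i s)
  yc : ∀ i t, gy (B i t) * gc i = gc i * gy (B i t)

variable {χ gx gy gc}

lemma isUnit_el (g : G) : IsUnit (el g) :=
  ⟨⟨el g, el g⁻¹, el_mul_el_inv g, el_inv_mul_el g⟩, rfl⟩

lemma Gens.comm (H : Gens A B χ gx gy gc) :
    Comm A B (fun a => el (gx a)) (fun b => el (gy b)) (fun i => el (gc i)) where
  xy a b := by rw [← el_mul, ← el_mul, H.xy]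
  xc a b := by rw [← el_mul, ← el_mul, H.xc]
  yc a b := by rw [← el_mul, ← el_mul, H.yc]

lemma Gens.units (gx : X → G) (gy : Y → G) (gc : Z → G) :
    Unts (fun a => el (gx a)) (fun b => el (gy b)) (fun i => el (gc i)) where
  x a := isUnit_el _
  y a := isUnit_el _
  c a := isUnit_el _

lemma comm_neg (A : Z → Fin 2 → X) (B : Z → Fin 2 → Y) :
    Comm A B (fun _ : X => (-1 : ZG G)) (fun _ : Y => (-1 : ZG G)) (fun _ : Z => (-1 : ZG G)) where
  xy a b := rfl
  xc a b := rfl
  yc a b := rfl

lemma units_neg (X Y Z G : Type) [Group G] :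
    Unts (fun _ : X => (-1 : ZG G)) (fun _ : Y => (-1 : ZG G)) (fun _ : Z => (-1 : ZG G)) where
  x a := isUnit_one.neg
  y a := isUnit_one.neg
  c a := isUnit_one.neg

lemma Gens.comm' (H : Gens A B χ gx gy gc) :
    Comm A B (fun a => el (gx a) + -1) (fun b => el (gy b) + -1) (fun i => el (gc i) + -1) where
  xy a b := by
    have := H.comm.xy a b
    simp only [mul_add, add_mul, this]; simp; abel
  xc a b := by
    have := H.comm.xc a b
    simp only [mul_add, add_mul, this]; simp; abel
  yc a b := by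
    have := H.comm.yc a b
    simp only [mul_add, add_mul, this]; simp; abel

lemma Gens.compat1 (H : Gens A B χ gx gy gc) (j : ℤ) :
    Compat (prj χ j) (prj χ (j + 1)) (fun a => el (gx a)) (fun b => el (gy b))
      (fun i => el (gc i)) where
  x r a := by have := prj_mul_el χ j r (gx a); rwa [H.hx] at this
  y r a := by have := prj_mul_el χ j r (gy a); rwa [H.hy] at this
  c r a := by have := prj_mul_el χ j r (gc a); rwa [H.hc] at this

lemma compat0 (X Y Z : Type) (χ : G →* Multiplicative ℤ) (j : ℤ) :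
    Compat (prj χ j) (prj χ j) (fun _ : X => (-1 : ZG G)) (fun _ : Y => (-1 : ZG G))
      (fun _ : Z => (-1 : ZG G)) where
  x r a := by simp
  y r a := by simp
  c r a := by simp

/-- Abbreviations for the boundary, its level-preserving and its level-raising parts. -/
noncomputable abbrev D3 (A : Z → Fin 2 → X) (B : Z → Fin 2 → Y) (gx : X → G) (gy : Y → G)
    (gc : Z → G) :=
  T3 A B (fun a => el (gx a) + -1) (fun b => el (gy b) + -1) (fun i => el (gc i) + -1)
/-- Second differential. -/
noncomputable abbrev D2 (A : Z → Fin 2 → X) (B : Z → Fin 2 → Y) (gx : X → G) (gy : Y → G)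
    (gc : Z → G) :=
  T2 A B (fun a => el (gx a) + -1) (fun b => el (gy b) + -1) (fun i => el (gc i) + -1)
/-- First differential. -/
noncomputable abbrev D1 (gx : X → G) (gy : Y → G) (gc : Z → G) :=
  T1 (fun a => el (gx a) + -1) (fun b => el (gy b) + -1) (fun i => el (gc i) + -1)

/-- Level-raising part of the third differential. -/
noncomputable abbrev U3 (A : Z → Fin 2 → X) (B : Z → Fin 2 → Y) (gx : X → G) (gy : Y → G)
    (gc : Z → G) := T3 A B (fun a => el (gx a)) (fun b => el (gy b)) (fun i => el (gc i))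
/-- Level-raising part of the second differential. -/
noncomputable abbrev U2 (A : Z → Fin 2 → X) (B : Z → Fin 2 → Y) (gx : X → G) (gy : Y → G)
    (gc : Z → G) := T2 A B (fun a => el (gx a)) (fun b => el (gy b)) (fun i => el (gc i))
/-- Level-raising part of the first differential. -/
noncomputable abbrev U1 (gx : X → G) (gy : Y → G)
    (gc : Z → G) := T1 (fun a => el (gx a)) (fun b => el (gy b)) (fun i => el (gc i))
/-- Level-preserving part of the third differential. -/
noncomputable abbrev V3 (G : Type) [Group G] (A : Z → Fin 2 → X) (B : Z → Fin 2 → Y) :=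
  T3 A B (fun _ => (-1 : ZG G)) (fun _ => (-1 : ZG G)) (fun _ => (-1 : ZG G))
/-- Level-preserving part of the second differential. -/
noncomputable abbrev V2 (G : Type) [Group G] (A : Z → Fin 2 → X) (B : Z → Fin 2 → Y) :=
  T2 A B (fun _ => (-1 : ZG G)) (fun _ => (-1 : ZG G)) (fun _ => (-1 : ZG G))
/-- Level-preserving part of the first differential. -/
noncomputable abbrev V1 (X Y Z G : Type) [Fintype X] [Fintype Y] [Fintype Z] [Group G] :=
  T1 (fun _ : X => (-1 : ZG G)) (fun _ : Y => (-1 : ZG G)) (fun _ : Z => (-1 : ZG G))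

lemma pushHyp2 (hcert : Cert A B x0 y0 Λ) (H : Gens A B χ gx gy gc) :
    PushHyp punitGrading ((zgGrading χ).pi (W3 Z)) ((zgGrading χ).pi (W2 X Y Z)) 0 0
      (V3 G A B).toAddMonoidHom (U3 A B gx gy gc).toAddMonoidHom where
  h0' j x := map_zero (((zgGrading χ).pi (W3 Z)).pr j)
  h1' j x := map_zero (((zgGrading χ).pi (W3 Z)).pr (j + 1))
  h0 j x := by funext w; exact T3_map A B (compat0 X Y Z χ j) x w
  h1 j x := by funext w; exact T3_map A B (H.compat1 j) x w
  hdd x := by simp
  ex0 w hw := ⟨PUnit.unit, (T3_inj hcert (comm_neg A B) (units_neg X Y Z G) w hw).symm⟩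
  ex1 w hw := ⟨PUnit.unit, (T3_inj hcert H.comm (Gens.units gx gy gc) w hw).symm⟩

lemma pushHyp1 (hcert : Cert A B x0 y0 Λ) (H : Gens A B χ gx gy gc) :
    PushHyp ((zgGrading χ).pi (W3 Z)) ((zgGrading χ).pi (W2 X Y Z)) ((zgGrading χ).pi (W1 X Y Z))
      (V3 G A B).toAddMonoidHom (U3 A B gx gy gc).toAddMonoidHom
      (V2 G A B).toAddMonoidHom (U2 A B gx gy gc).toAddMonoidHom where
  h0' j x := by funext w; exact T3_map A B (compat0 X Y Z χ j) x w
  h1' j x := by funext w; exact T3_map A B (H.compat1 j) x w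
  h0 j x := by funext w; exact T2_map A B (compat0 X Y Z χ j) x w
  h1 j x := by funext w; exact T2_map A B (H.compat1 j) x w
  hdd x := by
    have h1 : V3 G A B x + U3 A B gx gy gc x = D3 A B gx gy gc x := by
      rw [add_comm]; exact (T3_add A B _ _ _ _ _ _ x).symm
    have h2 : ∀ y, V2 G A B y + U2 A B gx gy gc y = D2 A B gx gy gc y := fun y => by
      rw [add_comm]; exact (T2_add A B _ _ _ _ _ _ y).symm
    show V2 G A B (V3 G A B x + U3 A B gx gy gc x) + U2 A B gx gy gc
      (V3 G A B x + U3 A B gx gy gc x) = 0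
    rw [h1, h2]
    exact T2_T3 H.comm' x
  ex0 w hw := T2_exact hcert (comm_neg A B) (units_neg X Y Z G) w hw
  ex1 w hw := T2_exact hcert H.comm (Gens.units gx gy gc) w hw

lemma pushHyp0 (x0 : X) (y0 : Y) (H : Gens A B χ gx gy gc) :
    PushHyp ((zgGrading χ).pi (W2 X Y Z)) ((zgGrading χ).pi (W1 X Y Z)) (zgGrading χ)
      (V2 G A B).toAddMonoidHom (U2 A B gx gy gc).toAddMonoidHom
      (V1 X Y Z G).toAddMonoidHom (U1 gx gy gc).toAddMonoidHom where
  h0' j x := by funext w; exact T2_map A B (compat0 X Y Z χ j) x w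
  h1' j x := by funext w; exact T2_map A B (H.compat1 j) x w
  h0 j x := T1_map (compat0 X Y Z χ j) x
  h1 j x := T1_map (H.compat1 j) x
  hdd x := by
    have h1 : V2 G A B x + U2 A B gx gy gc x = D2 A B gx gy gc x := by
      rw [add_comm]; exact (T2_add A B _ _ _ _ _ _ x).symm
    have h2 : ∀ y, V1 X Y Z G y + U1 gx gy gc y = D1 gx gy gc y := fun y => by
      rw [add_comm]; exact (T1_add _ _ _ _ _ _ y).symm
    show V1 X Y Z G (V2 G A B x + U2 A B gx gy gc x) + U1 gx gy gc
      (V2 G A B x + U2 A B gx gy gc x) = 0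
    rw [h1, h2]
    exact T1_T2 H.comm' x
  ex0 w hw := T1_exact A B x0 y0 (comm_neg A B) (units_neg X Y Z G) w hw
  ex1 w hw := T1_exact A B x0 y0 H.comm (Gens.units gx gy gc) w hw

end

end Pool.Agent.helper4
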