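import Pool.Agent.helper4.Push
import Pool.Agent.helper4.BaseChange

/-!
The grading of a group ring by a character and the window modules over its kernel.
-/

namespace Pool.Agent.helper4

set_option linter.unusedSectionVars false

section

variable {G : Type} [Group G] (χ : G →* Multiplicative ℤ)

/-- The height function. -/
def ht (g : G) : ℤ := Multiplicative.toAdd (χ g)

@[simp] lemma ht_mul (g h : G) : ht χ (g * h) = ht χ g + ht χ h := by simp [ht]

@[simp] lemma ht_one : ht χ 1 = 0 := by simp [ht]

@[simp] lemma ht_inv (g : G) : ht χ g⁻¹ = -ht χ g := by simp [ht]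

/-- Projection to a level. -/
noncomputable def prj (j : ℤ) : ZG G →+ ZG G := addLift (fun g => if ht χ g = j then el g else 0)

lemma prj_el (j : ℤ) (g : G) : prj χ j (el g) = if ht χ g = j then el g else 0 := addLift_el _ _

lemma prj_mul_el (j : ℤ) (x : ZG G) (g : G) :
    prj χ (j + ht χ g) (x * el g) = prj χ j x * el g := by
  induction x using zg_induction with
  | zero => simp
  | el h =>
    rw [← el_mul, prj_el, prj_el, ht_mul]
    by_cases hh : ht χ h = j
    · simp [hh]
    · rw [if_neg (by omega), if_neg hh, zero_mul]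
  | add a b ha hb => rw [add_mul, map_add, ha, hb, map_add, add_mul]
  | neg a ha => rw [neg_mul, map_neg, ha, map_neg, neg_mul]

lemma prj_sum (x : ZG G) : ∃ n : ℕ, ∀ N : ℕ, n ≤ N →
    ∑ j ∈ Finset.Icc (-(N : ℤ)) N, prj χ j x = x := by
  induction x using zg_induction with
  | zero => exact ⟨0, fun N _ => by simp⟩
  | el g =>
    refine ⟨(ht χ g).natAbs, fun N hN => ?_⟩
    simp only [prj_el]
    rw [Finset.sum_eq_single (ht χ g)]
    · simp
    · intro b _ hb; rw [if_neg (Ne.symm hb)]
    · intro h
      exfalso; apply h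
      rw [Finset.mem_Icc]
      omega
  | add a b ha hb =>
    obtain ⟨n, hn⟩ := ha
    obtain ⟨m, hm⟩ := hb
    refine ⟨max n m, fun N hN => ?_⟩
    simp only [map_add, Finset.sum_add_distrib]
    rw [hn N (le_trans (le_max_left _ _) hN), hm N (le_trans (le_max_right _ _) hN)]
  | neg a ha =>
    obtain ⟨n, hn⟩ := ha
    refine ⟨n, fun N hN => ?_⟩
    simp only [map_neg, Finset.sum_neg_distrib]
    rw [hn N hN]

/-- The grading of the group ring. -/
noncomputable def zgGrading : Grading (ZG G) where
  pr := prj χ
  pr_same j x := by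
    induction x using zg_induction with
    | zero => simp
    | el g =>
      rw [prj_el]
      split_ifs with h
      · rw [prj_el, if_pos h]
      · simp
    | add a b ha hb => simp only [map_add, ha, hb]
    | neg a ha => simp only [map_neg, ha]
  pr_ne i j x hij := by
    induction x using zg_induction with
    | zero => simp
    | el g =>
      rw [prj_el]
      split_ifs with h
      · rw [prj_el, if_neg (by omega)]
      · simp
    | add a b ha hb => simp only [map_add, ha, hb, add_zero]
    | neg a ha => simp only [map_neg, ha, neg_zero]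
  bdd x := by
    induction x using zg_induction with
    | zero => exact ⟨0, fun j _ => by simp⟩
    | el g =>
      refine ⟨(ht χ g).natAbs, fun j hj => ?_⟩
      rw [prj_el, if_neg]
      rintro rfl
      rw [Int.abs_eq_natAbs] at hj
      exact lt_irrefl _ hj
    | add a b ha hb =>
      obtain ⟨n, hn⟩ := ha
      obtain ⟨m, hm⟩ := hb
      refine ⟨max n m, fun j hj => ?_⟩
      rw [map_add, hn j (lt_of_le_of_lt (by exact_mod_cast le_max_left _ _) hj),
        hm j (lt_of_le_of_lt (by exact_mod_cast le_max_right _ _) hj), add_zero]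
    | neg a ha =>
      obtain ⟨n, hn⟩ := ha
      exact ⟨n, fun j hj => by rw [map_neg, hn j hj, neg_zero]⟩
  sep x h := by
    obtain ⟨n, hn⟩ := prj_sum χ x
    rw [← hn n le_rfl]
    exact Finset.sum_eq_zero fun j _ => h j

lemma zgGrading_pr (j : ℤ) (x : ZG G) : (zgGrading χ).pr j x = prj χ j x := rfl

/-- The inclusion of group rings. -/
noncomputable def incK : ZG χ.ker →+* ZG G := zmap χ.ker.subtype

lemma incK_el (q : χ.ker) : incK χ (el q) = el (q : G) := zmap_el _ _

noncomputable instance modK : Module (ZG χ.ker) (ZG G) := Module.compHom (ZG G) (incK χ)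

lemma smulK (s : ZG χ.ker) (x : ZG G) : s • x = incK χ s * x := rfl

lemma ht_ker (q : χ.ker) : ht χ (q : G) = 0 := by
  have : χ (q : G) = 1 := q.2
  rw [ht, this]; rfl

lemma prj_smul (j : ℤ) (s : ZG χ.ker) (x : ZG G) : prj χ j (s • x) = s • prj χ j x := by
  rw [smulK, smulK]
  induction s using zg_induction with
  | zero => simp
  | el q =>
    rw [incK_el]
    induction x using zg_induction with
    | zero => simp
    | el g =>
      rw [← el_mul, prj_el, prj_el, ht_mul, ht_ker, zero_add]
      split_ifs <;> simp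
    | add a b ha hb => simp only [mul_add, map_add, ha, hb]
    | neg a ha => simp only [mul_neg, map_neg, ha]
  | add a b ha hb => simp only [add_mul, map_add, ha, hb]
  | neg a ha => simp only [neg_mul, map_neg, ha]

/-- The window submodule. -/
def Win (n : ℕ) : Submodule (ZG χ.ker) (ZG G) where
  carrier := {x | (zgGrading χ).Supp 0 n x}
  add_mem' := by
    intro a b ha hb j hj
    rw [map_add, ha j hj, hb j hj, add_zero]
  zero_mem' := by intro j _; simp
  smul_mem' := by
    intro s x hx j hj
    rw [zgGrading_pr, prj_smul, ← zgGrading_pr, hx j hj, smul_zero]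

lemma mem_Win (n : ℕ) (x : ZG G) : x ∈ Win χ n ↔ (zgGrading χ).Supp 0 n x := Iff.rfl

variable (τ : G) (hτ : ht χ τ = 1)

lemma ht_zpow (hτ : ht χ τ = 1) (j : ℤ) : ht χ (τ ^ j) = j := by
  have : χ τ = Multiplicative.ofAdd 1 := hτ
  rw [ht, map_zpow, this]
  simp

/-- Coordinate at a level. -/
noncomputable def rho (hτ : ht χ τ = 1) (j : ℤ) : ZG G →+ ZG χ.ker :=
  addLift (fun g => if h : ht χ g = j then el (⟨g * τ ^ (-j), by
    rw [MonoidHom.mem_ker]
    have h1 : ht χ (g * τ ^ (-j)) = 0 := by rw [ht_mul, ht_zpow χ τ hτ, h]; ring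
    exact h1⟩ : χ.ker) else 0)

lemma rho_smul (hτ : ht χ τ = 1) (j : ℤ) (s : ZG χ.ker) (x : ZG G) :
    rho χ τ hτ j (s • x) = s * rho χ τ hτ j x := by
  rw [smulK]
  induction s using zg_induction with
  | zero => simp
  | el q =>
    rw [incK_el]
    induction x using zg_induction with
    | zero => simp
    | el g =>
      rw [← el_mul]
      unfold rho
      rw [addLift_el, addLift_el]
      by_cases h : ht χ g = j
      · have h' : ht χ ((q : G) * g) = j := by rw [ht_mul, ht_ker, h, zero_add]
        rw [dif_pos h, dif_pos h', ← el_mul]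
        congr 1
        apply Subtype.ext
        show (q : G) * g * τ ^ (-j) = q * (g * τ ^ (-j))
        rw [mul_assoc]
      · have h' : ¬ ht χ ((q : G) * g) = j := by rw [ht_mul, ht_ker, zero_add]; exact h
        rw [dif_neg h, dif_neg h', mul_zero]
    | add a b ha hb => simp only [mul_add, map_add, ha, hb]
    | neg a ha => simp only [mul_neg, map_neg, ha]
  | add a b ha hb => simp only [add_mul, map_add, ha, hb]
  | neg a ha => simp only [neg_mul, map_neg, ha]

lemma rho_zpow (hτ : ht χ τ = 1) (i j : ℤ) :
    rho χ τ hτ i (el (τ ^ j)) = if i = j then 1 else 0 := by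
  unfold rho
  rw [addLift_el]
  by_cases h : i = j
  · subst h
    rw [dif_pos (ht_zpow χ τ hτ i), if_pos rfl, ← el_one]
    congr 1
    apply Subtype.ext
    show τ ^ i * τ ^ (-i) = 1
    rw [zpow_neg, mul_inv_cancel]
  · rw [dif_neg (by rw [ht_zpow χ τ hτ]; exact Ne.symm h), if_neg h]

lemma rho_smul_zpow (hτ : ht χ τ = 1) (j : ℤ) (x : ZG G) :
    rho χ τ hτ j x • el (τ ^ j) = prj χ j x := by
  rw [smulK]
  induction x using zg_induction with
  | zero => simp
  | el g =>
    rw [prj_el]
    unfold rho
    rw [addLift_el]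
    by_cases h : ht χ g = j
    · rw [dif_pos h, if_pos h, incK_el, ← el_mul]
      congr 1
      show g * τ ^ (-j) * τ ^ j = g
      rw [zpow_neg, inv_mul_cancel_right]
    · rw [dif_neg h, if_neg h]; simp
  | add a b ha hb => simp only [map_add, add_mul, ha, hb]
  | neg a ha => simp only [map_neg, neg_mul, ha]

lemma zpow_mem_Win (hτ : ht χ τ = 1) (n : ℕ) (j : Fin (n + 1)) :
    el (τ ^ ((j : ℕ) : ℤ)) ∈ Win χ n := by
  intro i hi
  rw [zgGrading_pr, prj_el, ht_zpow χ τ hτ, if_neg]
  have := j.2
  omega

/-- The window modules are free of finite rank. -/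
noncomputable def winEquiv (hτ : ht χ τ = 1) (n : ℕ) :
    (Fin (n + 1) → ZG χ.ker) ≃ₗ[ZG χ.ker] Win χ n where
  toFun s := ⟨∑ j, s j • el (τ ^ ((j : ℕ) : ℤ)),
    sum_mem fun j _ => Submodule.smul_mem _ _ (zpow_mem_Win χ τ hτ n j)⟩
  invFun x j := rho χ τ hτ ((j : ℕ) : ℤ) (x : ZG G)
  map_add' s t := by
    apply Subtype.ext
    simp only [Pi.add_apply, add_smul, Finset.sum_add_distrib, Submodule.coe_add]
  map_smul' r s := by
    apply Subtype.ext
    simp only [Pi.smul_apply, smul_eq_mul, RingHom.id_apply, Submodule.coe_smul, Finset.smul_sum,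
      mul_smul]
  left_inv s := by
    funext i
    simp only [map_sum, rho_smul, rho_zpow]
    rw [Finset.sum_eq_single i]
    · simp
    · intro j _ hj
      rw [if_neg, mul_zero]
      intro h
      apply hj
      apply Fin.ext
      exact_mod_cast h.symm
    · simp
  right_inv x := by
    apply Subtype.ext
    simp only [rho_smul_zpow]
    have hx := x.2
    rw [mem_Win] at hx
    rw [← sub_eq_zero]
    apply (zgGrading χ).sep
    intro i
    rw [map_sub, map_sum]
    by_cases hi : i < 0 ∨ (n : ℤ) < i
    · rw [hx i hi, sub_zero]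
      refine Finset.sum_eq_zero fun j _ => ?_
      refine (zgGrading χ).pr_ne i _ _ ?_
      have := j.2
      omega
    · have hi1 : 0 ≤ i := by omega
      have hi2 : i ≤ n := by omega
      rw [Finset.sum_eq_single (⟨i.toNat, by omega⟩ : Fin (n + 1))]
      · have h3 : (((⟨i.toNat, by omega⟩ : Fin (n + 1)) : ℕ) : ℤ) = i := by
          show ((i.toNat : ℕ) : ℤ) = i
          omega
        rw [h3]
        show (zgGrading χ).pr i ((zgGrading χ).pr i (x : ZG G)) - _ = 0
        rw [(zgGrading χ).pr_same, sub_self]
      · intro j _ hj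
        refine (zgGrading χ).pr_ne i _ _ ?_
        intro h
        apply hj
        apply Fin.ext
        show (j : ℕ) = i.toNat
        omega
      · simp

lemma win_finite (hτ : ht χ τ = 1) (n : ℕ) : Module.Finite (ZG χ.ker) (Win χ n) :=
  Module.Finite.equiv (winEquiv χ τ hτ n)

lemma win_projective (hτ : ht χ τ = 1) (n : ℕ) : Module.Projective (ZG χ.ker) (Win χ n) :=
  Module.Projective.of_equiv (winEquiv χ τ hτ n)

end

end Pool.Agent.helper4
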